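import Pool.Agent.NUH.PL

/-!
# The break points of `S θ`
-/

set_option autoImplicit false

namespace Pool.Agent.NUH

/-- bound for the index of the break points -/
noncomputable def J (θ : ℝ) : ℤ := ⌈1 / (8 * θ)⌉

/-- the finite set of break points modulo 1 -/
noncomputable def C0 (θ : ℝ) : Finset ℝ :=
  insert 0 ((Finset.Icc (-(J θ)) (J θ)).image fun j : ℤ => 1 / 2 - 4 * θ * (j : ℝ))

/-- the break points -/
def Z (θ : ℝ) : Set ℝ := {y | ∃ c ∈ C0 θ, ∃ k : ℤ, y = (k : ℝ) + c}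

theorem Z_closed (θ : ℝ) : IsClosed (Z θ) := by
  have e : Z θ = ⋃ c ∈ (C0 θ : Set ℝ), Set.range fun k : ℤ => (k : ℝ) + c := by
    ext y
    simp only [Z, Set.mem_ofPred_eq, Set.mem_iUnion, Set.mem_range, Finset.mem_coe, exists_prop]
    constructor
    · rintro ⟨c, hc, k, hk⟩; exact ⟨c, hc, k, hk.symm⟩
    · rintro ⟨c, hc, k, hk⟩; exact ⟨c, hc, k, hk.symm⟩
  rw [e]
  apply Set.Finite.isClosed_biUnion (Finset.finite_toSet _)
  intro c _
  have h1 : IsClosed (Set.range ((↑) : ℤ → ℝ)) := Int.isClosedEmbedding_coe_real.isClosed_range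
  have h2 : (Set.range fun k : ℤ => (k : ℝ) + c) = (Homeomorph.addRight c) '' Set.range ((↑) : ℤ → ℝ) := by
    rw [← Set.range_comp]; rfl
  rw [h2]
  exact (Homeomorph.addRight c).isClosedMap _ h1

theorem Z_nonempty (θ : ℝ) : (Z θ).Nonempty := ⟨0, 0, by simp [C0], 0, by simp⟩

/-- distance to the break points -/
noncomputable def bd (θ y : ℝ) : ℝ := Metric.infDist y (Z θ)

theorem bd_nonneg (θ y : ℝ) : 0 ≤ bd θ y := Metric.infDist_nonneg

theorem bd_lip (θ y y' : ℝ) : |bd θ y - bd θ y'| ≤ |y - y'| := by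
  have := (Metric.lipschitz_infDist_pt (Z θ)).dist_le_mul y y'
  simpa [Real.dist_eq, bd] using this

theorem bd_add_int (θ y : ℝ) (k : ℤ) : bd θ (y + k) = bd θ y := by
  have h : (Homeomorph.addRight (k : ℝ)) '' Z θ = Z θ := by
    ext z
    simp only [Set.mem_image, Homeomorph.coe_addRight]
    constructor
    · rintro ⟨w, ⟨c, hc, j, rfl⟩, rfl⟩
      exact ⟨c, hc, j + k, by push_cast; ring⟩
    · rintro ⟨c, hc, j, rfl⟩
      exact ⟨(j : ℝ) + c - k, ⟨c, hc, j - k, by push_cast; ring⟩, by ring⟩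
  have h2 : Isometry (Homeomorph.addRight (k : ℝ)) := isometry_add_right (k : ℝ)
  have := Metric.infDist_image (x := y) (t := Z θ) h2
  rw [h] at this
  exact this

theorem bd_eq_zero {θ y : ℝ} (h : bd θ y = 0) : y ∈ Z θ :=
  ((Z_closed θ).mem_iff_infDist_zero (Z_nonempty θ)).mpr h

theorem mem_Z_int (θ : ℝ) (k : ℤ) : (k : ℝ) ∈ Z θ := ⟨0, by simp [C0], k, by simp⟩

theorem mem_Z_brk {θ : ℝ} (k j : ℤ) (hj : |(j : ℝ)| ≤ 1 / (8 * θ)) :
    (k : ℝ) + (1 / 2 - 4 * θ * j) ∈ Z θ := by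
  refine ⟨1 / 2 - 4 * θ * j, ?_, k, rfl⟩
  unfold C0
  rw [Finset.mem_insert]
  right
  rw [Finset.mem_image]
  refine ⟨j, ?_, rfl⟩
  rw [Finset.mem_Icc, ← abs_le]
  unfold J
  have : ((|j| : ℤ) : ℝ) ≤ ((⌈1 / (8 * θ)⌉ : ℤ) : ℝ) := by
    push_cast
    exact hj.trans (Int.le_ceil _)
  exact_mod_cast this

theorem bd_le_dist {θ y c : ℝ} (hc : c ∈ Z θ) : bd θ y ≤ |y - c| := by
  have := Metric.infDist_le_dist_of_mem (x := y) hc
  rwa [Real.dist_eq] at this

/-- if the floors differ there is an integer in between -/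
theorem exists_int_between {x x' : ℝ} (h : ⌊x⌋ ≠ ⌊x'⌋) :
    ∃ k : ℤ, min x x' ≤ k ∧ (k : ℝ) ≤ max x x' := by
  rcases lt_or_gt_of_ne h with h1 | h1
  · refine ⟨⌊x'⌋, ?_, ?_⟩
    · have := Int.lt_floor_add_one x
      have h2 : (⌊x⌋ : ℝ) + 1 ≤ ⌊x'⌋ := by exact_mod_cast h1
      exact (min_le_left _ _).trans (by linarith)
    · exact (Int.floor_le x').trans (le_max_right _ _)
  · refine ⟨⌊x⌋, ?_, ?_⟩
    · have := Int.lt_floor_add_one x'
      have h2 : (⌊x'⌋ : ℝ) + 1 ≤ ⌊x⌋ := by exact_mod_cast h1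
      exact (min_le_right _ _).trans (by linarith)
    · exact (Int.floor_le x).trans (le_max_left _ _)

theorem floor_eq_of_bd {θ y y' : ℝ} (h : |y' - y| < bd θ y) : ⌊y'⌋ = ⌊y⌋ := by
  by_contra hne
  obtain ⟨k, hk1, hk2⟩ := exists_int_between hne
  have h1 : |y - k| ≤ |y' - y| := by
    rcases le_total y y' with h2 | h2
    · rw [min_eq_right h2] at hk1
      rw [max_eq_left h2] at hk2
      rw [abs_of_nonneg (by linarith : 0 ≤ y' - y), abs_sub_comm, abs_of_nonneg (by linarith)]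
      linarith
    · rw [min_eq_left h2] at hk1
      rw [max_eq_right h2] at hk2
      rw [abs_sub_comm y' y, abs_of_nonneg (by linarith : 0 ≤ y - y'), abs_of_nonneg (by linarith)]
      linarith
  have h2 := bd_le_dist (y := y) (mem_Z_int θ k)
  linarith

theorem nn_eq_of_bd {θ y y' : ℝ} (hθ : 0 < θ) (h : |y' - y| < bd θ y) : nn θ y' = nn θ y := by
  have hfl := floor_eq_of_bd h
  have hy := Int.floor_add_fract y
  have hy' := Int.floor_add_fract y'
  rw [hfl] at hy'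
  unfold nn n0
  have key : ⌊(1 / 2 - Int.fract y') / (4 * θ)⌋ = ⌊(1 / 2 - Int.fract y) / (4 * θ)⌋ := by
    by_contra hne
    obtain ⟨j, hj1, hj2⟩ := exists_int_between hne
    have hb : ∀ t : ℝ, 0 ≤ t → t ≤ 1 → |(1 / 2 - t) / (4 * θ)| ≤ 1 / (8 * θ) := by
      intro t h0 h1
      rw [abs_div, abs_of_pos (by positivity : (0 : ℝ) < 4 * θ), div_le_div_iff₀ (by positivity)
        (by positivity)]
      have : |1 / 2 - t| ≤ 1 / 2 := by rw [abs_le]; constructor <;> linarith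
      nlinarith
    have b1 := abs_le.mp (hb _ (Int.fract_nonneg y) (Int.fract_lt_one y).le)
    have b2 := abs_le.mp (hb _ (Int.fract_nonneg y') (Int.fract_lt_one y').le)
    have hj : |(j : ℝ)| ≤ 1 / (8 * θ) := by
      rw [abs_le]
      constructor
      · refine le_trans ?_ hj1
        exact le_min b2.1 b1.1
      · exact hj2.trans (max_le b2.2 b1.2)
    have hc := mem_Z_brk (θ := θ) ⌊y⌋ j hj
    have h2 := bd_le_dist (y := y) hc
    have h4 : (0 : ℝ) < 4 * θ := by positivity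
    have h3 : |y - (⌊y⌋ + (1 / 2 - 4 * θ * j))| ≤ |y' - y| := by
      have e1 : y - (⌊y⌋ + (1 / 2 - 4 * θ * j)) = Int.fract y - 1 / 2 + 4 * θ * j := by linarith
      have e2 : y' - y = Int.fract y' - Int.fract y := by linarith
      rw [e1, e2]
      rcases le_total (Int.fract y) (Int.fract y') with h5 | h5
      · have h6 : (1 / 2 - Int.fract y') / (4 * θ) ≤ (1 / 2 - Int.fract y) / (4 * θ) := by
          gcongr
        rw [min_eq_left h6, div_le_iff₀ h4] at hj1
        rw [max_eq_right h6, le_div_iff₀ h4] at hj2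
        rw [abs_of_nonneg (by linarith : 0 ≤ Int.fract y' - Int.fract y), abs_le]
        constructor <;> linarith
      · have h6 : (1 / 2 - Int.fract y) / (4 * θ) ≤ (1 / 2 - Int.fract y') / (4 * θ) := by
          gcongr
        rw [min_eq_right h6, div_le_iff₀ h4] at hj1
        rw [max_eq_left h6, le_div_iff₀ h4] at hj2
        rw [abs_sub_comm, abs_of_nonneg (by linarith : 0 ≤ Int.fract y - Int.fract y'), abs_le]
        constructor <;> linarith
    linarith
  rw [key]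

/-- `S θ` is affine near a point which is not a break point -/
theorem S_affine {θ y y' : ℝ} (hθ : 0 < θ) (h : |y' - y| < bd θ y) :
    S θ y' = S θ y + nn θ y * (y' - y) := by
  have hfl := floor_eq_of_bd h
  have hn := nn_eq_of_bd hθ h
  have hy := Int.floor_add_fract y
  have hy' := Int.floor_add_fract y'
  rw [hfl] at hy'
  have e1 : ∀ z, S θ z = θ * (nn θ z : ℝ) ^ 2 + (nn θ z : ℝ) * (Int.fract z - 1 / 2) :=
    fun z => rfl
  rw [e1, e1, hn]
  have : Int.fract y' = Int.fract y + (y' - y) := by linarith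
  rw [this]; ring

/-- equal slopes at points which differ by a multiple of `1/Δ` -/
theorem int_of_nn_eq {θ : ℝ} (hθ : 0 < θ) {Δ : ℤ} (hΔ : Δ ≠ 0) (hs : 4 * θ * |(Δ : ℝ)| ≤ 1)
    {y y' : ℝ} (k : ℤ) (hk : Δ * (y - y') = k) (h : nn θ y = nn θ y') :
    ∃ j : ℤ, y - y' = j := by
  have h4 : (0 : ℝ) < 4 * θ := by positivity
  have hfl : ⌊(1 / 2 - Int.fract y) / (4 * θ)⌋ = ⌊(1 / 2 - Int.fract y') / (4 * θ)⌋ := by
    unfold nn n0 at h
    omega
  have h1 := Int.abs_sub_lt_one_of_floor_eq_floor hfl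
  rw [← sub_div, abs_div, abs_of_pos h4, div_lt_one h4] at h1
  have e : 1 / 2 - Int.fract y - (1 / 2 - Int.fract y') = Int.fract y' - Int.fract y := by ring
  rw [e] at h1
  have hy := Int.floor_add_fract y
  have hy' := Int.floor_add_fract y'
  have hΔ' : (0 : ℝ) < |(Δ : ℝ)| := by
    rw [abs_pos]; exact_mod_cast hΔ
  set i : ℤ := k - Δ * (⌊y⌋ - ⌊y'⌋) with hi
  have e2 : (i : ℝ) = Δ * (Int.fract y - Int.fract y') := by
    rw [hi]; push_cast; rw [← hk]
    linear_combination (Δ : ℝ) * hy' - (Δ : ℝ) * hy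
  have h5 : |(i : ℝ)| < 1 := by
    rw [e2, abs_mul, abs_sub_comm]
    calc |(Δ : ℝ)| * |Int.fract y' - Int.fract y| < |(Δ : ℝ)| * (4 * θ) := by gcongr
      _ ≤ 1 := by linarith
  have h6 : i = 0 := by
    have : |i| < 1 := by exact_mod_cast h5
    exact Int.abs_lt_one_iff.mp this
  rw [h6] at e2
  have h7 : Int.fract y - Int.fract y' = 0 := by
    have hΔr : (Δ : ℝ) ≠ 0 := by exact_mod_cast hΔ
    rcases mul_eq_zero.mp (by rw [← e2]; simp : (Δ : ℝ) * (Int.fract y - Int.fract y') = 0) with h | h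
    · exact absurd h hΔr
    · exact h
  exact ⟨⌊y⌋ - ⌊y'⌋, by push_cast; linarith⟩

end Pool.Agent.NUH
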