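import Pool.Agent.NUH.Brk

/-!
# Smooth approximations of `S θ`
-/

set_option autoImplicit false

namespace Pool.Agent.NUH

open MeasureTheory Metric
open scoped ContDiff Convolution

theorem S_cont {θ : ℝ} (hθ : 0 < θ) : Continuous (S θ) := by
  have : LipschitzWith (A θ).toNNReal (S θ) := by
    apply LipschitzWith.of_dist_le_mul
    intro x y
    rw [Real.dist_eq, Real.dist_eq, Real.coe_toNNReal _ (by linarith [A_pos hθ])]
    exact S_lip hθ x y
  exact this.continuous

theorem exists_smooth {θ : ℝ} (hθ : 0 < θ) {ε : ℝ} (hε : 0 < ε) :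
    ∃ T : ℝ → ℝ, ContDiff ℝ ∞ T ∧ (∀ (y : ℝ) (k : ℤ), T (y + k) = T y) ∧
      (∀ y, |T y - S θ y| ≤ A θ * ε) ∧ (∀ y, |deriv T y| ≤ A θ) ∧
      (∀ y, ε < bd θ y → deriv T y = nn θ y) := by
  have hA := A_pos hθ
  let φ : ContDiffBump (0 : ℝ) := ⟨ε / 4, ε / 2, by positivity, by linarith⟩
  set ρ : ℝ → ℝ := φ.normed volume with hρ
  have hρ0 : ∀ t, 0 ≤ ρ t := fun t => φ.nonneg_normed t
  have hρ1 : ∫ t, ρ t = 1 := φ.integral_normed
  have hρs : HasCompactSupport ρ := φ.hasCompactSupport_normed
  have hρc : Continuous ρ := φ.continuous_normed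
  have hρi : Integrable ρ := φ.integrable_normed
  have hρz : ∀ t, ε / 2 ≤ |t| → ρ t = 0 := by
    intro t ht
    by_contra hne
    have h1 : t ∈ Function.support ρ := hne
    rw [hρ, φ.support_normed_eq, mem_ball, dist_zero_right, Real.norm_eq_abs] at h1
    have : φ.rOut = ε / 2 := rfl
    linarith
  let T : ℝ → ℝ := fun y => ∫ t, ρ t * S θ (y - t)
  have hint : ∀ y, Integrable fun t => ρ t * S θ (y - t) := by
    intro y
    apply Continuous.integrable_of_hasCompactSupport
    · have := S_cont hθ
      fun_prop
    · exact hρs.mul_right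
  have hdiff : ∀ y y', T y - T y' = ∫ t, ρ t * (S θ (y - t) - S θ (y' - t)) := by
    intro y y'
    show (∫ t, ρ t * S θ (y - t)) - (∫ t, ρ t * S θ (y' - t)) = _
    rw [← integral_sub (hint y) (hint y')]
    congr 1
    funext t
    ring
  have hlip : ∀ y y', |T y - T y'| ≤ A θ * |y - y'| := by
    intro y y'
    rw [hdiff]
    calc |∫ t, ρ t * (S θ (y - t) - S θ (y' - t))|
        ≤ ∫ t, |ρ t * (S θ (y - t) - S θ (y' - t))| := abs_integral_le_integral_abs
      _ ≤ ∫ t, ρ t * (A θ * |y - y'|) := by
          apply integral_mono_of_nonneg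
          · exact Filter.Eventually.of_forall fun t => abs_nonneg _
          · exact hρi.mul_const _
          · refine Filter.Eventually.of_forall fun t => ?_
            simp only
            rw [abs_mul, abs_of_nonneg (hρ0 t)]
            apply mul_le_mul_of_nonneg_left _ (hρ0 t)
            have := S_lip hθ (y - t) (y' - t)
            rwa [sub_sub_sub_cancel_right] at this
      _ = A θ * |y - y'| := by rw [integral_mul_const, hρ1, one_mul]
  refine ⟨T, ?_, ?_, ?_, ?_, ?_⟩
  · have h1 : T = (ρ ⋆[ContinuousLinearMap.lsmul ℝ ℝ, volume] S θ) := by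
      funext y
      simp only [convolution_def, ContinuousLinearMap.lsmul_apply, smul_eq_mul]
      rfl
    rw [h1]
    exact hρs.contDiff_convolution_left _ φ.contDiff_normed (S_cont hθ).locallyIntegrable
  · intro y k
    show (∫ t, ρ t * S θ (y + k - t)) = ∫ t, ρ t * S θ (y - t)
    congr 1
    funext t
    rw [show y + (k : ℝ) - t = (y - t) + k by ring, S_add_int]
  · intro y
    have e : T y - S θ y = ∫ t, ρ t * (S θ (y - t) - S θ y) := by
      have h1 : S θ y = ∫ t, ρ t * S θ y := by rw [integral_mul_const, hρ1, one_mul]
      have h2 : T y - S θ y = (∫ t, ρ t * S θ (y - t)) - ∫ t, ρ t * S θ y := by rw [← h1]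
      rw [h2, ← integral_sub (hint y) (hρi.mul_const _)]
      congr 1
      funext t
      ring
    rw [e]
    calc |∫ t, ρ t * (S θ (y - t) - S θ y)|
        ≤ ∫ t, |ρ t * (S θ (y - t) - S θ y)| := abs_integral_le_integral_abs
      _ ≤ ∫ t, ρ t * (A θ * ε) := by
          apply integral_mono_of_nonneg
          · exact Filter.Eventually.of_forall fun t => abs_nonneg _
          · exact hρi.mul_const _
          · refine Filter.Eventually.of_forall fun t => ?_
            simp only
            rw [abs_mul, abs_of_nonneg (hρ0 t)]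
            by_cases ht : ε / 2 ≤ |t|
            · rw [hρz t ht]; simp
            · push Not at ht
              apply mul_le_mul_of_nonneg_left _ (hρ0 t)
              refine (S_lip hθ _ _).trans ?_
              have e2 : y - t - y = -t := by ring
              rw [e2, abs_neg]
              nlinarith
      _ = A θ * ε := by rw [integral_mul_const, hρ1, one_mul]
  · intro y
    have hL : LipschitzWith (A θ).toNNReal T := by
      apply LipschitzWith.of_dist_le_mul
      intro x y
      rw [Real.dist_eq, Real.dist_eq, Real.coe_toNNReal _ (by linarith)]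
      exact hlip x y
    have := norm_deriv_le_of_lipschitz (x₀ := y) hL
    rwa [Real.norm_eq_abs, Real.coe_toNNReal _ (by linarith)] at this
  · intro y hy
    have hloc : ∀ y', |y' - y| < ε / 2 → T y' = T y + nn θ y * (y' - y) := by
      intro y' hy'
      have h1 := hdiff y' y
      have h2 : ∫ t, ρ t * (S θ (y' - t) - S θ (y - t)) = ∫ t, ρ t * (nn θ y * (y' - y)) := by
        congr 1
        funext t
        by_cases ht : ε / 2 ≤ |t|
        · rw [hρz t ht]; simp
        · push Not at ht
          congr 1
          have b1 : |y' - t - y| < bd θ y := by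
            have : |y' - t - y| ≤ |y' - y| + |t| := by
              have e : y' - t - y = (y' - y) - t := by ring
              rw [e]; exact abs_sub _ _
            linarith
          have b2 : |y - t - y| < bd θ y := by
            have e : y - t - y = -t := by ring
            rw [e, abs_neg]; linarith
          rw [S_affine hθ b1, S_affine hθ b2]
          ring
      rw [h2, integral_mul_const, hρ1, one_mul] at h1
      linarith
    have hd : HasDerivAt (fun y' => T y + nn θ y * (y' - y)) (nn θ y) y := by
      have := (((hasDerivAt_id y).sub_const y).const_mul (nn θ y : ℝ)).const_add (T y)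
      simpa using this
    have hev : (fun y' => T y + nn θ y * (y' - y)) =ᶠ[nhds y] T := by
      rw [Filter.EventuallyEq, Metric.eventually_nhds_iff]
      exact ⟨ε / 2, by positivity, fun y' hy' => (hloc y' (by rwa [Real.dist_eq] at hy')).symm⟩
    exact (hd.congr_of_eventuallyEq hev.symm).deriv

end Pool.Agent.NUH
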