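import Pool.Agent.NUH.Tree
import Pool.Agent.NUH.Smooth

/-!
# Compactness: the count of the nodes near the break points
-/

set_option autoImplicit false

namespace Pool.Agent.NUH

open Filter Topology

/-- the action of the matrix on integer vectors -/
def mv (M : Mt) (j : ℤ × ℤ) : ℤ × ℤ := (M.a * j.1 + M.b * j.2, M.c * j.1 + M.d * j.2)

/-- complete system of residues modulo the image of the matrix -/
structure Res (M : Mt) (R : Finset (ℤ × ℤ)) : Prop where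
  ex : ∀ k : ℤ × ℤ, ∃ m ∈ R, ∃ j : ℤ × ℤ, k = m + mv M j
  sum : ∀ h : ℤ × ℤ → ℝ, (∀ m j, h (m + mv M j) = h m) → ∀ k, ∑ m ∈ R, h (m + k) = ∑ m ∈ R, h m

theorem Res.card_pos {M : Mt} {R : Finset (ℤ × ℤ)} (hR : Res M R) : 0 < R.card := by
  obtain ⟨m, hm, _⟩ := hR.ex 0
  exact Finset.card_pos.mpr ⟨m, hm⟩

theorem zc_add (m k : ℤ × ℤ) : zc (m + k) = zc m + zc k := by
  unfold zc; ext <;> simp

theorem einv_add_mv {M : Mt} (hΔ : M.det ≠ 0) (x : ℝ × ℝ) (j : ℤ × ℤ) :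
    einv M (x + zc (mv M j)) = einv M x + zc j := by
  have hΔr : (M.det : ℝ) ≠ 0 := by exact_mod_cast hΔ
  have e : (M.det : ℝ) = M.a * M.d - M.b * M.c := by unfold Mt.det; push_cast; ring
  unfold einv zc mv
  ext
  · simp only [Prod.fst_add, Prod.snd_add]
    push_cast
    field_simp
    rw [e]; ring
  · simp only [Prod.fst_add, Prod.snd_add]
    push_cast
    field_simp
    rw [e]; ring

/-- integer periodic -/
def Per (f : ℝ → ℝ) : Prop := ∀ (y : ℝ) (k : ℤ), f (y + k) = f y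

/-- `ℤ²` periodic -/
def Per2 (φ : ℝ × ℝ → ℝ) : Prop := ∀ (x : ℝ × ℝ) (k : ℤ × ℤ), φ (x + zc k) = φ x

theorem bW_add_mv {M : Mt} (hΔ : M.det ≠ 0) {f : ℝ → ℝ} (hf : Per f) (x : ℝ × ℝ) (j : ℤ × ℤ) :
    bW M f (x + zc (mv M j)) = bW M f x + j.1 := by
  unfold bW
  rw [einv_add_mv hΔ]
  simp only [zc, Prod.fst_add, Prod.snd_add]
  rw [hf]; ring

theorem br_add_mv {M : Mt} (hΔ : M.det ≠ 0) {f : ℝ → ℝ} (hf : Per f) (x : ℝ × ℝ) (j : ℤ × ℤ) :
    br M f (x + zc (mv M j)) = br M f x + zc j := by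
  unfold br
  rw [bW_add_mv hΔ hf, einv_add_mv hΔ]
  ext
  · simp [zc]
  · simp only [zc, Prod.snd_add]
    rw [hf]; ring

theorem avg_per {M : Mt} (hΔ : M.det ≠ 0) {R : Finset (ℤ × ℤ)} (hR : Res M R) {f : ℝ → ℝ}
    (hf : Per f) {φ : ℝ × ℝ → ℝ} (hφ : Per2 φ) : Per2 (avg R M f φ) := by
  intro x k
  unfold avg
  congr 1
  have h := hR.sum (fun m => φ (br M f (x + zc m))) ?_ k
  · rw [← h]
    apply Finset.sum_congr rfl
    intro m _
    rw [zc_add]
    congr 2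
    abel
  · intro m j
    rw [zc_add, ← add_assoc, br_add_mv hΔ hf, hφ]

theorem avg_iter_per {M : Mt} (hΔ : M.det ≠ 0) {R : Finset (ℤ × ℤ)} (hR : Res M R) {f : ℝ → ℝ}
    (hf : Per f) {φ : ℝ × ℝ → ℝ} (hφ : Per2 φ) (g : ℕ) : Per2 ((avg R M f)^[g] φ) := by
  induction g with
  | zero => exact hφ
  | succ g ih => rw [Function.iterate_succ_apply']; exact avg_per hΔ hR hf ih

/-- cut off function -/
noncomputable def psi (δ t : ℝ) : ℝ := max 0 (1 - t / δ)

/-- smooth indicator of the nodes near the break points -/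
noncomputable def bs (R : Finset (ℤ × ℤ)) (M : Mt) (θ δ : ℝ) (f : ℝ → ℝ) (x : ℝ × ℝ) : ℝ :=
  ∑ m ∈ R, (psi δ (bd θ (einv M (x + zc m)).2) + psi δ (bd θ (bW M f (x + zc m))))

open Classical in
/-- indicator of the nodes on the break points -/
noncomputable def bz (R : Finset (ℤ × ℤ)) (M : Mt) (θ : ℝ) (f : ℝ → ℝ) (x : ℝ × ℝ) : ℝ :=
  ∑ m ∈ R, ((if bd θ (einv M (x + zc m)).2 = 0 then 1 else 0) +
    (if bd θ (bW M f (x + zc m)) = 0 then 1 else 0))

theorem psi_nonneg (δ t : ℝ) : 0 ≤ psi δ t := le_max_left _ _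

theorem psi_anti {δ δ' t : ℝ} (hδ : 0 < δ) (h : δ ≤ δ') (ht : 0 ≤ t) : psi δ t ≤ psi δ' t := by
  unfold psi
  apply max_le_max le_rfl
  have : t / δ' ≤ t / δ := by gcongr
  linarith

theorem psi_lip {δ : ℝ} (hδ : 0 < δ) (t t' : ℝ) : |psi δ t - psi δ t'| ≤ |t - t'| / δ := by
  unfold psi
  refine (abs_max_sub_max_le_max _ _ _ _).trans ?_
  rw [sub_self, abs_zero]
  apply max_le (by positivity)
  have e : 1 - t / δ - (1 - t' / δ) = -((t - t') / δ) := by ring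
  rw [e, abs_neg, abs_div, abs_of_pos hδ]

theorem psi_ge {δ ε t : ℝ} (hδ : 0 < δ) (hε : ε ≤ δ / 2) (ht : t ≤ ε) : 1 / 2 ≤ psi δ t := by
  unfold psi
  apply le_max_of_le_right
  have : t / δ ≤ 1 / 2 := by
    rw [div_le_iff₀ hδ]; linarith
  linarith

theorem bs_nonneg (R : Finset (ℤ × ℤ)) (M : Mt) (θ δ : ℝ) (f : ℝ → ℝ) (x : ℝ × ℝ) :
    0 ≤ bs R M θ δ f x :=
  Finset.sum_nonneg fun _ _ => add_nonneg (psi_nonneg _ _) (psi_nonneg _ _)

theorem bs_anti {R : Finset (ℤ × ℤ)} {M : Mt} {θ δ δ' : ℝ} {f : ℝ → ℝ} (hδ : 0 < δ)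
    (h : δ ≤ δ') (x : ℝ × ℝ) : bs R M θ δ f x ≤ bs R M θ δ' f x :=
  Finset.sum_le_sum fun _ _ =>
    add_le_add (psi_anti hδ h (bd_nonneg _ _)) (psi_anti hδ h (bd_nonneg _ _))

theorem bs_per {M : Mt} (hΔ : M.det ≠ 0) {R : Finset (ℤ × ℤ)} (hR : Res M R) {f : ℝ → ℝ}
    (hf : Per f) (θ δ : ℝ) : Per2 (bs R M θ δ f) := by
  intro x k
  unfold bs
  have h := hR.sum (fun m => psi δ (bd θ (einv M (x + zc m)).2) +
    psi δ (bd θ (bW M f (x + zc m)))) ?_ k
  · rw [← h]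
    apply Finset.sum_congr rfl
    intro m _
    rw [zc_add]
    have : x + zc k + zc m = x + (zc m + zc k) := by abel
    rw [this]
  · intro m j
    rw [zc_add, ← add_assoc, einv_add_mv hΔ, bW_add_mv hΔ hf, bd_add_int]
    have : (einv M (x + zc m) + zc j).2 = (einv M (x + zc m)).2 + j.2 := rfl
    rw [this, bd_add_int]

theorem bs_eventually (R : Finset (ℤ × ℤ)) (M : Mt) (θ : ℝ) (f : ℝ → ℝ) (x : ℝ × ℝ) :
    ∀ᶠ δ in 𝓝[>] (0 : ℝ), bs R M θ δ f x ≤ bz R M θ f x := by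
  have key : ∀ t : ℝ, 0 ≤ t → ∀ᶠ δ in 𝓝[>] (0 : ℝ), psi δ t ≤ if t = 0 then 1 else 0 := by
    intro t ht
    by_cases h0 : t = 0
    · refine Eventually.of_forall fun δ => ?_
      rw [if_pos h0, h0]; unfold psi; simp
    · have hpos : 0 < t := lt_of_le_of_ne ht (Ne.symm h0)
      have : ∀ᶠ δ in 𝓝[>] (0 : ℝ), δ < t := by
        apply eventually_nhdsWithin_of_eventually_nhds
        exact gt_mem_nhds hpos
      filter_upwards [this, self_mem_nhdsWithin] with δ hδ hδ0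
      have hδ0' : (0 : ℝ) < δ := hδ0
      rw [if_neg h0]
      unfold psi
      apply max_le le_rfl
      have : 1 ≤ t / δ := by rw [le_div_iff₀ hδ0']; linarith
      linarith
  have h1 : ∀ᶠ δ in 𝓝[>] (0 : ℝ), ∀ m ∈ R,
      psi δ (bd θ (einv M (x + zc m)).2) + psi δ (bd θ (bW M f (x + zc m))) ≤
      ((if bd θ (einv M (x + zc m)).2 = 0 then 1 else 0) +
        (if bd θ (bW M f (x + zc m)) = 0 then 1 else 0)) := by
    rw [Filter.eventually_all_finset]
    intro m _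
    filter_upwards [key _ (bd_nonneg θ (einv M (x + zc m)).2),
      key _ (bd_nonneg θ (bW M f (x + zc m)))] with δ h1 h2
    exact add_le_add h1 h2
  filter_upwards [h1] with δ hδ
  unfold bs bz
  refine Finset.sum_le_sum fun m hm => ?_
  convert hδ m hm

theorem avg_bs_eventually (R : Finset (ℤ × ℤ)) (M : Mt) (θ : ℝ) (f : ℝ → ℝ) (g : ℕ)
    (x : ℝ × ℝ) : ∀ᶠ δ in 𝓝[>] (0 : ℝ),
      (avg R M f)^[g] (bs R M θ δ f) x ≤ (avg R M f)^[g] (bz R M θ f) x := by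
  induction g generalizing x with
  | zero => exact bs_eventually R M θ f x
  | succ g ih =>
    have h1 : ∀ᶠ δ in 𝓝[>] (0 : ℝ), ∀ m ∈ R,
        (avg R M f)^[g] (bs R M θ δ f) (br M f (x + zc m)) ≤
          (avg R M f)^[g] (bz R M θ f) (br M f (x + zc m)) := by
      rw [Filter.eventually_all_finset]
      intro m _
      exact ih _
    filter_upwards [h1] with δ hδ
    rw [Function.iterate_succ_apply', Function.iterate_succ_apply']
    exact div_le_div_of_nonneg_right (Finset.sum_le_sum hδ) (Nat.cast_nonneg _)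

theorem einv_cont (M : Mt) : Continuous (einv M) := by
  unfold einv; fun_prop

theorem bW_cont (M : Mt) {f : ℝ → ℝ} (hf : Continuous f) : Continuous (bW M f) := by
  have := einv_cont M
  unfold bW; fun_prop

theorem br_cont (M : Mt) {f : ℝ → ℝ} (hf : Continuous f) : Continuous (br M f) := by
  have := einv_cont M
  have := bW_cont M hf
  unfold br; fun_prop

theorem avg_cont (R : Finset (ℤ × ℤ)) (M : Mt) {f : ℝ → ℝ} (hf : Continuous f)
    {φ : ℝ × ℝ → ℝ} (hφ : Continuous φ) : Continuous (avg R M f φ) := by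
  have := br_cont M hf
  unfold avg; fun_prop

theorem avg_iter_cont (R : Finset (ℤ × ℤ)) (M : Mt) {f : ℝ → ℝ} (hf : Continuous f)
    {φ : ℝ × ℝ → ℝ} (hφ : Continuous φ) (g : ℕ) : Continuous ((avg R M f)^[g] φ) := by
  induction g with
  | zero => exact hφ
  | succ g ih => rw [Function.iterate_succ_apply']; exact avg_cont R M hf ih

theorem bd_cont (θ : ℝ) : Continuous (bd θ) := Metric.continuous_infDist_pt _

theorem psi_cont (δ : ℝ) : Continuous (psi δ) := by unfold psi; fun_prop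

theorem bs_cont (R : Finset (ℤ × ℤ)) (M : Mt) (θ δ : ℝ) {f : ℝ → ℝ} (hf : Continuous f) :
    Continuous (bs R M θ δ f) := by
  have := einv_cont M
  have := bW_cont M hf
  have := bd_cont θ
  have := psi_cont δ
  unfold bs; fun_prop

/-- compactness and periodicity -/
theorem exists_delta {M : Mt} (hΔ : M.det ≠ 0) {R : Finset (ℤ × ℤ)} (hR : Res M R) {f : ℝ → ℝ}
    (hf : Per f) (hfc : Continuous f) (θ : ℝ) (g : ℕ) {c : ℝ}
    (hc : ∀ x, (avg R M f)^[g] (bz R M θ f) x < c) :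
    ∃ δ > 0, ∀ x, (avg R M f)^[g] (bs R M θ δ f) x < c := by
  have hK : IsCompact (Set.Icc (0 : ℝ) 1 ×ˢ Set.Icc (0 : ℝ) 1) := isCompact_Icc.prod isCompact_Icc
  have key : ∃ δ > 0, ∀ x ∈ (Set.Icc (0 : ℝ) 1 ×ˢ Set.Icc (0 : ℝ) 1),
      (avg R M f)^[g] (bs R M θ δ f) x < c := by
    apply hK.induction_on (p := fun s => ∃ δ > 0, ∀ x ∈ s, (avg R M f)^[g] (bs R M θ δ f) x < c)
    · exact ⟨1, one_pos, by simp⟩
    · rintro s t hst ⟨δ, hδ, h⟩
      exact ⟨δ, hδ, fun x hx => h x (hst hx)⟩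
    · rintro s t ⟨δ, hδ, h⟩ ⟨δ', hδ', h'⟩
      refine ⟨min δ δ', lt_min hδ hδ', ?_⟩
      rintro x (hx | hx)
      · exact (avg_iter_mono (fun y => bs_anti (lt_min hδ hδ') (min_le_left _ _) y) g x).trans_lt
          (h x hx)
      · exact (avg_iter_mono (fun y => bs_anti (lt_min hδ hδ') (min_le_right _ _) y) g x).trans_lt
          (h' x hx)
    · intro x _
      obtain ⟨δ, hδ1, hδ2⟩ := ((avg_bs_eventually R M θ f g x).and
        (self_mem_nhdsWithin : Set.Ioi (0 : ℝ) ∈ 𝓝[>] (0 : ℝ))).exists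
      have hδ0 : (0 : ℝ) < δ := hδ2
      have hcont := avg_iter_cont R M hfc (bs_cont R M θ δ hfc) g
      have hlt : (avg R M f)^[g] (bs R M θ δ f) x < c := hδ1.trans_lt (hc x)
      refine ⟨{y | (avg R M f)^[g] (bs R M θ δ f) y < c}, ?_, δ, hδ0, fun y hy => hy⟩
      apply mem_nhdsWithin_of_mem_nhds
      exact (isOpen_lt hcont continuous_const).mem_nhds hlt
  obtain ⟨δ, hδ, h⟩ := key
  refine ⟨δ, hδ, fun x => ?_⟩
  have hper := avg_iter_per hΔ hR hf (bs_per hΔ hR hf θ δ) g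
  have e := hper x (-⌊x.1⌋, -⌊x.2⌋)
  rw [← e]
  apply h
  have e2 : x + zc (-⌊x.1⌋, -⌊x.2⌋) = (Int.fract x.1, Int.fract x.2) := by
    unfold zc
    ext
    · simp only [Prod.fst_add]; push_cast; rw [← Int.self_sub_floor]; ring
    · simp only [Prod.snd_add]; push_cast; rw [← Int.self_sub_floor]; ring
  rw [e2]
  exact ⟨⟨Int.fract_nonneg _, (Int.fract_lt_one _).le⟩, ⟨Int.fract_nonneg _, (Int.fract_lt_one _).le⟩⟩

end Pool.Agent.NUH
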