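import Pool.Agent.NUH.Transfer

/-!
# Decay of the moment and the Lyapunov exponents
-/

set_option autoImplicit false

namespace Pool.Agent.NUH

open MeasureTheory Filter Topology
open scoped ENNReal

/-- sums of extended nonnegative functions over a system of residues -/
def ResE (M : Mt) (R : Finset (ℤ × ℤ)) : Prop :=
  ∀ h : ℤ × ℤ → ℝ≥0∞, (∀ m j, h (m + mv M j) = h m) → ∀ k, ∑ m ∈ R, h (m + k) = ∑ m ∈ R, h m

/-- the transfer operator -/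
noncomputable def LE (R : Finset (ℤ × ℤ)) (H : ℝ × ℝ → ℝ × ℝ)
    (H' : ℝ × ℝ → (ℝ × ℝ →L[ℝ] ℝ × ℝ)) (Ψ : ℝ × ℝ → ℝ × ℝ → ℝ≥0∞) (x v : ℝ × ℝ) : ℝ≥0∞ :=
  ∑ m ∈ R, ENNReal.ofReal |(H' (x + zc m)).det| * Ψ (H (x + zc m)) (H' (x + zc m) v)

/-- the vectors `(D_z Φ^n)⁻¹ v₀` -/
noncomputable def Vn (Φ : ℝ × ℝ → ℝ × ℝ) (H' : ℝ × ℝ → (ℝ × ℝ →L[ℝ] ℝ × ℝ)) (v₀ : ℝ × ℝ) :
    ℕ → ℝ × ℝ → ℝ × ℝ
  | 0, _ => v₀
  | n + 1, z => H' (Φ z) (Vn Φ H' v₀ n (Φ z))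

section

variable {M : Mt} {Φ H : ℝ × ℝ → ℝ × ℝ} {H' : ℝ × ℝ → (ℝ × ℝ →L[ℝ] ℝ × ℝ)}

theorem Vn_cont (L : Lift M Φ H H') (v₀ : ℝ × ℝ) (n : ℕ) : Continuous (Vn Φ H' v₀ n) := by
  induction n with
  | zero => exact continuous_const
  | succ n ih =>
    show Continuous fun z => H' (Φ z) (Vn Φ H' v₀ n (Φ z))
    exact (L.contH'.comp L.contΦ).clm_apply (ih.comp L.contΦ)

theorem Vn_per (L : Lift M Φ H H') (v₀ : ℝ × ℝ) (n : ℕ) (z : ℝ × ℝ) (k : ℤ × ℤ) :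
    Vn Φ H' v₀ n (z + zc k) = Vn Φ H' v₀ n z := by
  induction n generalizing z k with
  | zero => rfl
  | succ n ih =>
    show H' (Φ (z + zc k)) (Vn Φ H' v₀ n (Φ (z + zc k))) = H' (Φ z) (Vn Φ H' v₀ n (Φ z))
    rw [L.per, L.perH', ih]

theorem LE_meas (L : Lift M Φ H H') (R : Finset (ℤ × ℤ)) {Ψ : ℝ × ℝ → ℝ × ℝ → ℝ≥0∞}
    (hΨ : Measurable (Function.uncurry Ψ)) : Measurable (Function.uncurry (LE R H H' Ψ)) := by
  have hcH := L.contH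
  have hcH' := L.contH'
  have hdet := L.det_meas
  show Measurable fun p : (ℝ × ℝ) × (ℝ × ℝ) => ∑ m ∈ R,
    ENNReal.ofReal |(H' (p.1 + zc m)).det| * Ψ (H (p.1 + zc m)) (H' (p.1 + zc m) p.2)
  apply Finset.measurable_sum
  intro m _
  apply Measurable.mul
  · have : Continuous fun p : (ℝ × ℝ) × (ℝ × ℝ) => |(H' (p.1 + zc m)).det| := by
      have h1 : Continuous fun p : (ℝ × ℝ) × (ℝ × ℝ) => p.1 + zc m := by fun_prop
      exact (hdet.comp h1).abs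
    exact ENNReal.measurable_ofReal.comp this.measurable
  · have h1 : Continuous fun p : (ℝ × ℝ) × (ℝ × ℝ) => p.1 + zc m := by fun_prop
    have h2 : Continuous fun p : (ℝ × ℝ) × (ℝ × ℝ) =>
        (H (p.1 + zc m), H' (p.1 + zc m) p.2) :=
      (hcH.comp h1).prodMk ((hcH'.comp h1).clm_apply continuous_snd)
    exact hΨ.comp h2.measurable

theorem LE_per (L : Lift M Φ H H') {R : Finset (ℤ × ℤ)} (hE : ResE M R)
    {Ψ : ℝ × ℝ → ℝ × ℝ → ℝ≥0∞} (hΨ : ∀ x k v, Ψ (x + zc k) v = Ψ x v) :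
    ∀ x k v, LE R H H' Ψ (x + zc k) v = LE R H H' Ψ x v := by
  intro x k v
  unfold LE
  have h := hE (fun m => ENNReal.ofReal |(H' (x + zc m)).det| *
    Ψ (H (x + zc m)) (H' (x + zc m) v)) ?_ k
  · rw [← h]
    apply Finset.sum_congr rfl
    intro m _
    have : x + zc k + zc m = x + zc (m + k) := by rw [zc_add]; abel
    rw [this]
  · intro m j
    rw [zc_add, ← add_assoc, L.perH', L.perH, hΨ]

theorem moment_le (L : Lift M Φ H H') {R : Finset (ℤ × ℤ)} (hR : Res M R) (hE : ResE M R)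
    (v₀ : ℝ × ℝ) (n : ℕ) {Ψ : ℝ × ℝ → ℝ × ℝ → ℝ≥0∞} (hm : Measurable (Function.uncurry Ψ))
    (hp : ∀ x k v, Ψ (x + zc k) v = Ψ x v) :
    ∫⁻ z in Q, Ψ z (Vn Φ H' v₀ n z) ≤ ∫⁻ x in Q, (LE R H H')^[n] Ψ x v₀ := by
  induction n generalizing Ψ with
  | zero => exact le_rfl
  | succ n ih =>
    rw [Function.iterate_succ_apply]
    refine le_trans ?_ (ih (LE_meas L R hm) (LE_per L hE hp))
    have h1 := transfer L hR (φ := fun z => Ψ z (Vn Φ H' v₀ (n + 1) z)) ?_ ?_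
    · refine h1.trans (le_of_eq ?_)
      congr 1
      funext x
      unfold LE
      apply Finset.sum_congr rfl
      intro m _
      congr 2
      show H' (Φ (H (x + zc m))) (Vn Φ H' v₀ n (Φ (H (x + zc m)))) = _
      rw [L.right, Vn_per L]
    · exact hm.comp (measurable_id.prodMk (Vn_cont L v₀ (n + 1)).measurable)
    · intro z k
      rw [hp, Vn_per L]

/-- the negative moment -/
noncomputable def psE (s : ℝ) (_ v : ℝ × ℝ) : ℝ≥0∞ := ENNReal.ofReal (‖v‖ ^ (-s))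

theorem psE_meas (s : ℝ) : Measurable (Function.uncurry (psE s)) := by
  show Measurable fun p : (ℝ × ℝ) × (ℝ × ℝ) => ENNReal.ofReal (‖p.2‖ ^ (-s))
  fun_prop

theorem LE_mono {R : Finset (ℤ × ℤ)} (hinj : ∀ x v, v ≠ 0 → H' x v ≠ 0)
    {Ψ Ψ' : ℝ × ℝ → ℝ × ℝ → ℝ≥0∞} (h : ∀ x v, v ≠ 0 → Ψ x v ≤ Ψ' x v) (g : ℕ) :
    ∀ x v, v ≠ 0 → (LE R H H')^[g] Ψ x v ≤ (LE R H H')^[g] Ψ' x v := by
  induction g with
  | zero => exact h
  | succ g ih =>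
    intro x v hv
    rw [Function.iterate_succ_apply', Function.iterate_succ_apply']
    unfold LE
    exact Finset.sum_le_sum fun m _ => mul_le_mul_right (ih _ _ (hinj _ _ hv)) _

theorem LE_const {R : Finset (ℤ × ℤ)} (c : ℝ≥0∞) (Ψ : ℝ × ℝ → ℝ × ℝ → ℝ≥0∞) (g : ℕ) :
    (LE R H H')^[g] (fun x v => c * Ψ x v) = fun x v => c * (LE R H H')^[g] Ψ x v := by
  induction g with
  | zero => rfl
  | succ g ih =>
    rw [Function.iterate_succ_apply', Function.iterate_succ_apply', ih]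
    funext x v
    unfold LE
    rw [Finset.mul_sum]
    apply Finset.sum_congr rfl
    intro m _
    ring

theorem LE_pow {R : Finset (ℤ × ℤ)} (hinj : ∀ x v, v ≠ 0 → H' x v ≠ 0) {g : ℕ} {c : ℝ≥0∞}
    {Ψ : ℝ × ℝ → ℝ × ℝ → ℝ≥0∞} (h : ∀ x v, v ≠ 0 → (LE R H H')^[g] Ψ x v ≤ c * Ψ x v) (j : ℕ) :
    ∀ x v, v ≠ 0 → (LE R H H')^[g * j] Ψ x v ≤ c ^ j * Ψ x v := by
  induction j with
  | zero => intro x v _; simp
  | succ j ih =>
    intro x v hv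
    rw [Nat.mul_succ, Function.iterate_add_apply]
    refine (LE_mono hinj h (g * j) x v hv).trans ?_
    rw [LE_const]
    calc c * (LE R H H')^[g * j] Ψ x v ≤ c * (c ^ j * Ψ x v) := mul_le_mul_right (ih x v hv) _
      _ = c ^ (j + 1) * Ψ x v := by ring

/-- the data of the exponential decay -/
structure Ctr (R : Finset (ℤ × ℤ)) (H : ℝ × ℝ → ℝ × ℝ) (H' : ℝ × ℝ → (ℝ × ℝ →L[ℝ] ℝ × ℝ))
    (s : ℝ) (n : ℕ) (ρ C : ℝ) : Prop where
  s0 : 0 < s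
  n0 : 0 < n
  ρ0 : 0 < ρ
  ρ1 : ρ < 1
  C1 : 1 ≤ C
  one : ∀ x v, v ≠ 0 → LE R H H' (psE s) x v ≤ ENNReal.ofReal C * psE s x v
  pow : ∀ x v, v ≠ 0 → (LE R H H')^[n] (psE s) x v ≤ ENNReal.ofReal ρ * psE s x v

theorem decay (L : Lift M Φ H H') {R : Finset (ℤ × ℤ)} (hR : Res M R) (hE : ResE M R)
    (hinj : ∀ x v, v ≠ 0 → H' x v ≠ 0) {s : ℝ} {n : ℕ} {ρ C : ℝ} (hC : Ctr R H H' s n ρ C)
    {v₀ : ℝ × ℝ} (hv₀ : v₀ ≠ 0) :
    ∃ K : ℝ, 0 < K ∧ ∀ k : ℕ,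
      ∫⁻ z in Q, psE s z (Vn Φ H' v₀ k z) ≤ ENNReal.ofReal (K * (ρ ^ ((n : ℝ)⁻¹)) ^ k) := by
  have hn := hC.n0
  have hρ0 := hC.ρ0
  have hρ1 := hC.ρ1
  have hC1 := hC.C1
  set τ : ℝ := ρ ^ ((n : ℝ)⁻¹) with hτ
  have hτn : τ ^ n = ρ := Real.rpow_inv_natCast_pow hρ0.le hn.ne'
  have hτ0 : 0 < τ := Real.rpow_pos_of_pos hρ0 _
  have hτ1 : τ < 1 := Real.rpow_lt_one hρ0.le hρ1 (by positivity)
  have hp : 0 < ‖v₀‖ ^ (-s) := Real.rpow_pos_of_pos (norm_pos_iff.mpr hv₀) _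
  refine ⟨C ^ n * ρ⁻¹ * ‖v₀‖ ^ (-s), by positivity, ?_⟩
  intro k
  refine (moment_le L hR hE v₀ k (psE_meas s) (fun _ _ _ => rfl)).trans ?_
  have hone : ∀ i : ℕ, ∀ x v, v ≠ 0 →
      (LE R H H')^[i] (psE s) x v ≤ ENNReal.ofReal C ^ i * psE s x v := by
    intro i x v hv
    have := LE_pow (R := R) (H := H) hinj (g := 1) (c := ENNReal.ofReal C) (Ψ := psE s)
      (fun x v hv => by simpa using hC.one x v hv) i x v hv
    simpa using this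
  have hb : ∀ x, (LE R H H')^[k] (psE s) x v₀ ≤
      ENNReal.ofReal (C ^ n * ρ⁻¹ * ‖v₀‖ ^ (-s) * τ ^ k) := by
    intro x
    have e : k = n * (k / n) + k % n := (Nat.div_add_mod k n).symm
    have h1 : (LE R H H')^[k] (psE s) x v₀ ≤
        ENNReal.ofReal C ^ (k % n) * (ENNReal.ofReal ρ ^ (k / n) * psE s x v₀) := by
      conv_lhs => rw [e]
      rw [Function.iterate_add_apply]
      refine (LE_mono hinj (hone (k % n)) _ x v₀ hv₀).trans ?_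
      rw [LE_const]
      exact mul_le_mul_right (LE_pow hinj hC.pow (k / n) x v₀ hv₀) _
    refine h1.trans ?_
    unfold psE
    rw [← ENNReal.ofReal_pow (by linarith), ← ENNReal.ofReal_pow hρ0.le,
      ← ENNReal.ofReal_mul (by positivity), ← ENNReal.ofReal_mul (by positivity)]
    apply ENNReal.ofReal_le_ofReal
    have h2 : C ^ (k % n) ≤ C ^ n := pow_le_pow_right₀ hC1 (Nat.mod_lt k hn).le
    have h3 : ρ ^ (k / n) ≤ ρ⁻¹ * τ ^ k := by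
      rw [← div_eq_inv_mul, le_div_iff₀ hρ0]
      have h4 : ρ ^ (k / n) * ρ = τ ^ (n * (k / n) + n) := by
        rw [pow_add, pow_mul, hτn]
      rw [h4]
      apply pow_le_pow_of_le_one hτ0.le hτ1.le
      have := Nat.mod_lt k hn
      omega
    calc C ^ (k % n) * (ρ ^ (k / n) * ‖v₀‖ ^ (-s))
        ≤ C ^ n * (ρ⁻¹ * τ ^ k * ‖v₀‖ ^ (-s)) := by gcongr
      _ = C ^ n * ρ⁻¹ * ‖v₀‖ ^ (-s) * τ ^ k := by ring
  calc ∫⁻ x in Q, (LE R H H')^[k] (psE s) x v₀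
      ≤ ∫⁻ _ in Q, ENNReal.ofReal (C ^ n * ρ⁻¹ * ‖v₀‖ ^ (-s) * τ ^ k) := lintegral_mono hb
    _ = ENNReal.ofReal (C ^ n * ρ⁻¹ * ‖v₀‖ ^ (-s) * τ ^ k) * volume Q := by
        rw [lintegral_const, Measure.restrict_apply_univ]
    _ = ENNReal.ofReal (C ^ n * ρ⁻¹ * ‖v₀‖ ^ (-s) * τ ^ k) := by
        have : volume Q = 1 := by
          unfold Q
          rw [Measure.volume_eq_prod, Measure.prod_prod, Real.volume_Ico]
          simp
        rw [this, mul_one]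

/-- the rate -/
noncomputable def rate (s : ℝ) (n : ℕ) (ρ : ℝ) : ℝ := -Real.log (√(ρ ^ ((n : ℝ)⁻¹))) / s

theorem rate_pos {s : ℝ} {n : ℕ} {ρ : ℝ} (hs : 0 < s) (hn : 0 < n) (h0 : 0 < ρ) (h1 : ρ < 1) :
    0 < rate s n ρ := by
  have hτ0 : 0 < ρ ^ ((n : ℝ)⁻¹) := Real.rpow_pos_of_pos h0 _
  have hτ1 : ρ ^ ((n : ℝ)⁻¹) < 1 := Real.rpow_lt_one h0.le h1 (by positivity)
  have hσ0 : 0 < √(ρ ^ ((n : ℝ)⁻¹)) := Real.sqrt_pos.mpr hτ0
  have hσ1 : √(ρ ^ ((n : ℝ)⁻¹)) < 1 := (Real.sqrt_lt' one_pos).mpr (by rw [one_pow]; exact hτ1)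
  exact div_pos (neg_pos.mpr (Real.log_neg hσ0 hσ1)) hs

/-- almost everywhere exponential growth of `(D_z Φ^n)⁻¹ v₀` -/
theorem ae_growth (L : Lift M Φ H H') {R : Finset (ℤ × ℤ)} (hR : Res M R) (hE : ResE M R)
    (hinj : ∀ x v, v ≠ 0 → H' x v ≠ 0) {s : ℝ} {n : ℕ} {ρ C : ℝ} (hC : Ctr R H H' s n ρ C)
    {v₀ : ℝ × ℝ} (hv₀ : v₀ ≠ 0) :
    ∀ᵐ z ∂(volume.restrict Q), ∀ᶠ k : ℕ in atTop,
      Real.exp (rate s n ρ * k) ≤ ‖Vn Φ H' v₀ k z‖ := by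
  obtain ⟨K, hK, hJ⟩ := decay L hR hE hinj hC hv₀
  have hs := hC.s0
  set τ : ℝ := ρ ^ ((n : ℝ)⁻¹) with hτ
  have hτ0 : 0 < τ := Real.rpow_pos_of_pos hC.ρ0 _
  have hτ1 : τ < 1 := Real.rpow_lt_one hC.ρ0.le hC.ρ1 (by have := hC.n0; positivity)
  set σ : ℝ := √τ with hσ
  have hσ0 : 0 < σ := Real.sqrt_pos.mpr hτ0
  have hσ1 : σ < 1 := by rw [hσ]; exact (Real.sqrt_lt' one_pos).mpr (by rw [one_pow]; exact hτ1)
  have hσσ : σ * σ = τ := Real.mul_self_sqrt hτ0.le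
  have hVne : ∀ k z, Vn Φ H' v₀ k z ≠ 0 := by
    intro k
    induction k with
    | zero => intro z; exact hv₀
    | succ k ih => intro z; exact hinj _ _ (ih _)
  have hmeas : ∀ k : ℕ, Measurable fun z => ENNReal.ofReal ((σ⁻¹) ^ k) *
      psE s z (Vn Φ H' v₀ k z) := by
    intro k
    exact ((psE_meas s).comp (measurable_id.prodMk (Vn_cont L v₀ k).measurable)).const_mul _
  have hsum : ∫⁻ z in Q, ∑' k : ℕ, ENNReal.ofReal ((σ⁻¹) ^ k) * psE s z (Vn Φ H' v₀ k z) ≠ ⊤ := by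
    rw [lintegral_tsum fun k => (hmeas k).aemeasurable]
    have h1 : ∀ k : ℕ, ∫⁻ z in Q, ENNReal.ofReal ((σ⁻¹) ^ k) * psE s z (Vn Φ H' v₀ k z) ≤
        ENNReal.ofReal (K * σ ^ k) := by
      intro k
      have hm' : Measurable fun z => psE s z (Vn Φ H' v₀ k z) :=
        (psE_meas s).comp (measurable_id.prodMk (Vn_cont L v₀ k).measurable)
      rw [lintegral_const_mul _ hm']
      refine (mul_le_mul_right (hJ k) _).trans ?_
      rw [← ENNReal.ofReal_mul (by positivity)]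
      apply ENNReal.ofReal_le_ofReal
      rw [← hσσ, mul_pow, inv_pow]
      have : σ ^ k ≠ 0 := by positivity
      apply le_of_eq
      field_simp
    refine ne_top_of_le_ne_top ?_ (ENNReal.tsum_le_tsum h1)
    have h2 : Summable fun k : ℕ => K * σ ^ k :=
      (summable_geometric_of_lt_one hσ0.le hσ1).mul_left K
    rw [← ENNReal.ofReal_tsum_of_nonneg (fun k => by positivity) h2]
    exact ENNReal.ofReal_ne_top
  have hae := ae_lt_top (Measurable.tsum hmeas) hsum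
  have hrate : rate s n ρ = -Real.log σ / s := rfl
  rw [hrate]
  filter_upwards [hae] with z hz
  have ht := ENNReal.tendsto_atTop_zero_of_tsum_ne_top hz.ne
  have hev : ∀ᶠ k : ℕ in atTop,
      ENNReal.ofReal ((σ⁻¹) ^ k) * psE s z (Vn Φ H' v₀ k z) < 1 :=
    ht.eventually (gt_mem_nhds one_pos)
  filter_upwards [hev] with k hk
  have hV : 0 < ‖Vn Φ H' v₀ k z‖ := norm_pos_iff.mpr (hVne k z)
  unfold psE at hk
  rw [← ENNReal.ofReal_mul (by positivity), ENNReal.ofReal_lt_one] at hk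
  have h3 : ‖Vn Φ H' v₀ k z‖ ^ (-s) < σ ^ k := by
    rw [inv_pow, ← div_eq_inv_mul, div_lt_one (by positivity)] at hk
    exact hk
  have h4 := Real.log_lt_log (Real.rpow_pos_of_pos hV _) h3
  rw [Real.log_rpow hV, Real.log_pow] at h4
  rw [← Real.le_log_iff_exp_le hV, div_mul_eq_mul_div, div_le_iff₀ hs]
  linarith

/-! ### the exponents -/

theorem deriv_iter_Vn (L : Lift M Φ H H') (hΦ : Differentiable ℝ Φ) (v₀ : ℝ × ℝ) (n : ℕ)
    (z : ℝ × ℝ) : fderiv ℝ (Φ^[n]) z (Vn Φ H' v₀ n z) = v₀ := by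
  induction n generalizing z with
  | zero => simp [Vn]
  | succ n ih =>
    have hn : Differentiable ℝ (Φ^[n]) := by
      induction n with
      | zero => exact differentiable_id
      | succ n _ => exact hΦ.iterate _
    rw [Function.iterate_succ, fderiv_comp z (hn _) (hΦ z)]
    show fderiv ℝ (Φ^[n]) (Φ z) (fderiv ℝ Φ z (H' (Φ z) (Vn Φ H' v₀ n (Φ z)))) = v₀
    have h1 : (fderiv ℝ Φ z).comp (H' (Φ z)) = ContinuousLinearMap.id ℝ (ℝ × ℝ) := by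
      have h2 : HasFDerivAt Φ (fderiv ℝ Φ (H (Φ z))) (H (Φ z)) := (hΦ _).hasFDerivAt
      have h3 := h2.comp (Φ z) (L.deriv (Φ z))
      rw [L.left] at h3
      have h4 : (Φ ∘ H) = id := by funext x; exact L.right x
      rw [h4] at h3
      exact h3.unique (hasFDerivAt_id _)
    have h5 := congrArg (fun A => A (Vn Φ H' v₀ n (Φ z))) h1
    simp only [ContinuousLinearMap.comp_apply, ContinuousLinearMap.id_apply] at h5
    rw [h5]
    exact ih (Φ z)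

/-- two dimensional inequality: `|det A| ‖v‖ ≤ 2 ‖A‖ ‖A v‖` -/
theorem det_le (A : ℝ × ℝ →L[ℝ] ℝ × ℝ) (v : ℝ × ℝ) : |A.det| * ‖v‖ ≤ 2 * ‖A‖ * ‖A v‖ := by
  have hdet : A.det = (A (1, 0)).1 * (A (0, 1)).2 - (A (0, 1)).1 * (A (1, 0)).2 := by
    have h1 : A.det = LinearMap.det (A : ℝ × ℝ →ₗ[ℝ] ℝ × ℝ) := rfl
    rw [h1, ← LinearMap.det_toMatrix (Module.Basis.finTwoProd ℝ), Matrix.det_fin_two]
    simp [LinearMap.toMatrix_apply]
  have hv : v = v.1 • ((1, 0) : ℝ × ℝ) + v.2 • ((0, 1) : ℝ × ℝ) := by ext <;> simp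
  have hAv1 : (A v).1 = v.1 * (A (1, 0)).1 + v.2 * (A (0, 1)).1 := by
    conv_lhs => rw [hv]
    rw [map_add, map_smul, map_smul]; rfl
  have hAv2 : (A v).2 = v.1 * (A (1, 0)).2 + v.2 * (A (0, 1)).2 := by
    conv_lhs => rw [hv]
    rw [map_add, map_smul, map_smul]; rfl
  have n1 : ‖((1, 0) : ℝ × ℝ)‖ = 1 := by rw [Prod.norm_def]; simp
  have n2 : ‖((0, 1) : ℝ × ℝ)‖ = 1 := by rw [Prod.norm_def]; simp
  have b1 : ‖A (1, 0)‖ ≤ ‖A‖ := by have := A.le_opNorm (1, 0); rwa [n1, mul_one] at this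
  have b2 : ‖A (0, 1)‖ ≤ ‖A‖ := by have := A.le_opNorm (0, 1); rwa [n2, mul_one] at this
  have c1 : |(A v).1| ≤ ‖A v‖ := norm_fst_le (A v)
  have c2 : |(A v).2| ≤ ‖A v‖ := norm_snd_le (A v)
  have d1 : |(A (1, 0)).1| ≤ ‖A‖ := (norm_fst_le (A (1, 0))).trans b1
  have d2 : |(A (1, 0)).2| ≤ ‖A‖ := (norm_snd_le (A (1, 0))).trans b1
  have d3 : |(A (0, 1)).1| ≤ ‖A‖ := (norm_fst_le (A (0, 1))).trans b2
  have d4 : |(A (0, 1)).2| ≤ ‖A‖ := (norm_snd_le (A (0, 1))).trans b2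
  have hA0 := norm_nonneg A
  have e1 : A.det * v.1 = (A v).1 * (A (0, 1)).2 - (A (0, 1)).1 * (A v).2 := by
    rw [hdet, hAv1, hAv2]; ring
  have e2 : A.det * v.2 = (A (1, 0)).1 * (A v).2 - (A v).1 * (A (1, 0)).2 := by
    rw [hdet, hAv1, hAv2]; ring
  have f1 : |A.det| * |v.1| ≤ 2 * ‖A‖ * ‖A v‖ := by
    rw [← abs_mul, e1]
    refine (abs_sub _ _).trans ?_
    rw [abs_mul, abs_mul]
    have g1 : |(A v).1| * |(A (0, 1)).2| ≤ ‖A v‖ * ‖A‖ :=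
      mul_le_mul c1 d4 (abs_nonneg _) (norm_nonneg _)
    have g2 : |(A (0, 1)).1| * |(A v).2| ≤ ‖A‖ * ‖A v‖ :=
      mul_le_mul d3 c2 (abs_nonneg _) hA0
    linarith
  have f2 : |A.det| * |v.2| ≤ 2 * ‖A‖ * ‖A v‖ := by
    rw [← abs_mul, e2]
    refine (abs_sub _ _).trans ?_
    rw [abs_mul, abs_mul]
    have g1 : |(A (1, 0)).1| * |(A v).2| ≤ ‖A‖ * ‖A v‖ :=
      mul_le_mul d1 c2 (abs_nonneg _) hA0
    have g2 : |(A v).1| * |(A (1, 0)).2| ≤ ‖A v‖ * ‖A‖ :=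
      mul_le_mul c1 d2 (abs_nonneg _) (norm_nonneg _)
    linarith
  rw [Prod.norm_def, Real.norm_eq_abs, Real.norm_eq_abs]
  rcases le_total |v.1| |v.2| with h | h
  · rw [max_eq_right h]; exact f2
  · rw [max_eq_left h]; exact f1

theorem one_le_det_iter (hΦ : Differentiable ℝ Φ) (hdet : ∀ z, 1 ≤ |(fderiv ℝ Φ z).det|) (n : ℕ)
    (z : ℝ × ℝ) : 1 ≤ |(fderiv ℝ (Φ^[n]) z).det| := by
  induction n generalizing z with
  | zero =>
    rw [Function.iterate_zero, fderiv_id]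
    have : (ContinuousLinearMap.id ℝ (ℝ × ℝ)).det = 1 := LinearMap.det_id
    rw [this]; simp
  | succ n ih =>
    have hn : Differentiable ℝ (Φ^[n]) := hΦ.iterate _
    rw [Function.iterate_succ, fderiv_comp z (hn _) (hΦ z)]
    have : ((fderiv ℝ (Φ^[n]) (Φ z)).comp (fderiv ℝ Φ z)).det =
        (fderiv ℝ (Φ^[n]) (Φ z)).det * (fderiv ℝ Φ z).det :=
      LinearMap.det_comp _ _
    rw [this, abs_mul]
    exact one_le_mul_of_one_le_of_one_le (ih _) (hdet z)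

theorem exponents (L : Lift M Φ H H') {R : Finset (ℤ × ℤ)} (hR : Res M R) (hE : ResE M R)
    (hinj : ∀ x v, v ≠ 0 → H' x v ≠ 0) {s : ℝ} {n : ℕ} {ρ C : ℝ} (hC : Ctr R H H' s n ρ C)
    (hΦ : Differentiable ℝ Φ) (hdet : ∀ z, 1 ≤ |(fderiv ℝ Φ z).det|) :
    ∀ᵐ z ∂(volume.restrict Q), ∀ᶠ k : ℕ in atTop,
      (∃ v : ℝ × ℝ, ‖v‖ = 1 ∧ ‖fderiv ℝ (Φ^[k]) z v‖ ≤ Real.exp (-(rate s n ρ / 2 * k))) ∧
        Real.exp (rate s n ρ / 2 * k) ≤ ‖fderiv ℝ (Φ^[k]) z‖ := by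
  have hv₀ : ((1, 0) : ℝ × ℝ) ≠ 0 := by
    intro h; have := congrArg Prod.fst h; simp at this
  have n1 : ‖((1, 0) : ℝ × ℝ)‖ = 1 := by rw [Prod.norm_def]; simp
  have hae := ae_growth L hR hE hinj hC hv₀
  have hc := rate_pos hC.s0 hC.n0 hC.ρ0 hC.ρ1
  set c := rate s n ρ
  have hlarge : ∀ᶠ k : ℕ in atTop, 2 ≤ Real.exp (c / 2 * k) := by
    have : Tendsto (fun k : ℕ => Real.exp (c / 2 * k)) atTop atTop :=
      Real.tendsto_exp_atTop.comp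
        (tendsto_natCast_atTop_atTop.const_mul_atTop (by positivity))
    exact this.eventually_ge_atTop 2
  filter_upwards [hae] with z hz
  filter_upwards [hz, hlarge] with k hk hk2
  set V := Vn Φ H' (1, 0) k z with hV
  have hder := deriv_iter_Vn L hΦ (1, 0) k z
  rw [← hV] at hder
  have hVpos : 0 < ‖V‖ := lt_of_lt_of_le (Real.exp_pos _) hk
  have e1 : Real.exp (c * k) = Real.exp (c / 2 * k) * Real.exp (c / 2 * k) := by
    rw [← Real.exp_add]; congr 1; ring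
  have hp := Real.exp_pos (c / 2 * k)
  constructor
  · refine ⟨‖V‖⁻¹ • V, ?_, ?_⟩
    · rw [norm_smul, norm_inv, norm_norm]
      exact inv_mul_cancel₀ hVpos.ne'
    · rw [map_smul, hder, norm_smul, n1, mul_one, norm_inv, norm_norm, Real.exp_neg]
      apply inv_anti₀ hp
      refine le_trans ?_ hk
      rw [e1]
      nlinarith
  · have h1 := det_le (fderiv ℝ (Φ^[k]) z) V
    rw [hder, n1, mul_one] at h1
    have h2 := one_le_det_iter hΦ hdet k z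
    have h3 : Real.exp (c * k) ≤ 2 * ‖fderiv ℝ (Φ^[k]) z‖ := by
      calc Real.exp (c * k) ≤ ‖V‖ := hk
        _ = 1 * ‖V‖ := (one_mul _).symm
        _ ≤ |(fderiv ℝ (Φ^[k]) z).det| * ‖V‖ := by gcongr
        _ ≤ _ := h1
    rw [e1] at h3
    nlinarith

end

end Pool.Agent.NUH
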