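import Pool.Agent.NUH.Cocyc

/-!
# Systems of residues
-/

set_option autoImplicit false

namespace Pool.Agent.NUH

open scoped ENNReal

/-- the matrix as a linear map -/
def mvL (M : Mt) : (ℤ × ℤ) →ₗ[ℤ] (ℤ × ℤ) where
  toFun := mv M
  map_add' := by
    intro x y; unfold mv; ext
    · simp only [Prod.fst_add, Prod.snd_add]; ring
    · simp only [Prod.fst_add, Prod.snd_add]; ring
  map_smul' := by
    intro c x; unfold mv; ext
    · simp only [Prod.smul_fst, Prod.smul_snd, smul_eq_mul, RingHom.id_apply]; ring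
    · simp only [Prod.smul_fst, Prod.smul_snd, smul_eq_mul, RingHom.id_apply]; ring

theorem mvL_apply (M : Mt) (j : ℤ × ℤ) : mvL M j = mv M j := rfl

theorem mvL_inj {M : Mt} (hΔ : M.det ≠ 0) : Function.Injective (mvL M) := by
  rw [← LinearMap.ker_eq_bot, LinearMap.ker_eq_bot']
  intro j hj
  rw [mvL_apply] at hj
  unfold mv at hj
  have h1 := congrArg Prod.fst hj
  have h2 := congrArg Prod.snd hj
  simp only [Prod.fst_zero, Prod.snd_zero] at h1 h2
  have e1 : M.det * j.1 = 0 := by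
    unfold Mt.det
    linear_combination M.d * h1 - M.b * h2
  have e2 : M.det * j.2 = 0 := by
    unfold Mt.det
    linear_combination M.a * h2 - M.c * h1
  ext
  · exact (mul_eq_zero.mp e1).resolve_left hΔ
  · exact (mul_eq_zero.mp e2).resolve_left hΔ

theorem mvL_det (M : Mt) : LinearMap.det (mvL M) = M.det := by
  rw [← LinearMap.det_toMatrix (Module.Basis.finTwoProd ℤ), Matrix.det_fin_two]
  simp [LinearMap.toMatrix_apply, mvL_apply, mv, Mt.det]

theorem card_quot {M : Mt} (hΔ : M.det ≠ 0) :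
    Nat.card ((ℤ × ℤ) ⧸ LinearMap.range (mvL M)) = M.det.natAbs := by
  have h := Submodule.natAbs_det_equiv (LinearMap.range (mvL M))
    (LinearEquiv.ofInjective (mvL M) (mvL_inj hΔ))
  rw [← h]
  congr 1
  rw [← mvL_det]
  rfl

theorem exists_res {M : Mt} (hΔ : M.det ≠ 0) :
    ∃ R : Finset (ℤ × ℤ), Res M R ∧ ResE M R ∧ (R.card : ℝ) = |(M.det : ℝ)| ∧
      ∀ m ∈ R, ∀ m' ∈ R, ∀ j, m = m' + mv M j → m = m' := by
  classical
  have hcard := card_quot hΔ
  have hfin : Finite ((ℤ × ℤ) ⧸ LinearMap.range (mvL M)) := by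
    apply Nat.finite_of_card_ne_zero
    rw [hcard]
    exact Int.natAbs_ne_zero.mpr hΔ
  have : Fintype ((ℤ × ℤ) ⧸ LinearMap.range (mvL M)) := Fintype.ofFinite _
  let N := LinearMap.range (mvL M)
  let o : (ℤ × ℤ) ⧸ N → ℤ × ℤ := fun q => Quotient.out q
  have ho : ∀ q, (Submodule.Quotient.mk (o q) : (ℤ × ℤ) ⧸ N) = q := fun q => Quotient.out_eq q
  have hinj : Function.Injective o := by
    intro q q' h
    rw [← ho q, ← ho q', h]
  have hout : ∀ m : ℤ × ℤ, ∃ j, m = o (Submodule.Quotient.mk m) + mv M j := by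
    intro m
    have h := ho (Submodule.Quotient.mk m)
    rw [eq_comm, Submodule.Quotient.eq] at h
    obtain ⟨j, hj⟩ := h
    refine ⟨j, ?_⟩
    rw [mvL_apply] at hj
    rw [hj]; abel
  refine ⟨Finset.univ.image o, ?_, ?_, ?_, ?_⟩
  · have key : ∀ h : ℤ × ℤ → ℝ, (∀ m j, h (m + mv M j) = h m) → ∀ k,
        ∑ m ∈ Finset.univ.image o, h (m + k) = ∑ m ∈ Finset.univ.image o, h m := by
      intro h hh k
      rw [Finset.sum_image (fun _ _ _ _ e => hinj e), Finset.sum_image (fun _ _ _ _ e => hinj e)]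
      apply Fintype.sum_equiv (Equiv.addRight (Submodule.Quotient.mk k : (ℤ × ℤ) ⧸ N))
      intro q
      obtain ⟨j, hj⟩ := hout (o q + k)
      rw [hj, hh, Submodule.Quotient.mk_add, ho]
      rfl
    refine ⟨?_, key⟩
    intro k
    obtain ⟨j, hj⟩ := hout k
    exact ⟨_, Finset.mem_image_of_mem _ (Finset.mem_univ _), j, hj⟩
  · intro h hh k
    rw [Finset.sum_image (fun _ _ _ _ e => hinj e), Finset.sum_image (fun _ _ _ _ e => hinj e)]
    apply Fintype.sum_equiv (Equiv.addRight (Submodule.Quotient.mk k : (ℤ × ℤ) ⧸ N))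
    intro q
    obtain ⟨j, hj⟩ := hout (o q + k)
    rw [hj, hh, Submodule.Quotient.mk_add, ho]
    rfl
  · rw [Finset.card_image_of_injective _ hinj, Finset.card_univ, ← Nat.card_eq_fintype_card, hcard,
      Nat.cast_natAbs, Int.cast_abs]
  · intro m hm m' hm' j hj
    obtain ⟨q, _, rfl⟩ := Finset.mem_image.mp hm
    obtain ⟨q', _, rfl⟩ := Finset.mem_image.mp hm'
    have h1 : q = q' := by
      rw [← ho q, ← ho q', Submodule.Quotient.eq, hj]
      exact ⟨j, by rw [mvL_apply]; abel⟩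
    rw [h1]

end Pool.Agent.NUH
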