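import Pool.Agent.NUH.Pert1
import Pool.Agent.NUH.Resid

/-!
# Conjugation by unimodular matrices and a.e. statements on the plane
-/

set_option autoImplicit false

namespace Pool.Agent.NUH

open MeasureTheory Filter Topology
open scoped ENNReal ContDiff NNReal

/-- real action of the matrix -/
noncomputable def mr (M : Mt) : ℝ × ℝ →L[ℝ] ℝ × ℝ :=
  ((M.a : ℝ) • ContinuousLinearMap.fst ℝ ℝ ℝ + (M.b : ℝ) • ContinuousLinearMap.snd ℝ ℝ ℝ).prod
    ((M.c : ℝ) • ContinuousLinearMap.fst ℝ ℝ ℝ + (M.d : ℝ) • ContinuousLinearMap.snd ℝ ℝ ℝ)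

theorem mr_apply (M : Mt) (z : ℝ × ℝ) :
    mr M z = (M.a * z.1 + M.b * z.2, M.c * z.1 + M.d * z.2) := by
  unfold mr
  simp

theorem mr_zc (M : Mt) (k : ℤ × ℤ) : mr M (zc k) = zc (mv M k) := by
  rw [mr_apply]; unfold zc mv; ext <;> simp

/-- product of matrices -/
def Mt.mul (A B : Mt) : Mt :=
  ⟨A.a * B.a + A.b * B.c, A.a * B.b + A.b * B.d, A.c * B.a + A.d * B.c, A.c * B.b + A.d * B.d⟩

/-- the identity matrix -/
def Mt.one : Mt := ⟨1, 0, 0, 1⟩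

theorem mv_mul (A B : Mt) (k : ℤ × ℤ) : mv (A.mul B) k = mv A (mv B k) := by
  unfold mv Mt.mul; ext
  · simp only; ring
  · simp only; ring

theorem mr_mul (A B : Mt) (z : ℝ × ℝ) : mr (A.mul B) z = mr A (mr B z) := by
  rw [mr_apply, mr_apply, mr_apply]
  unfold Mt.mul; ext
  · simp only; push_cast; ring
  · simp only; push_cast; ring

theorem mv_one (k : ℤ × ℤ) : mv Mt.one k = k := by
  unfold mv Mt.one; ext <;> simp

theorem mr_one (z : ℝ × ℝ) : mr Mt.one z = z := by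
  rw [mr_apply]; unfold Mt.one; ext <;> simp

/-- `E = U M V`, with `V` inverse to `U` -/
structure Sim (E U V M : Mt) : Prop where
  UV : U.mul V = Mt.one
  VU : V.mul U = Mt.one
  EU : E.mul U = U.mul M
  VE : V.mul E = M.mul V

theorem exists_sim (E : Mt) (hE : 2 ≤ |E.det|) : ∃ U V M : Mt, Sim E U V M ∧ M.a ≠ 0 ∧
    M.det = E.det ∧ ∃ t, ¬ M.det ∣ nu M t := by
  obtain ⟨a, b, c, d⟩ := E
  have hdet : (⟨a, b, c, d⟩ : Mt).det = a * d - b * c := rfl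
  rw [hdet] at hE ⊢
  set Δ := a * d - b * c with hΔ
  have hΔ0 : Δ ≠ 0 := by intro h; rw [h] at hE; simp at hE
  -- one of the columns is not divisible by the determinant
  have hcol : (¬ (Δ ∣ a ∧ Δ ∣ c)) ∨ (¬ (Δ ∣ b ∧ Δ ∣ d)) := by
    by_contra h
    push Not at h
    obtain ⟨⟨⟨a', ha⟩, c', hc⟩, ⟨b', hb⟩, d', hd⟩ := h
    have h1 : Δ * (Δ * (a' * d' - b' * c')) = Δ * 1 := by
      linear_combination (-d) * ha - Δ * a' * hd + c * hb + Δ * b' * hc - hΔ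
    have h2 := mul_left_cancel₀ hΔ0 h1
    have h3 : Δ ∣ 1 := ⟨_, h2.symm⟩
    have h4 := Int.le_of_dvd one_pos ((abs_dvd _ _).mpr h3)
    omega
  have hnu : ∀ p q r s : ℤ, ¬ (Δ ∣ p ∧ Δ ∣ r) → ∃ t : ℤ × ℤ, ¬ Δ ∣ nu ⟨p, q, r, s⟩ t := by
    intro p q r s h
    by_contra hh
    push Not at hh
    apply h
    have h1 := hh (0, 1)
    have h2 := hh (1, 0)
    unfold nu at h1 h2
    simp only [mul_zero, mul_one, zero_add, add_zero] at h1 h2
    exact ⟨h1, (dvd_neg.mp (by simpa using h2))⟩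
  rcases hcol with h | h
  · by_cases ha : a = 0
    · -- shear
      have hc : c ≠ 0 := by
        rintro rfl; apply hΔ0; rw [hΔ, ha]; ring
      refine ⟨⟨1, -1, 0, 1⟩, ⟨1, 1, 0, 1⟩, ⟨a + c, b + d - (a + c), c, d - c⟩, ⟨?_, ?_, ?_, ?_⟩,
        ?_, ?_, ?_⟩
      · unfold Mt.mul Mt.one; norm_num
      · unfold Mt.mul Mt.one; norm_num
      · unfold Mt.mul; simp only [Mt.mk.injEq]; refine ⟨?_, ?_, ?_, ?_⟩ <;> ring
      · unfold Mt.mul; simp only [Mt.mk.injEq]; refine ⟨?_, ?_, ?_, ?_⟩ <;> ring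
      · simp only; rw [ha, zero_add]; exact hc
      · unfold Mt.det; simp only; rw [hΔ]; ring
      · have : (⟨a + c, b + d - (a + c), c, d - c⟩ : Mt).det = Δ := by
          unfold Mt.det; simp only; rw [hΔ]; ring
        rw [this]
        apply hnu
        rintro ⟨h1, h2⟩
        exact h ⟨(dvd_add_left h2).mp h1, h2⟩
    · refine ⟨Mt.one, Mt.one, ⟨a, b, c, d⟩, ⟨?_, ?_, ?_, ?_⟩, ha, rfl, ?_⟩
      · unfold Mt.mul Mt.one; norm_num
      · unfold Mt.mul Mt.one; norm_num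
      · unfold Mt.mul Mt.one; simp
      · unfold Mt.mul Mt.one; simp
      · rw [hdet]; exact hnu _ _ _ _ h
  · by_cases hd : d = 0
    · have hb : b ≠ 0 := by
        rintro rfl; apply hΔ0; rw [hΔ, hd]; ring
      -- swap and shear
      refine ⟨⟨0, 1, 1, -1⟩, ⟨1, 1, 1, 0⟩, ⟨d + b, c + a - (d + b), b, a - b⟩, ⟨?_, ?_, ?_, ?_⟩,
        ?_, ?_, ?_⟩
      · unfold Mt.mul Mt.one; norm_num
      · unfold Mt.mul Mt.one; norm_num
      · unfold Mt.mul; simp only [Mt.mk.injEq]; refine ⟨?_, ?_, ?_, ?_⟩ <;> ring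
      · unfold Mt.mul; simp only [Mt.mk.injEq]; refine ⟨?_, ?_, ?_, ?_⟩ <;> ring
      · simp only; rw [hd, zero_add]; exact hb
      · unfold Mt.det; simp only; rw [hΔ]; ring
      · have : (⟨d + b, c + a - (d + b), b, a - b⟩ : Mt).det = Δ := by
          unfold Mt.det; simp only; rw [hΔ]; ring
        rw [this]
        apply hnu
        rintro ⟨h1, h2⟩
        exact h ⟨h2, (dvd_add_left h2).mp h1⟩
    · refine ⟨⟨0, 1, 1, 0⟩, ⟨0, 1, 1, 0⟩, ⟨d, c, b, a⟩, ⟨?_, ?_, ?_, ?_⟩, hd, ?_, ?_⟩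
      · unfold Mt.mul Mt.one; norm_num
      · unfold Mt.mul Mt.one; norm_num
      · unfold Mt.mul; simp
      · unfold Mt.mul; simp
      · unfold Mt.det; simp only; rw [hΔ]; ring
      · have : (⟨d, c, b, a⟩ : Mt).det = Δ := by
          unfold Mt.det; simp only; rw [hΔ]; ring
        rw [this]
        apply hnu
        rintro ⟨h1, h2⟩
        exact h ⟨h2, h1⟩

/-- exponential contraction and expansion at the point `z` with rate `c` -/
def Gz (Φ : ℝ × ℝ → ℝ × ℝ) (c : ℝ) (z : ℝ × ℝ) : Prop := ∀ᶠ k : ℕ in atTop,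
      (∃ v : ℝ × ℝ, ‖v‖ = 1 ∧ ‖fderiv ℝ (Φ^[k]) z v‖ ≤ Real.exp (-(c * k))) ∧
        Real.exp (c * k) ≤ ‖fderiv ℝ (Φ^[k]) z‖

theorem iter_per {M : Mt} {Φ : ℝ × ℝ → ℝ × ℝ} (hp : ∀ z k, Φ (z + zc k) = Φ z + zc (mv M k))
    (n : ℕ) (z : ℝ × ℝ) (k : ℤ × ℤ) : Φ^[n] (z + zc k) = Φ^[n] z + zc ((mv M)^[n] k) := by
  induction n generalizing z k with
  | zero => rfl
  | succ n ih => rw [Function.iterate_succ_apply, hp, ih]; rfl

theorem fderiv_iter_per {M : Mt} {Φ : ℝ × ℝ → ℝ × ℝ}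
    (hp : ∀ z k, Φ (z + zc k) = Φ z + zc (mv M k)) (hd : Differentiable ℝ Φ)
    (n : ℕ) (z : ℝ × ℝ) (k : ℤ × ℤ) : fderiv ℝ (Φ^[n]) (z + zc k) = fderiv ℝ (Φ^[n]) z := by
  have hn : Differentiable ℝ (Φ^[n]) := hd.iterate n
  have h1 : HasFDerivAt (fun y => Φ^[n] (y + zc k)) (fderiv ℝ (Φ^[n]) (z + zc k)) z := by
    have := (hn (z + zc k)).hasFDerivAt.comp z ((hasFDerivAt_id z).add_const (zc k))
    rw [ContinuousLinearMap.comp_id] at this
    exact this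
  have h2 : HasFDerivAt (fun y => Φ^[n] (y + zc k)) (fderiv ℝ (Φ^[n]) z) z := by
    have : (fun y => Φ^[n] (y + zc k)) = fun y => Φ^[n] y + zc ((mv M)^[n] k) := by
      funext y; exact iter_per hp n y k
    rw [this]
    exact (hn z).hasFDerivAt.add_const _
  exact h1.unique h2

theorem Gz_per {M : Mt} {Φ : ℝ × ℝ → ℝ × ℝ}
    (hp : ∀ z k, Φ (z + zc k) = Φ z + zc (mv M k)) (hd : Differentiable ℝ Φ) (c : ℝ)
    (z : ℝ × ℝ) (k : ℤ × ℤ) : Gz Φ c (z + zc k) ↔ Gz Φ c z := by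
  unfold Gz
  simp only [fderiv_iter_per hp hd]

/-- from the square to the plane -/
theorem ae_plane {M : Mt} {Φ : ℝ × ℝ → ℝ × ℝ}
    (hp : ∀ z k, Φ (z + zc k) = Φ z + zc (mv M k)) (hd : Differentiable ℝ Φ)
    {c : ℝ} (h : GrowthOn Φ c) : ∀ᵐ z : ℝ × ℝ, Gz Φ c z := by
  unfold GrowthOn at h
  rw [ae_restrict_iff' Q_meas] at h
  have hae' : ∀ᵐ z : ℝ × ℝ, z ∈ Q → Gz Φ c z := h
  have h1 : ∀ k : ℤ × ℤ, ∀ᵐ z : ℝ × ℝ, z - zc k ∈ Q → Gz Φ c z := by
    intro k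
    have hq := (measurePreserving_sub_right (volume : Measure (ℝ × ℝ)) (zc k)).quasiMeasurePreserving
    have := hq.ae hae'
    filter_upwards [this] with z hz hzQ
    have h2 := hz hzQ
    rw [← Gz_per hp hd c (z - zc k) k, sub_add_cancel] at h2
    exact h2
  have h2 : ∀ᵐ z : ℝ × ℝ, ∀ k : ℤ × ℤ, z - zc k ∈ Q → Gz Φ c z := ae_all_iff.mpr h1
  filter_upwards [h2] with z hz
  apply hz (fl z)
  have := iQ_sub z (fl z)
  rw [if_pos rfl] at this
  by_contra hn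
  unfold iQ at this
  rw [Set.indicator_of_notMem hn] at this
  exact absurd this (by simp)

end Pool.Agent.NUH
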