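import Pool.Agent.NUH.Pert0

/-!
# Growth of the vectors under the inverse branches
-/

set_option autoImplicit false

namespace Pool.Agent.NUH

/-- derivative of the inverse branch -/
noncomputable def Kd (M : Mt) (f : ℝ → ℝ) (x v : ℝ × ℝ) : ℝ × ℝ :=
  ((einv M v).1 - deriv f (einv M x).2 * (einv M v).2,
    (einv M v).2 - deriv f (bW M f x) * ((einv M v).1 - deriv f (einv M x).2 * (einv M v).2))

/-- average over the inverse branches -/
noncomputable def av2 (R : Finset (ℤ × ℤ)) (M : Mt) (f : ℝ → ℝ) (Ψ : ℝ × ℝ → ℝ × ℝ → ℝ)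
    (x v : ℝ × ℝ) : ℝ :=
  (∑ m ∈ R, Ψ (br M f (x + zc m)) (Kd M f (x + zc m) v)) / R.card

/-- the vertical cone -/
def Cone (M : Mt) (v : ℝ × ℝ) : Prop := 2 * (|(M.c : ℝ)| + 1) * |v.1| ≤ |v.2|

open Classical in
/-- indicator of the complement of the cone -/
noncomputable def out (M : Mt) (v : ℝ × ℝ) : ℝ := if Cone M v then 0 else 1

theorem out_nonneg (M : Mt) (v : ℝ × ℝ) : 0 ≤ out M v := by
  unfold out; split_ifs <;> norm_num

theorem out_le_one (M : Mt) (v : ℝ × ℝ) : out M v ≤ 1 := by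
  unfold out; split_ifs <;> norm_num

/-- the matrix applied to `einv M v` gives `v` -/
theorem einv_eq {M : Mt} (hΔ : M.det ≠ 0) (v : ℝ × ℝ) :
    v.1 = M.a * (einv M v).1 + M.b * (einv M v).2 ∧
      v.2 = M.c * (einv M v).1 + M.d * (einv M v).2 := by
  have hΔr : (M.det : ℝ) ≠ 0 := by exact_mod_cast hΔ
  have e : (M.det : ℝ) = M.a * M.d - M.b * M.c := by unfold Mt.det; push_cast; ring
  unfold einv
  constructor
  · field_simp
    rw [e]; ring
  · field_simp
    rw [e]; ring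

section

variable {M : Mt} {f : ℝ → ℝ} {Λ : ℝ}

/-- the constant of the trivial bounds -/
noncomputable def Qc (M : Mt) (Λ : ℝ) : ℝ := (1 + Λ) ^ 2 * c1 M

theorem Kd_upper (hΔ : M.det ≠ 0) (hΛ : 0 ≤ Λ) (hb : ∀ y, |deriv f y| ≤ Λ) (x v : ℝ × ℝ) :
    ‖Kd M f x v‖ ≤ Qc M Λ * ‖v‖ := by
  obtain ⟨h1, h2⟩ := einv_bound hΔ v
  have hc := c1_nonneg M
  have hn := norm_nonneg v
  have hcn : 0 ≤ c1 M * ‖v‖ := by positivity
  set e1 := (einv M v).1
  set e2 := (einv M v).2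
  have hw : |e1 - deriv f (einv M x).2 * e2| ≤ (1 + Λ) * (c1 M * ‖v‖) := by
    refine (abs_sub _ _).trans ?_
    rw [abs_mul]
    have : |deriv f (einv M x).2| * |e2| ≤ Λ * (c1 M * ‖v‖) :=
      mul_le_mul (hb _) h2 (abs_nonneg _) hΛ
    linarith
  rw [Prod.norm_def]
  unfold Qc
  apply max_le
  · show |e1 - deriv f (einv M x).2 * e2| ≤ _
    refine hw.trans ?_
    nlinarith [mul_nonneg hΛ hcn, mul_nonneg (mul_nonneg hΛ hΛ) hcn]
  · show |e2 - deriv f (bW M f x) * (e1 - deriv f (einv M x).2 * e2)| ≤ _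
    refine (abs_sub _ _).trans ?_
    rw [abs_mul]
    have : |deriv f (bW M f x)| * |e1 - deriv f (einv M x).2 * e2| ≤
        Λ * ((1 + Λ) * (c1 M * ‖v‖)) := mul_le_mul (hb _) hw (abs_nonneg _) hΛ
    nlinarith [mul_nonneg hΛ hcn]

theorem Kd_lower (hΔ : M.det ≠ 0) (hΛ : 0 ≤ Λ) (hb : ∀ y, |deriv f y| ≤ Λ) (x v : ℝ × ℝ) :
    ‖v‖ ≤ Qc M Λ * ‖Kd M f x v‖ := by
  obtain ⟨g1, g2⟩ := einv_eq hΔ v
  set r := ‖Kd M f x v‖ with hr
  have hr0 : 0 ≤ r := norm_nonneg _
  set e1 := (einv M v).1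
  set e2 := (einv M v).2
  set w := e1 - deriv f (einv M x).2 * e2 with hw
  set z := e2 - deriv f (bW M f x) * w with hz
  have k1 : |w| ≤ r := norm_fst_le (Kd M f x v)
  have k2 : |z| ≤ r := norm_snd_le (Kd M f x v)
  have b2 : |e2| ≤ (1 + Λ) * r := by
    have e : e2 = z + deriv f (bW M f x) * w := by rw [hz]; ring
    rw [e]
    refine (abs_add_le _ _).trans ?_
    rw [abs_mul]
    have : |deriv f (bW M f x)| * |w| ≤ Λ * r := mul_le_mul (hb _) k1 (abs_nonneg _) hΛ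
    linarith
  have b1 : |e1| ≤ (1 + Λ) ^ 2 * r := by
    have e : e1 = w + deriv f (einv M x).2 * e2 := by rw [hw]; ring
    rw [e]
    refine (abs_add_le _ _).trans ?_
    rw [abs_mul]
    have : |deriv f (einv M x).2| * |e2| ≤ Λ * ((1 + Λ) * r) :=
      mul_le_mul (hb _) b2 (abs_nonneg _) hΛ
    nlinarith [mul_nonneg hΛ hr0]
  have b2' : |e2| ≤ (1 + Λ) ^ 2 * r := by
    refine b2.trans ?_
    nlinarith [mul_nonneg hΛ hr0, mul_nonneg (mul_nonneg hΛ hΛ) hr0]
  have hq : 0 ≤ (1 + Λ) ^ 2 * r := by positivity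
  rw [Prod.norm_def]
  unfold Qc c1
  apply max_le
  · show |v.1| ≤ _
    rw [g1]
    refine (abs_add_le _ _).trans ?_
    rw [abs_mul, abs_mul]
    have t1 : |(M.a : ℝ)| * |e1| ≤ |(M.a : ℝ)| * ((1 + Λ) ^ 2 * r) := by gcongr
    have t2 : |(M.b : ℝ)| * |e2| ≤ |(M.b : ℝ)| * ((1 + Λ) ^ 2 * r) := by gcongr
    nlinarith [mul_nonneg (abs_nonneg (M.c : ℝ)) hq, mul_nonneg (abs_nonneg (M.d : ℝ)) hq]
  · show |v.2| ≤ _
    rw [g2]
    refine (abs_add_le _ _).trans ?_
    rw [abs_mul, abs_mul]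
    have t1 : |(M.c : ℝ)| * |e1| ≤ |(M.c : ℝ)| * ((1 + Λ) ^ 2 * r) := by gcongr
    have t2 : |(M.d : ℝ)| * |e2| ≤ |(M.d : ℝ)| * ((1 + Λ) ^ 2 * r) := by gcongr
    nlinarith [mul_nonneg (abs_nonneg (M.a : ℝ)) hq, mul_nonneg (abs_nonneg (M.b : ℝ)) hq]

theorem one_le_c1 {M : Mt} (ha : M.a ≠ 0) : 1 ≤ c1 M := by
  have : 1 ≤ |(M.a : ℝ)| := by exact_mod_cast Int.one_le_abs ha
  unfold c1
  have := abs_nonneg (M.b : ℝ)
  have := abs_nonneg (M.c : ℝ)
  have := abs_nonneg (M.d : ℝ)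
  linarith

theorem one_le_Qc {M : Mt} (ha : M.a ≠ 0) (hΛ : 0 ≤ Λ) : 1 ≤ Qc M Λ := by
  have := one_le_c1 ha
  unfold Qc
  nlinarith [mul_nonneg hΛ hΛ]

theorem Kd_ne_zero (hΔ : M.det ≠ 0) (hΛ : 0 ≤ Λ) (hb : ∀ y, |deriv f y| ≤ Λ) (x : ℝ × ℝ)
    {v : ℝ × ℝ} (hv : v ≠ 0) : Kd M f x v ≠ 0 := by
  intro h
  have := Kd_lower hΔ hΛ hb x v
  rw [h, norm_zero, mul_zero] at this
  exact hv (norm_le_zero_iff.mp this)

theorem log_Kd (hΔ : M.det ≠ 0) (ha : M.a ≠ 0) (hΛ : 0 ≤ Λ) (hb : ∀ y, |deriv f y| ≤ Λ)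
    (x : ℝ × ℝ) {v : ℝ × ℝ} (hv : v ≠ 0) :
    |Real.log ‖Kd M f x v‖ - Real.log ‖v‖| ≤ Real.log (Qc M Λ) := by
  have hQ := one_le_Qc ha hΛ
  have h1 := Kd_lower hΔ hΛ hb x v
  have h2 := Kd_upper hΔ hΛ hb x v
  have p1 : 0 < ‖v‖ := norm_pos_iff.mpr hv
  have p2 : 0 < ‖Kd M f x v‖ := norm_pos_iff.mpr (Kd_ne_zero hΔ hΛ hb x hv)
  have l1 := Real.log_le_log p1 h1
  have l2 := Real.log_le_log p2 h2
  rw [Real.log_mul (by linarith) (by linarith)] at l1 l2
  rw [abs_le]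
  constructor <;> linarith

end

/-- the data of the growth estimate -/
structure Gr (R : Finset (ℤ × ℤ)) (M : Mt) (θ ε lam Λ : ℝ) (f : ℝ → ℝ) : Prop where
  hR : 0 < R.card
  half : Half M R
  det : M.det ≠ 0
  ha : M.a ≠ 0
  hθ : 0 < θ
  hs : 4 * θ * |(M.det : ℝ)| ≤ 1
  hΛ : 0 ≤ Λ
  bound : ∀ y, |deriv f y| ≤ Λ
  slope : ∀ y, ε < bd θ y → deriv f y = lam * nn θ y
  lam1 : 4 * c1 M * |(M.det : ℝ)| ≤ lam
  lam2 : 4 * (|(M.c : ℝ)| + 1) ≤ lam

/-- good nodes -/
def Good (R : Finset (ℤ × ℤ)) (M : Mt) (θ ε : ℝ) (f : ℝ → ℝ) (x : ℝ × ℝ) : Prop :=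
  ∀ m ∈ R, ε < bd θ (einv M (x + zc m)).2 ∧ ε < bd θ (bW M f (x + zc m))

theorem bad_of_not_good {R : Finset (ℤ × ℤ)} {M : Mt} {θ ε : ℝ} {f : ℝ → ℝ} {x : ℝ × ℝ}
    (h : ¬ Good R M θ ε f x) : bad R M θ ε f x = 1 := by
  unfold bad
  rw [if_pos]
  unfold Good at h
  push Not at h
  obtain ⟨m, hm, h⟩ := h
  refine ⟨m, hm, ?_⟩
  by_cases h1 : ε < bd θ (einv M (x + zc m)).2
  · exact Or.inr (h h1)
  · exact Or.inl (not_lt.mp h1)

section

variable {R : Finset (ℤ × ℤ)} {M : Mt} {θ ε lam Λ : ℝ} {f : ℝ → ℝ}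

theorem Gr.lam4 (G : Gr R M θ ε lam Λ f) : 4 ≤ lam := by
  have := G.lam2
  have := abs_nonneg (M.c : ℝ)
  linarith

theorem abs_lam_nn (G : Gr R M θ ε lam Λ f) (y t : ℝ) : lam * |t| ≤ |lam * nn θ y * t| := by
  have h1 : (1 : ℝ) ≤ |(nn θ y : ℝ)| := by exact_mod_cast one_le_abs_nn θ y
  have h4 := G.lam4
  rw [abs_mul, abs_mul, abs_of_pos (by linarith : 0 < lam)]
  have : lam * 1 ≤ lam * |(nn θ y : ℝ)| := by gcongr
  nlinarith [abs_nonneg t]

/-- second step of the child: if `|e₂| ≤ |w|` the child lies in the cone -/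
theorem cone_of_le (G : Gr R M θ ε lam Λ f) {e2 w y : ℝ} (h : |e2| ≤ |w|) :
    2 * (|(M.c : ℝ)| + 1) * |w| ≤ |e2 - lam * nn θ y * w| ∧
      lam / 2 * |w| ≤ |e2 - lam * nn θ y * w| := by
  have h1 := abs_lam_nn G y w
  have h2 : |lam * nn θ y * w| - |e2| ≤ |e2 - lam * nn θ y * w| := by
    have := abs_sub_abs_le_abs_sub (lam * nn θ y * w) e2
    rwa [abs_sub_comm (lam * nn θ y * w)] at this
  have h3 := G.lam2
  have h4 := G.lam4
  have h5 := abs_nonneg w
  constructor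
  · nlinarith
  · nlinarith

theorem cone_good (G : Gr R M θ ε lam Λ f) {x v : ℝ × ℝ} (hx : Good R M θ ε f x)
    (hv : Cone M v) {m : ℤ × ℤ} (hm : m ∈ R) :
    Cone M (Kd M f (x + zc m) v) ∧
      lam ^ 2 / (8 * |(M.det : ℝ)|) * ‖v‖ ≤ ‖Kd M f (x + zc m) v‖ := by
  obtain ⟨g1, g2⟩ := hx m hm
  have d1 := G.slope _ g1
  have d2 := G.slope _ g2
  have hD := one_le_abs_det G.det
  have hDp : 0 < |(M.det : ℝ)| := by linarith
  have ha : 1 ≤ |(M.a : ℝ)| := by exact_mod_cast Int.one_le_abs G.ha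
  unfold Cone at hv
  have hc0 := abs_nonneg (M.c : ℝ)
  have hv1 := abs_nonneg v.1
  have hnv : ‖v‖ = |v.2| := by
    rw [Prod.norm_def, Real.norm_eq_abs, Real.norm_eq_abs]
    apply max_eq_right
    nlinarith
  obtain ⟨b1, b2⟩ := einv_bound G.det v
  rw [hnv] at b1 b2
  have e2 : (einv M v).2 = (-(M.c : ℝ) * v.1 + M.a * v.2) / M.det := rfl
  have l2 : |v.2| ≤ 2 * |(M.det : ℝ)| * |(einv M v).2| := by
    rw [e2, abs_div]
    have h1 : |(M.a : ℝ) * v.2| - |(M.c : ℝ) * v.1| ≤ |-(M.c : ℝ) * v.1 + M.a * v.2| := by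
      have := abs_sub_abs_le_abs_sub ((M.a : ℝ) * v.2) ((M.c : ℝ) * v.1)
      have e : (M.a : ℝ) * v.2 - (M.c : ℝ) * v.1 = -(M.c : ℝ) * v.1 + M.a * v.2 := by ring
      rwa [e] at this
    rw [abs_mul, abs_mul] at h1
    have h2 : |v.2| / 2 ≤ |-(M.c : ℝ) * v.1 + M.a * v.2| := by nlinarith [abs_nonneg v.2]
    have h3 : 2 * |(M.det : ℝ)| * (|-(M.c : ℝ) * v.1 + M.a * v.2| / |(M.det : ℝ)|) =
        2 * |-(M.c : ℝ) * v.1 + M.a * v.2| := by field_simp
    rw [h3]; linarith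
  have hw0 := abs_lam_nn G (einv M (x + zc m)).2 (einv M v).2
  have hL := G.lam1
  have hL4 := G.lam4
  have hc1 := one_le_c1 G.ha
  set w := (einv M v).1 - lam * nn θ (einv M (x + zc m)).2 * (einv M v).2 with hw
  have hwl : lam / (4 * |(M.det : ℝ)|) * |v.2| ≤ |w| := by
    have h1 : |lam * nn θ (einv M (x + zc m)).2 * (einv M v).2| - |(einv M v).1| ≤ |w| := by
      have := abs_sub_abs_le_abs_sub (lam * nn θ (einv M (x + zc m)).2 * (einv M v).2)
        (einv M v).1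
      rwa [abs_sub_comm (lam * nn θ (einv M (x + zc m)).2 * (einv M v).2)] at this
    have h2 : lam * (|v.2| / (2 * |(M.det : ℝ)|)) ≤ lam * |(einv M v).2| := by
      apply mul_le_mul_of_nonneg_left _ (by linarith)
      rw [div_le_iff₀ (by positivity)]
      linarith
    have h3 : c1 M * |v.2| ≤ lam / (4 * |(M.det : ℝ)|) * |v.2| := by
      apply mul_le_mul_of_nonneg_right _ (abs_nonneg _)
      rw [le_div_iff₀ (by positivity)]
      linarith
    have h4 : lam * (|v.2| / (2 * |(M.det : ℝ)|)) =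
        lam / (4 * |(M.det : ℝ)|) * |v.2| + lam / (4 * |(M.det : ℝ)|) * |v.2| := by
      field_simp; ring
    linarith
  have hle : |(einv M v).2| ≤ |w| := by
    refine b2.trans (le_trans ?_ hwl)
    apply mul_le_mul_of_nonneg_right _ (abs_nonneg _)
    rw [le_div_iff₀ (by positivity)]
    linarith
  obtain ⟨k1, k2⟩ := cone_of_le G (y := bW M f (x + zc m)) hle
  have eK : Kd M f (x + zc m) v =
      (w, (einv M v).2 - lam * nn θ (bW M f (x + zc m)) * w) := by
    unfold Kd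
    rw [d1, d2]
  rw [eK, hnv]
  refine ⟨k1, ?_⟩
  rw [Prod.norm_def]
  apply le_max_of_le_right
  rw [Real.norm_eq_abs]
  refine le_trans ?_ k2
  have : lam ^ 2 / (8 * |(M.det : ℝ)|) * |v.2| = lam / 2 * (lam / (4 * |(M.det : ℝ)|) * |v.2|) := by
    field_simp; ring
  rw [this]
  gcongr

theorem letter_out (G : Gr R M θ ε lam Λ f) {x v : ℝ × ℝ} (hx : Good R M θ ε f x)
    {m m' : ℤ × ℤ} (hm : m ∈ R) (hm' : m' ∈ R)
    (ho : ¬ Cone M (Kd M f (x + zc m) v)) (ho' : ¬ Cone M (Kd M f (x + zc m') v)) :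
    lt M θ x m = lt M θ x m' := by
  have key : ∀ m ∈ R, ¬ Cone M (Kd M f (x + zc m) v) →
      |(einv M v).1 - lam * (lt M θ x m) * (einv M v).2| < |(einv M v).2| := by
    intro m hm ho
    by_contra hc
    push Not at hc
    obtain ⟨g1, g2⟩ := hx m hm
    have d1 := G.slope _ g1
    have d2 := G.slope _ g2
    apply ho
    have := (cone_of_le G (y := bW M f (x + zc m)) hc).1
    unfold Cone Kd
    rw [d1, d2]
    exact this
  have k1 := key m hm ho
  have k2 := key m' hm' ho'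
  by_contra hne
  set e1 := (einv M v).1
  set e2 := (einv M v).2
  set n := lt M θ x m
  set n' := lt M θ x m'
  have hodd : Even (n - n') := (nn_odd _ _).sub_odd (nn_odd _ _)
  have h2 : (2 : ℝ) ≤ |((n - n' : ℤ) : ℝ)| := by
    obtain ⟨c, hc⟩ := hodd
    have h5 : n - n' ≠ 0 := sub_ne_zero.mpr hne
    have hc0 : c ≠ 0 := by rintro rfl; apply h5; rw [hc]; rfl
    have h6 := Int.one_le_abs hc0
    have h7 : 2 ≤ |n - n'| := by
      rw [hc, ← two_mul, abs_mul]; norm_num; linarith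
    rw [← Int.cast_abs]
    exact_mod_cast h7
  have h4 := G.lam4
  have h3 : |lam * ((n - n' : ℤ) : ℝ) * e2| < 2 * |e2| := by
    have e : lam * ((n - n' : ℤ) : ℝ) * e2 = (e1 - lam * n' * e2) - (e1 - lam * n * e2) := by
      push_cast; ring
    rw [e]
    refine (abs_sub _ _).trans_lt ?_
    linarith
  rw [abs_mul, abs_mul, abs_of_pos (by linarith : 0 < lam)] at h3
  have h5 := abs_nonneg e2
  have h6 : 4 * 2 ≤ lam * |((n - n' : ℤ) : ℝ)| := mul_le_mul h4 h2 (by norm_num) (by linarith)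
  nlinarith

/-! ### the averages -/

theorem av2_mono (G : Gr R M θ ε lam Λ f) {Ψ Φ : ℝ × ℝ → ℝ × ℝ → ℝ}
    (h : ∀ x v, v ≠ 0 → Ψ x v ≤ Φ x v) (x : ℝ × ℝ) {v : ℝ × ℝ} (hv : v ≠ 0) :
    av2 R M f Ψ x v ≤ av2 R M f Φ x v :=
  div_le_div_of_nonneg_right
    (Finset.sum_le_sum fun _ _ => h _ _ (Kd_ne_zero G.det G.hΛ G.bound _ hv)) (Nat.cast_nonneg _)

theorem av2_iter_mono (G : Gr R M θ ε lam Λ f) {Ψ Φ : ℝ × ℝ → ℝ × ℝ → ℝ}
    (h : ∀ x v, v ≠ 0 → Ψ x v ≤ Φ x v) (g : ℕ) (x : ℝ × ℝ) {v : ℝ × ℝ} (hv : v ≠ 0) :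
    (av2 R M f)^[g] Ψ x v ≤ (av2 R M f)^[g] Φ x v := by
  induction g generalizing x v with
  | zero => exact h x v hv
  | succ g ih =>
    rw [Function.iterate_succ_apply', Function.iterate_succ_apply']
    exact av2_mono G (fun x v hv => ih x hv) x hv

theorem av2_lin (hR : 0 < R.card) (Ψ Φ : ℝ × ℝ → ℝ × ℝ → ℝ) (p q r : ℝ) (x v : ℝ × ℝ) :
    av2 R M f (fun x v => p + q * Ψ x v + r * Φ x v) x v =
      p + q * av2 R M f Ψ x v + r * av2 R M f Φ x v := by
  have hc : (R.card : ℝ) ≠ 0 := by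
    have : (0 : ℝ) < R.card := by exact_mod_cast hR
    exact this.ne'
  unfold av2
  rw [Finset.sum_add_distrib, Finset.sum_add_distrib, Finset.sum_const, ← Finset.mul_sum,
    ← Finset.mul_sum, nsmul_eq_mul]
  field_simp

theorem av2_iter_lin (hR : 0 < R.card) (Ψ Φ : ℝ × ℝ → ℝ × ℝ → ℝ) (p q r : ℝ) (g : ℕ)
    (x v : ℝ × ℝ) :
    (av2 R M f)^[g] (fun x v => p + q * Ψ x v + r * Φ x v) x v =
      p + q * (av2 R M f)^[g] Ψ x v + r * (av2 R M f)^[g] Φ x v := by
  induction g generalizing x v with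
  | zero => rfl
  | succ g ih =>
    rw [Function.iterate_succ_apply', Function.iterate_succ_apply', Function.iterate_succ_apply']
    have : (av2 R M f)^[g] (fun x v => p + q * Ψ x v + r * Φ x v) =
        fun x v => p + q * (av2 R M f)^[g] Ψ x v + r * (av2 R M f)^[g] Φ x v := by
      funext x v; exact ih x v
    rw [this, av2_lin hR]

theorem av2_iter_indep (φ : ℝ × ℝ → ℝ) (g : ℕ) (x v : ℝ × ℝ) :
    (av2 R M f)^[g] (fun x _ => φ x) x v = (avg R M f)^[g] φ x := by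
  induction g generalizing x v with
  | zero => rfl
  | succ g ih =>
    rw [Function.iterate_succ_apply', Function.iterate_succ_apply']
    have : (av2 R M f)^[g] (fun x _ => φ x) = fun x _ => (avg R M f)^[g] φ x := by
      funext x v; exact ih x v
    rw [this]
    rfl

/-- one step for the cone -/
theorem av2_out (G : Gr R M θ ε lam Λ f) (x : ℝ × ℝ) {v : ℝ × ℝ} (_hv : v ≠ 0) :
    av2 R M f (fun _ v => out M v) x v ≤ 1 / 2 * out M v + bad R M θ ε f x := by
  classical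
  have hc : (0 : ℝ) < R.card := by exact_mod_cast G.hR
  have hle1 : av2 R M f (fun _ v => out M v) x v ≤ 1 := by
    unfold av2
    rw [div_le_one hc]
    refine (Finset.sum_le_sum fun m _ => out_le_one M (Kd M f (x + zc m) v)).trans ?_
    simp
  by_cases hx : Good R M θ ε f x
  · have hb := bad_nonneg (R := R) (M := M) θ ε f x
    by_cases hcv : Cone M v
    · have : av2 R M f (fun _ v => out M v) x v = 0 := by
        unfold av2
        rw [Finset.sum_eq_zero, zero_div]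
        intro m hm
        show out M (Kd M f (x + zc m) v) = 0
        unfold out
        rw [if_pos (cone_good G hx hcv hm).1]
      rw [this]
      have := out_nonneg M v
      linarith
    · have ho : out M v = 1 := by unfold out; rw [if_neg hcv]
      rw [ho]
      -- all children outside the cone have the same letter
      have hhalf : av2 R M f (fun _ v => out M v) x v ≤ 1 / 2 := by
        unfold av2
        rw [div_le_iff₀ hc]
        by_cases hex : ∃ m₀ ∈ R, ¬ Cone M (Kd M f (x + zc m₀) v)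
        · obtain ⟨m₀, hm₀, h₀⟩ := hex
          have hcl := card_letter G.hθ G.det G.hs G.half x hm₀
          have hcl' : (2 : ℝ) * (R.filter fun m => lt M θ x m = lt M θ x m₀).card ≤ R.card := by
            exact_mod_cast hcl
          have hsum : ∑ m ∈ R, out M (Kd M f (x + zc m) v) ≤
              ∑ m ∈ R, if lt M θ x m = lt M θ x m₀ then (1 : ℝ) else 0 := by
            apply Finset.sum_le_sum
            intro m hm
            by_cases hcm : Cone M (Kd M f (x + zc m) v)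
            · unfold out; rw [if_pos hcm]; split_ifs <;> norm_num
            · rw [if_pos (letter_out G hx hm hm₀ hcm h₀)]
              exact out_le_one _ _
          rw [← Finset.sum_filter, Finset.sum_const, nsmul_eq_mul, mul_one] at hsum
          linarith
        · push Not at hex
          rw [Finset.sum_eq_zero]
          · positivity
          · intro m hm
            show out M (Kd M f (x + zc m) v) = 0
            unfold out
            rw [if_pos (hex m hm)]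
      linarith
  · rw [bad_of_not_good hx]
    have := out_nonneg M v
    linarith

theorem out_iter (G : Gr R M θ ε lam Λ f) {N : ℝ} {n : ℕ}
    (hbad : ∀ g < n, ∀ x, (avg R M f)^[g] (bad R M θ ε f) x ≤ N * (1 / 2) ^ g)
    (g : ℕ) (hg : g ≤ n) (x : ℝ × ℝ) {v : ℝ × ℝ} (hv : v ≠ 0) :
    (av2 R M f)^[g] (fun _ v => out M v) x v ≤ (1 + 2 * N * g) * (1 / 2) ^ g := by
  induction g with
  | zero =>
    simp only [Function.iterate_zero, id, pow_zero, Nat.cast_zero]
    have := out_le_one M v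
    linarith
  | succ g ih =>
    rw [Function.iterate_succ_apply]
    have h1 : (av2 R M f)^[g] (av2 R M f (fun _ v => out M v)) x v ≤
        (av2 R M f)^[g] (fun x v => 0 + 1 / 2 * out M v + 1 * bad R M θ ε f x) x v := by
      apply av2_iter_mono G _ g x hv
      intro x v hv
      have := av2_out G x hv
      linarith
    rw [av2_iter_lin G.hR (fun _ v => out M v) (fun x _ => bad R M θ ε f x)] at h1
    have e := av2_iter_indep (R := R) (M := M) (f := f) (bad R M θ ε f) g x v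
    rw [e] at h1
    have h2 := ih (by omega)
    have h3 := hbad g (by omega) x
    push_cast
    rw [pow_succ]
    linarith

/-- one step for the logarithm -/
theorem av2_log (G : Gr R M θ ε lam Λ f) (x : ℝ × ℝ) {v : ℝ × ℝ} (hv : v ≠ 0)
    (hL : 0 ≤ Real.log (lam ^ 2 / (8 * |(M.det : ℝ)|)) + Real.log (Qc M Λ)) :
    Real.log ‖v‖ + Real.log (lam ^ 2 / (8 * |(M.det : ℝ)|)) -
      (Real.log (lam ^ 2 / (8 * |(M.det : ℝ)|)) + Real.log (Qc M Λ)) *
        (bad R M θ ε f x + out M v) ≤ av2 R M f (fun _ v => Real.log ‖v‖) x v := by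
  have hc : (0 : ℝ) < R.card := by exact_mod_cast G.hR
  have hD := one_le_abs_det G.det
  have h4 := G.lam4
  have hpos : 0 < lam ^ 2 / (8 * |(M.det : ℝ)|) := by positivity
  set L1 := Real.log (lam ^ 2 / (8 * |(M.det : ℝ)|))
  set L2 := Real.log (Qc M Λ)
  have hb := bad_nonneg (R := R) (M := M) θ ε f x
  have ho := out_nonneg M v
  have hv0 : 0 < ‖v‖ := norm_pos_iff.mpr hv
  have key : ∀ B : ℝ, (∀ m ∈ R, B ≤ Real.log ‖Kd M f (x + zc m) v‖) →
      B ≤ av2 R M f (fun _ v => Real.log ‖v‖) x v := by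
    intro B hB
    unfold av2
    rw [le_div_iff₀ hc]
    calc B * R.card = ∑ m ∈ R, B := by rw [Finset.sum_const, nsmul_eq_mul]; ring
      _ ≤ _ := Finset.sum_le_sum hB
  by_cases hx : Good R M θ ε f x ∧ Cone M v
  · obtain ⟨hx, hcv⟩ := hx
    refine le_trans ?_ (key (Real.log ‖v‖ + L1) ?_)
    · nlinarith [mul_nonneg hL (add_nonneg hb ho)]
    · intro m hm
      have h1 := (cone_good G hx hcv hm).2
      have h2 := Real.log_le_log (by positivity) h1
      rw [Real.log_mul hpos.ne' hv0.ne'] at h2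
      linarith
  · refine le_trans ?_ (key (Real.log ‖v‖ - L2) ?_)
    · have h1 : 1 ≤ bad R M θ ε f x + out M v := by
        by_cases hx' : Good R M θ ε f x
        · have hcv : ¬ Cone M v := fun h => hx ⟨hx', h⟩
          have : out M v = 1 := by unfold out; rw [if_neg hcv]
          linarith
        · rw [bad_of_not_good hx']; linarith
      nlinarith
    · intro m hm
      have := (abs_le.mp (log_Kd G.det G.ha G.hΛ G.bound (x + zc m) hv)).1
      linarith

theorem log_iter (G : Gr R M θ ε lam Λ f) {N : ℝ} {n : ℕ}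
    (hbad : ∀ g < n, ∀ x, (avg R M f)^[g] (bad R M θ ε f) x ≤ N * (1 / 2) ^ g)
    (hL : 0 ≤ Real.log (lam ^ 2 / (8 * |(M.det : ℝ)|)) + Real.log (Qc M Λ))
    (g : ℕ) (hg : g ≤ n) (x : ℝ × ℝ) {v : ℝ × ℝ} (hv : v ≠ 0) :
    Real.log ‖v‖ + g * Real.log (lam ^ 2 / (8 * |(M.det : ℝ)|)) -
      (Real.log (lam ^ 2 / (8 * |(M.det : ℝ)|)) + Real.log (Qc M Λ)) *
        (2 * (N + 1) + 4 * N - (2 * (N + 1) + 4 * N + 4 * N * g) * (1 / 2) ^ g) ≤
      (av2 R M f)^[g] (fun _ v => Real.log ‖v‖) x v := by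
  set L1 := Real.log (lam ^ 2 / (8 * |(M.det : ℝ)|))
  set L2 := Real.log (Qc M Λ)
  induction g with
  | zero => simp
  | succ g ih =>
    rw [Function.iterate_succ_apply]
    have h1 : (av2 R M f)^[g] (fun x v => L1 + 1 * Real.log ‖v‖ +
        (-(L1 + L2)) * (bad R M θ ε f x + out M v)) x v ≤
        (av2 R M f)^[g] (av2 R M f (fun _ v => Real.log ‖v‖)) x v := by
      apply av2_iter_mono G _ g x hv
      intro x v hv
      have := av2_log G x hv hL
      linarith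
    rw [av2_iter_lin G.hR (fun _ v => Real.log ‖v‖) (fun x v => bad R M θ ε f x + out M v)] at h1
    have e0 : (fun x v => bad R M θ ε f x + out M v) =
        fun x v => 0 + 1 * bad R M θ ε f x + 1 * out M v := by
      funext x v; ring
    rw [e0, av2_iter_lin G.hR (fun x _ => bad R M θ ε f x) (fun _ v => out M v),
      av2_iter_indep] at h1
    have h2 := ih (by omega)
    have h3 := hbad g (by omega) x
    have h4 := out_iter G hbad g (by omega) x hv
    have h5 : (L1 + L2) * ((avg R M f)^[g] (bad R M θ ε f) x +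
        (av2 R M f)^[g] (fun _ v => out M v) x v) ≤
        (L1 + L2) * (N * (1 / 2) ^ g + (1 + 2 * N * g) * (1 / 2) ^ g) := by
      apply mul_le_mul_of_nonneg_left _ hL
      linarith
    have e1 : (2 * (N + 1) + 4 * N + 4 * N * ((g + 1 : ℕ) : ℝ)) * (1 / 2 : ℝ) ^ (g + 1) =
        (2 * (N + 1) + 4 * N + 4 * N * g) * (1 / 2) ^ g -
        (N * (1 / 2) ^ g + (1 + 2 * N * g) * (1 / 2) ^ g) := by
      push_cast
      rw [pow_succ]; ring
    rw [e1]
    push_cast
    linarith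

end

end Pool.Agent.NUH
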