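import Pool.Agent.NUH.Cocyc
import Pool.Agent.NUH.Grow

/-!
# The forward map and the derivative of its inverse
-/

set_option autoImplicit false

namespace Pool.Agent.NUH

open MeasureTheory Filter Topology
open scoped ENNReal ContDiff

/-- the map `E ∘ h₁ ∘ h₂` on the plane -/
noncomputable def fwd (M : Mt) (f : ℝ → ℝ) (z : ℝ × ℝ) : ℝ × ℝ :=
  (M.a * (z.1 + f (z.2 + f z.1)) + M.b * (z.2 + f z.1),
    M.c * (z.1 + f (z.2 + f z.1)) + M.d * (z.2 + f z.1))

theorem einv_mulvec {M : Mt} (hΔ : M.det ≠ 0) (x y : ℝ) :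
    einv M (M.a * x + M.b * y, M.c * x + M.d * y) = (x, y) := by
  have hΔr : (M.det : ℝ) ≠ 0 := by exact_mod_cast hΔ
  have e : (M.det : ℝ) = M.a * M.d - M.b * M.c := by unfold Mt.det; push_cast; ring
  unfold einv
  ext
  · simp only
    field_simp
    rw [e]; ring
  · simp only
    field_simp
    rw [e]; ring

theorem br_fwd {M : Mt} (hΔ : M.det ≠ 0) (f : ℝ → ℝ) (z : ℝ × ℝ) : br M f (fwd M f z) = z := by
  unfold br bW fwd
  rw [einv_mulvec hΔ]
  ext
  · simp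
  · simp

theorem fwd_br {M : Mt} (hΔ : M.det ≠ 0) (f : ℝ → ℝ) (x : ℝ × ℝ) : fwd M f (br M f x) = x := by
  obtain ⟨h1, h2⟩ := einv_eq hΔ x
  have e1 : (br M f x).2 + f (br M f x).1 = (einv M x).2 := by unfold br; simp
  have e2 : (br M f x).1 = (einv M x).1 - f (einv M x).2 := rfl
  unfold fwd
  rw [e1, e2]
  ext
  · simp only
    rw [sub_add_cancel]; exact h1.symm
  · simp only
    rw [sub_add_cancel]; exact h2.symm

theorem fwd_per (M : Mt) {f : ℝ → ℝ} (hf : Per f) (z : ℝ × ℝ) (k : ℤ × ℤ) :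
    fwd M f (z + zc k) = fwd M f z + zc (mv M k) := by
  unfold fwd zc mv
  simp only [Prod.fst_add, Prod.snd_add]
  have e1 : f (z.1 + (k.1 : ℝ)) = f z.1 := hf _ _
  have e2 : z.2 + (k.2 : ℝ) + f z.1 = (z.2 + f z.1) + (k.2 : ℝ) := by ring
  rw [e1, e2, hf]
  ext
  · simp only [Prod.fst_add]; push_cast; ring
  · simp only [Prod.snd_add]; push_cast; ring

theorem fwd_contDiff (M : Mt) {f : ℝ → ℝ} (hf : ContDiff ℝ ∞ f) : ContDiff ℝ ∞ (fwd M f) := by
  have h1 : ContDiff ℝ ∞ fun z : ℝ × ℝ => z.2 + f z.1 := contDiff_snd.add (hf.comp contDiff_fst)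
  have h2 : ContDiff ℝ ∞ fun z : ℝ × ℝ => z.1 + f (z.2 + f z.1) :=
    contDiff_fst.add (hf.comp h1)
  exact ((contDiff_const.mul h2).add (contDiff_const.mul h1)).prodMk
    ((contDiff_const.mul h2).add (contDiff_const.mul h1))

/-- first coordinate of the inverse matrix -/
noncomputable def e1L (M : Mt) : ℝ × ℝ →L[ℝ] ℝ :=
  (M.det : ℝ)⁻¹ • ((M.d : ℝ) • ContinuousLinearMap.fst ℝ ℝ ℝ -
    (M.b : ℝ) • ContinuousLinearMap.snd ℝ ℝ ℝ)

/-- second coordinate of the inverse matrix -/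
noncomputable def e2L (M : Mt) : ℝ × ℝ →L[ℝ] ℝ :=
  (M.det : ℝ)⁻¹ • (-(M.c : ℝ) • ContinuousLinearMap.fst ℝ ℝ ℝ +
    (M.a : ℝ) • ContinuousLinearMap.snd ℝ ℝ ℝ)

theorem e1L_apply (M : Mt) (v : ℝ × ℝ) : e1L M v = (einv M v).1 := by
  unfold e1L einv
  simp only [_root_.smul_apply, _root_.sub_apply, smul_eq_mul,
    ContinuousLinearMap.coe_fst', ContinuousLinearMap.coe_snd']
  rw [div_eq_inv_mul]

theorem e2L_apply (M : Mt) (v : ℝ × ℝ) : e2L M v = (einv M v).2 := by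
  unfold e2L einv
  simp only [_root_.smul_apply, _root_.add_apply, smul_eq_mul,
    ContinuousLinearMap.coe_fst', ContinuousLinearMap.coe_snd']
  rw [div_eq_inv_mul]

/-- derivative of `bW` -/
noncomputable def bWD (M : Mt) (f : ℝ → ℝ) (x : ℝ × ℝ) : ℝ × ℝ →L[ℝ] ℝ :=
  e1L M - deriv f (einv M x).2 • e2L M

/-- derivative of `br` -/
noncomputable def brD (M : Mt) (f : ℝ → ℝ) (x : ℝ × ℝ) : ℝ × ℝ →L[ℝ] ℝ × ℝ :=
  (bWD M f x).prod (e2L M - deriv f (bW M f x) • bWD M f x)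

theorem brD_apply (M : Mt) (f : ℝ → ℝ) (x v : ℝ × ℝ) : brD M f x v = Kd M f x v := by
  unfold brD bWD Kd
  rw [ContinuousLinearMap.prod_apply]
  simp only [_root_.sub_apply, _root_.smul_apply, smul_eq_mul,
    e1L_apply, e2L_apply]

theorem hasFDerivAt_einv1 (M : Mt) (x : ℝ × ℝ) :
    HasFDerivAt (fun x => (einv M x).1) (e1L M) x := by
  have : (fun x => (einv M x).1) = fun x => e1L M x := by funext x; rw [e1L_apply]
  rw [this]
  exact (e1L M).hasFDerivAt

theorem hasFDerivAt_einv2 (M : Mt) (x : ℝ × ℝ) :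
    HasFDerivAt (fun x => (einv M x).2) (e2L M) x := by
  have : (fun x => (einv M x).2) = fun x => e2L M x := by funext x; rw [e2L_apply]
  rw [this]
  exact (e2L M).hasFDerivAt

theorem hasFDerivAt_bW (M : Mt) {f : ℝ → ℝ} (hf : Differentiable ℝ f) (x : ℝ × ℝ) :
    HasFDerivAt (bW M f) (bWD M f x) x := by
  have h2 := (hf (einv M x).2).hasDerivAt.comp_hasFDerivAt x (hasFDerivAt_einv2 M x)
  exact (hasFDerivAt_einv1 M x).sub h2

theorem hasFDerivAt_br (M : Mt) {f : ℝ → ℝ} (hf : Differentiable ℝ f) (x : ℝ × ℝ) :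
    HasFDerivAt (br M f) (brD M f x) x := by
  have h1 := hasFDerivAt_bW M hf x
  have h2 := (hf (bW M f x)).hasDerivAt.comp_hasFDerivAt x h1
  exact h1.prodMk ((hasFDerivAt_einv2 M x).sub h2)

theorem brD_cont (M : Mt) {f : ℝ → ℝ} (hf : ContDiff ℝ ∞ f) : Continuous (brD M f) := by
  have hd : Continuous (deriv f) := hf.continuous_deriv (by simp)
  have hc := hf.continuous
  have h1 : Continuous (bWD M f) := by
    unfold bWD
    have := einv_cont M
    fun_prop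
  have h3 := bW_cont M hc
  have h2 : Continuous fun x => e2L M - deriv f (bW M f x) • bWD M f x := by fun_prop
  exact (ContinuousLinearMap.prodₗᵢ ℝ).continuous.comp (h1.prodMk h2)

theorem det_formula (A : ℝ × ℝ →L[ℝ] ℝ × ℝ) :
    A.det = (A (1, 0)).1 * (A (0, 1)).2 - (A (0, 1)).1 * (A (1, 0)).2 := by
  have h1 : A.det = LinearMap.det (A : ℝ × ℝ →ₗ[ℝ] ℝ × ℝ) := rfl
  rw [h1, ← LinearMap.det_toMatrix (Module.Basis.finTwoProd ℝ), Matrix.det_fin_two]
  simp [LinearMap.toMatrix_apply]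

theorem brD_det {M : Mt} (hΔ : M.det ≠ 0) (f : ℝ → ℝ) (x : ℝ × ℝ) :
    (brD M f x).det = 1 / M.det := by
  have hΔr : (M.det : ℝ) ≠ 0 := by exact_mod_cast hΔ
  have e : (M.det : ℝ) = M.a * M.d - M.b * M.c := by unfold Mt.det; push_cast; ring
  rw [det_formula, brD_apply, brD_apply]
  unfold Kd
  simp only
  have a1 : (einv M (1, 0)).1 = M.d / M.det := by unfold einv; simp
  have a2 : (einv M (1, 0)).2 = -M.c / M.det := by unfold einv; simp
  have a3 : (einv M (0, 1)).1 = -M.b / M.det := by unfold einv; simp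
  have a4 : (einv M (0, 1)).2 = M.a / M.det := by unfold einv; simp
  rw [a1, a2, a3, a4]
  have key : (M.d : ℝ) / M.det * (M.a / M.det) - -M.b / M.det * (-M.c / M.det) = 1 / M.det := by
    field_simp
    rw [e]; ring
  rw [← key]
  ring

end Pool.Agent.NUH
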