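import Pool.Agent.NUH.Mom

/-!
# Choice of the parameters
-/

set_option autoImplicit false

namespace Pool.Agent.NUH

open scoped ContDiff

theorem nu_add (M : Mt) (m k : ℤ × ℤ) : nu M (m + k) = nu M m + nu M k := by
  unfold nu; simp only [Prod.fst_add, Prod.snd_add]; ring

theorem nu_sub (M : Mt) (m k : ℤ × ℤ) : nu M (m - k) = nu M m - nu M k := by
  unfold nu; simp only [Prod.fst_sub, Prod.snd_sub]; ring

theorem nu_mv (M : Mt) (j : ℤ × ℤ) : nu M (mv M j) = M.det * j.2 := by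
  unfold nu mv Mt.det; ring

/-- the levels are separated -/
theorem half_of_res {M : Mt} {R : Finset (ℤ × ℤ)} (hR : Res M R) {t : ℤ × ℤ}
    (ht : ¬ M.det ∣ nu M t) : Half M R := by
  classical
  intro m₀ _
  let h : ℤ × ℤ → ℝ := fun m => if M.det ∣ nu M (m - m₀) then 1 else 0
  have hinv : ∀ m j, h (m + mv M j) = h m := by
    intro m j
    have : M.det ∣ nu M (m + mv M j - m₀) ↔ M.det ∣ nu M (m - m₀) := by
      rw [show m + mv M j - m₀ = (m - m₀) + mv M j by abel, nu_add, nu_mv]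
      exact (Int.dvd_add_left (dvd_mul_right _ _))
    simp only [h]
    rw [if_congr this rfl rfl]
  have hs := hR.sum h hinv t
  have hle : ∀ m, h m + h (m + t) ≤ 1 := by
    intro m
    simp only [h]
    by_cases h1 : M.det ∣ nu M (m - m₀)
    · have h2 : ¬ M.det ∣ nu M (m + t - m₀) := by
        rw [show m + t - m₀ = (m - m₀) + t by abel, nu_add]
        intro h3
        exact ht ((Int.dvd_add_right h1).mp h3)
      rw [if_pos h1, if_neg h2]; norm_num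
    · rw [if_neg h1]
      split_ifs <;> norm_num
  have h3 : ∑ m ∈ R, h m + ∑ m ∈ R, h (m + t) ≤ R.card := by
    rw [← Finset.sum_add_distrib]
    calc ∑ m ∈ R, (h m + h (m + t)) ≤ ∑ m ∈ R, (1 : ℝ) := Finset.sum_le_sum fun m _ => hle m
      _ = R.card := by simp
  rw [hs] at h3
  have h4 : ∑ m ∈ R, h m = ((R.filter fun m => M.det ∣ nu M (m - m₀)).card : ℝ) := by
    simp only [h]
    rw [← Finset.sum_filter, Finset.sum_const, nsmul_eq_mul, mul_one]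
  rw [h4] at h3
  have : ((2 * (R.filter fun m => M.det ∣ nu M (m - m₀)).card : ℕ) : ℝ) ≤ (R.card : ℝ) := by
    push_cast; linarith
  exact_mod_cast this

theorem norm_eq_one {ℓ : ℕ} [Fact ℓ.Prime] {z : ℤ} (hz : z ≠ 0) (hl : |z| < ℓ) :
    ‖(z : ℚ_[ℓ])‖ = 1 := by
  have h1 := Padic.norm_int_le_one (p := ℓ) z
  refine le_antisymm h1 ?_
  by_contra hc
  push Not at hc
  rw [Padic.norm_intCast_lt_one_iff] at hc
  have := Int.le_of_dvd (abs_pos.mpr hz) ((dvd_abs _ _).mpr hc)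
  omega

/-- the hypotheses on the prime and on the parameter -/
theorem exists_hyp (M : Mt) (hΔ : M.det ≠ 0) (ha : M.a ≠ 0) {θ : ℝ} (hθ : 0 < θ) (B : ℝ) :
    ∃ (ℓ : ℕ) (_ : Fact ℓ.Prime) (q : ℚ), Hyp M θ ℓ (q : ℚ_[ℓ]) ∧ B ≤ (q : ℝ) ∧ 0 < (q : ℝ) := by
  obtain ⟨N, hN⟩ := exists_nat_gt (2 * A θ + |(M.det : ℝ)| + |(M.a : ℝ)| + 2)
  obtain ⟨ℓ, hℓN, hℓ⟩ := Nat.exists_infinite_primes N
  have hA := A_pos hθ
  have hℓ' : 2 * A θ + |(M.det : ℝ)| + |(M.a : ℝ)| + 2 < ℓ :=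
    hN.trans_le (by exact_mod_cast hℓN)
  have hd0 := abs_nonneg (M.det : ℝ)
  have ha0 := abs_nonneg (M.a : ℝ)
  have : Fact ℓ.Prime := ⟨hℓ⟩
  obtain ⟨k, hk⟩ := exists_nat_gt B
  have hℓ0 : (ℓ : ℚ) ≠ 0 := by exact_mod_cast hℓ.ne_zero
  have hℓr : (0 : ℝ) < ℓ := by exact_mod_cast hℓ.pos
  have hT : ‖(((k : ℤ) * ℓ + 1 : ℤ) : ℚ_[ℓ])‖ = 1 := by
    have h1 := Padic.norm_int_le_one (p := ℓ) ((k : ℤ) * ℓ + 1)
    refine le_antisymm h1 ?_
    by_contra hc
    push Not at hc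
    rw [Padic.norm_intCast_lt_one_iff] at hc
    have : (ℓ : ℤ) ∣ 1 := (Int.dvd_add_right (dvd_mul_left (ℓ : ℤ) k)).mp hc
    have := Int.eq_one_of_dvd_one (by positivity) this
    exact hℓ.one_lt.ne' (by exact_mod_cast this)
  refine ⟨ℓ, ⟨hℓ⟩, (k : ℚ) + 1 / ℓ, ?_, ?_, ?_⟩
  · have hlamell : (((k : ℚ) + 1 / ℓ : ℚ) : ℚ_[ℓ]) * ℓ = (((k : ℤ) * ℓ + 1 : ℤ) : ℚ_[ℓ]) := by
      have hℓK : (ℓ : ℚ_[ℓ]) ≠ 0 := by exact_mod_cast hℓ.ne_zero
      push_cast
      field_simp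
    refine ⟨by linarith, ?_, ?_, ?_, ?_, ?_, ?_⟩
    · have h1 : ‖(((k : ℚ) + 1 / ℓ : ℚ) : ℚ_[ℓ])‖ * ‖(ℓ : ℚ_[ℓ])‖ = 1 := by
        rw [← norm_mul, hlamell, hT]
      rw [Padic.norm_p, mul_inv_eq_one₀ hℓr.ne'] at h1
      exact h1
    · rw [hlamell, hT]
    · apply norm_eq_one hΔ
      have : ((|M.det| : ℤ) : ℝ) < ((ℓ : ℤ) : ℝ) := by push_cast; linarith
      exact_mod_cast this
    · apply norm_eq_one ha
      have : ((|M.a| : ℤ) : ℝ) < ((ℓ : ℤ) : ℝ) := by push_cast; linarith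
      exact_mod_cast this
    · intro n hn hnA
      apply norm_eq_one
      · rintro rfl; exact absurd hn (by decide)
      · have : ((|n| : ℤ) : ℝ) < ((ℓ : ℤ) : ℝ) := by push_cast; linarith
        exact_mod_cast this
    · intro n n' hnA hnA' hne
      rw [← Int.cast_sub]
      apply norm_eq_one (sub_ne_zero.mpr hne)
      have h1 : |(n : ℝ) - n'| ≤ |(n : ℝ)| + |(n' : ℝ)| := abs_sub _ _
      have : ((|n - n'| : ℤ) : ℝ) < ((ℓ : ℤ) : ℝ) := by push_cast; linarith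
      exact_mod_cast this
  · push_cast
    have : (0 : ℝ) < 1 / (ℓ : ℝ) := by positivity
    linarith
  · push_cast
    positivity

section

variable {ℓ : ℕ} [Fact ℓ.Prime] {θ : ℝ} {π : ℝ → ℚ_[ℓ]}

theorem bz_le_en (hπ : IsPi ℓ θ π) {M : Mt} {q : ℚ} (H : Hyp M θ ℓ (q : ℚ_[ℓ])) (hθ : 0 < θ)
    (R : Finset (ℤ × ℤ)) (x : ℝ × ℝ) :
    bz R M θ (fun y => (q : ℝ) * S θ y) x ≤ (2 * R.card) * en π M x := by
  classical
  have hA : ∀ y, |(nn θ y : ℝ)| ≤ A θ := abs_nn_le hθ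
  have hen := en_nonneg (π := π) M x
  have key : ∀ m ∈ R, ((if bd θ (einv M (x + zc m)).2 = 0 then (1 : ℝ) else 0) +
      (if bd θ (bW M (fun y => (q : ℝ) * S θ y) (x + zc m)) = 0 then 1 else 0)) ≤
      2 * en π M x := by
    intro m _
    have h1 : (if bd θ (einv M (x + zc m)).2 = 0 then (1 : ℝ) else 0) ≤ en π M x := by
      split_ifs with h
      · have h2 := hπ.norm_lt_of_mem (bd_eq_zero h)
        have h3 : π (einv M (x + zc m)).2 = sy π M x := sy_add hπ M x m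
        rw [h3] at h2
        unfold en
        rw [if_neg]
        intro hE
        linarith [hE.1]
      · exact hen
    have h2 : (if bd θ (bW M (fun y => (q : ℝ) * S θ y) (x + zc m)) = 0 then (1 : ℝ) else 0) ≤
        en π M x := by
      split_ifs with h
      · have h2 := hπ.norm_lt_of_mem (bd_eq_zero h)
        obtain ⟨h3, _, _⟩ := shadow_child (θ := θ) hπ M q x m
        rw [h3] at h2
        unfold en
        rw [if_neg]
        intro hE
        have h4 := norm_sw_of_esc H (nn_odd θ _) (hA _) hE (n := lt M θ x m)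
        rw [h4] at h2
        have := H.one_lt
        nlinarith [hE.1]
      · exact hen
    linarith
  unfold bz
  calc _ ≤ ∑ m ∈ R, 2 * en π M x := by
        refine Finset.sum_le_sum fun m hm => ?_
        convert key m hm
    _ = (2 * R.card) * en π M x := by rw [Finset.sum_const, nsmul_eq_mul]; ring

end

/-- the main estimate: contraction of a negative moment -/
theorem exists_contraction (M : Mt) (hΔ : M.det ≠ 0) (ha : M.a ≠ 0)
    {t : ℤ × ℤ} (ht : ¬ M.det ∣ nu M t) {R : Finset (ℤ × ℤ)} (hR : Res M R) :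
    ∃ f : ℝ → ℝ, ContDiff ℝ ∞ f ∧ Per f ∧ ∃ Λ : ℝ, 0 ≤ Λ ∧ (∀ y, |deriv f y| ≤ Λ) ∧
      ∃ (n : ℕ) (s ρ : ℝ), 0 < s ∧ s ≤ 1 ∧ 0 < ρ ∧ ρ < 1 ∧ ∀ x v, v ≠ 0 →
        (av2 R M f)^[n] (fun _ v => ‖v‖ ^ (-s)) x v ≤ ρ * ‖v‖ ^ (-s) := by
  have hD := one_le_abs_det hΔ
  have hc1 := one_le_c1 ha
  have hRc := hR.card_pos
  have hRr : (1 : ℝ) ≤ R.card := by exact_mod_cast hRc
  have hhalf := half_of_res hR ht
  -- the irrational number
  obtain ⟨θ, hθirr, hθ0, hθ1⟩ := exists_irrational_btwn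
    (show (0 : ℝ) < 1 / (4 * |(M.det : ℝ)|) by positivity)
  have hs : 4 * θ * |(M.det : ℝ)| ≤ 1 := by
    rw [lt_div_iff₀ (by positivity)] at hθ1
    linarith
  have hA := A_pos hθ0
  -- the parameter
  set D := |(M.det : ℝ)| with hDdef
  set B : ℝ := 800 * D ^ 2 * c1 M * A θ ^ 2 + 4 * c1 M * D + 4 * (|(M.c : ℝ)| + 1) with hB
  obtain ⟨ℓ, hℓ, q, H, hq1, hq0⟩ := exists_hyp M hΔ ha hθ0 B
  obtain ⟨π, hπ⟩ := exists_pi ℓ hθirr
  set lam : ℝ := (q : ℝ) with hlam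
  have hcc := abs_nonneg (M.c : ℝ)
  have hb1 : 800 * D ^ 2 * c1 M * A θ ^ 2 ≤ lam := by
    have : 0 ≤ 4 * c1 M * D := by positivity
    linarith
  have hb2 : 4 * c1 M * D ≤ lam := by
    have : 0 ≤ 800 * D ^ 2 * c1 M * A θ ^ 2 := by positivity
    linarith
  have hb3 : 4 * (|(M.c : ℝ)| + 1) ≤ lam := by
    have : 0 ≤ 800 * D ^ 2 * c1 M * A θ ^ 2 := by positivity
    have : 0 ≤ 4 * c1 M * D := by positivity
    linarith
  set f₀ : ℝ → ℝ := fun y => lam * S θ y with hf₀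
  set Λ : ℝ := lam * A θ with hΛdef
  have hΛ : 0 ≤ Λ := by positivity
  have hlip : ∀ y y', |f₀ y - f₀ y'| ≤ Λ * |y - y'| := by
    intro y y'
    simp only [hf₀]
    rw [← mul_sub, abs_mul, abs_of_pos hq0, mul_assoc]
    exact mul_le_mul_of_nonneg_left (S_lip hθ0 y y') hq0.le
  have hper : Per f₀ := by
    intro y k
    simp only [hf₀]
    rw [S_add_int]
  have hcont : Continuous f₀ := continuous_const.mul (S_cont hθ0)
  have hcount : ∀ g x, (avg R M f₀)^[g] (bz R M θ f₀) x ≤ 4 * R.card * (1 / 2) ^ g := by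
    intro g x
    have h1 : (avg R M f₀)^[g] (bz R M θ f₀) x ≤
        (avg R M f₀)^[g] (fun y => (2 * R.card) * en π M y) x :=
      avg_iter_mono (fun y => bz_le_en hπ H hθ0 R y) g x
    rw [avg_iter_const_mul] at h1
    have h2 := (count hπ H hθ0 hΔ hs hhalf g x).2.2
    have h3 : (2 * (R.card : ℝ)) * (avg R M f₀)^[g] (en π M) x ≤
        (2 * R.card) * (2 * (1 / 2) ^ g) := by
      apply mul_le_mul_of_nonneg_left h2 (by positivity)
    linarith
  set P : ℝ := 72 * R.card + 2 with hP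
  set n : ℕ := 216 * R.card + 6 with hn
  obtain ⟨ε₀, hε₀, η₀, hη₀, hbad⟩ := exists_bad hΔ hΛ hlip hper hcont hR θ hcount n
  set ε : ℝ := min ε₀ (η₀ / Λ) with hε
  have hΛpos : 0 < Λ := by positivity
  have hε0 : 0 < ε := by positivity
  obtain ⟨T, hT1, hT2, hT3, hT4, hT5⟩ := exists_smooth hθ0 hε0
  set f : ℝ → ℝ := fun y => lam * T y with hf
  have hderiv : ∀ y, deriv f y = lam * deriv T y := by
    intro y
    simp only [hf]
    exact deriv_const_mul _ (hT1.differentiable (by simp)).differentiableAt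
  have hbound : ∀ y, |deriv f y| ≤ Λ := by
    intro y
    rw [hderiv, abs_mul, abs_of_pos hq0]
    exact mul_le_mul_of_nonneg_left (hT4 y) hq0.le
  have hclose : ∀ y, |f y - f₀ y| ≤ η₀ := by
    intro y
    simp only [hf, hf₀]
    rw [← mul_sub, abs_mul, abs_of_pos hq0]
    calc lam * |T y - S θ y| ≤ lam * (A θ * ε) := mul_le_mul_of_nonneg_left (hT3 y) hq0.le
      _ = Λ * ε := by rw [hΛdef]; ring
      _ ≤ Λ * (η₀ / Λ) := mul_le_mul_of_nonneg_left (min_le_right _ _) hΛ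
      _ = η₀ := by field_simp
  have hG : Gr R M θ ε lam Λ f := by
    refine ⟨hRc, hhalf, hΔ, ha, hθ0, hs, hΛ, hbound, ?_, hb2, hb3⟩
    intro y hy
    rw [hderiv, hT5 y hy]
  have hb := hbad f hclose ε (min_le_left _ _)
  -- the size of the logarithms
  have hAp : 0 < A θ := by linarith
  have hlam1 : 800 ≤ lam := by
    have h1 : 1 ≤ D ^ 2 * c1 M * A θ ^ 2 := by
      have e1 : 1 ≤ D ^ 2 := one_le_pow₀ hD
      have e2 : 1 ≤ A θ ^ 2 := one_le_pow₀ hA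
      have e3 : 1 ≤ D ^ 2 * c1 M := one_le_mul_of_one_le_of_one_le e1 hc1
      exact one_le_mul_of_one_le_of_one_le e3 e2
    nlinarith
  have hL1pos : 0 < lam ^ 2 / (8 * D) := by positivity
  have hQpos : 0 < Qc M Λ := by linarith [one_le_Qc (M := M) ha hΛ]
  have hL2 : 0 ≤ Real.log (Qc M Λ) := Real.log_nonneg (one_le_Qc ha hΛ)
  have hL1 : 0 ≤ Real.log (lam ^ 2 / (8 * D)) := by
    apply Real.log_nonneg
    rw [le_div_iff₀ (by positivity)]
    have : 8 * D ≤ lam * 800 := by nlinarith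
    nlinarith
  have hdiff : 1 ≤ 2 * Real.log (lam ^ 2 / (8 * D)) - Real.log (Qc M Λ) := by
    have e1 : 2 * Real.log (lam ^ 2 / (8 * D)) - Real.log (Qc M Λ) =
        Real.log ((lam ^ 2 / (8 * D)) ^ 2 / Qc M Λ) := by
      rw [Real.log_div (by positivity) hQpos.ne', Real.log_pow]
      push_cast; ring
    rw [e1, Real.le_log_iff_exp_le (by positivity), le_div_iff₀ hQpos]
    have h1 : Real.exp 1 ≤ 3 := by
      have := Real.exp_one_lt_d9
      linarith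
    have h2 : Qc M Λ ≤ 4 * lam ^ 2 * A θ ^ 2 * c1 M := by
      unfold Qc
      have h3 : 1 + Λ ≤ 2 * (lam * A θ) := by
        have : 1 ≤ lam * A θ := one_le_mul_of_one_le_of_one_le (by linarith) hA
        linarith
      have h4 : (1 + Λ) ^ 2 ≤ (2 * (lam * A θ)) ^ 2 := pow_le_pow_left₀ (by positivity) h3 2
      calc (1 + Λ) ^ 2 * c1 M ≤ (2 * (lam * A θ)) ^ 2 * c1 M := by gcongr
        _ = 4 * lam ^ 2 * A θ ^ 2 * c1 M := by ring
    have h5 : (lam ^ 2 / (8 * D)) ^ 2 = lam ^ 2 * (lam ^ 2 / (64 * D ^ 2)) := by ring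
    rw [h5]
    have h6 : 12 * A θ ^ 2 * c1 M ≤ lam ^ 2 / (64 * D ^ 2) := by
      rw [le_div_iff₀ (by positivity)]
      have h7 : 12 * A θ ^ 2 * c1 M * (64 * D ^ 2) ≤ 800 * D ^ 2 * c1 M * A θ ^ 2 := by
        have : 0 ≤ D ^ 2 * c1 M * A θ ^ 2 := by positivity
        nlinarith
      nlinarith
    calc Real.exp 1 * Qc M Λ ≤ 3 * (4 * lam ^ 2 * A θ ^ 2 * c1 M) := by gcongr
      _ = lam ^ 2 * (12 * A θ ^ 2 * c1 M) := by ring
      _ ≤ lam ^ 2 * (lam ^ 2 / (64 * D ^ 2)) := by gcongr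
  have hlog : ∀ x v, v ≠ 0 →
      Real.log ‖v‖ + P ≤ (av2 R M f)^[n] (fun _ v => Real.log ‖v‖) x v := by
    intro x v hv
    have h1 := log_iter hG (N := 12 * R.card) hb (by linarith) n le_rfl x hv
    refine le_trans ?_ h1
    have h2 : 0 ≤ (2 * (12 * (R.card : ℝ) + 1) + 4 * (12 * R.card) + 4 * (12 * R.card) * n) *
        (1 / 2) ^ n := by positivity
    have h3 : (n : ℝ) = 3 * P := by rw [hn, hP]; push_cast; ring
    have h4 : 2 * (12 * (R.card : ℝ) + 1) + 4 * (12 * R.card) = P := by rw [hP]; ring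
    rw [h4] at h2 ⊢
    set L1 := Real.log (lam ^ 2 / (8 * D))
    set L2 := Real.log (Qc M Λ)
    have h5 : 0 ≤ (L1 + L2) * ((P + 4 * (12 * R.card) * n) * (1 / 2) ^ n) :=
      mul_nonneg (by linarith) h2
    have hP0 : 0 ≤ P := by positivity
    have h6 : P * 1 ≤ P * (2 * L1 - L2) := mul_le_mul_of_nonneg_left hdiff hP0
    rw [h3] at h5 ⊢
    nlinarith
  have hP1 : 0 < P := by positivity
  obtain ⟨s, hs0, hs1, ρ, hρ0, hρ1, hmom⟩ := moment hG hP1 hlog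
  refine ⟨f, contDiff_const.mul hT1, ?_, Λ, hΛ, hbound, n, s, ρ, hs0, hs1, hρ0, hρ1, hmom⟩
  intro y k
  simp only [hf]
  rw [hT2]

end Pool.Agent.NUH
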