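import Pool.Agent.NUH.Grow

/-!
# From the growth of the logarithm to the decay of a small negative moment
-/

set_option autoImplicit false

namespace Pool.Agent.NUH

section

variable {R : Finset (ℤ × ℤ)} {M : Mt} {θ ε lam Λ : ℝ} {f : ℝ → ℝ}

/-- monotonicity on the vectors which can be reached -/
theorem av2_iter_mono_depth (G : Gr R M θ ε lam Λ f) {Ψ Φ : ℝ × ℝ → ℝ × ℝ → ℝ} (l : ℝ) (n : ℕ) :
    ∀ k : ℕ, (∀ x v, v ≠ 0 → |Real.log ‖v‖ - l| ≤ ((k + n : ℕ) : ℝ) * Real.log (Qc M Λ) →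
      Ψ x v ≤ Φ x v) → ∀ x v, v ≠ 0 → |Real.log ‖v‖ - l| ≤ (k : ℝ) * Real.log (Qc M Λ) →
      (av2 R M f)^[n] Ψ x v ≤ (av2 R M f)^[n] Φ x v := by
  induction n with
  | zero => intro k h x v hv hl; exact h x v hv (by simpa using hl)
  | succ n ih =>
    intro k h x v hv hl
    rw [Function.iterate_succ_apply', Function.iterate_succ_apply']
    unfold av2
    apply div_le_div_of_nonneg_right _ (Nat.cast_nonneg _)
    apply Finset.sum_le_sum
    intro m _
    apply ih (k + 1)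
    · intro x v hv hl
      apply h x v hv
      have : ((k + (n + 1) : ℕ) : ℝ) = ((k + 1 + n : ℕ) : ℝ) := by push_cast; ring
      rwa [this]
    · exact Kd_ne_zero G.det G.hΛ G.bound _ hv
    · have h1 := log_Kd G.det G.ha G.hΛ G.bound (x + zc m) hv
      have e : Real.log ‖Kd M f (x + zc m) v‖ - l =
          (Real.log ‖Kd M f (x + zc m) v‖ - Real.log ‖v‖) + (Real.log ‖v‖ - l) := by ring
      rw [e]
      refine (abs_add_le _ _).trans ?_
      push_cast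
      linarith

theorem moment (G : Gr R M θ ε lam Λ f) {n : ℕ} {κ : ℝ} (hκ : 0 < κ)
    (hlog : ∀ x v, v ≠ 0 → Real.log ‖v‖ + κ ≤ (av2 R M f)^[n] (fun _ v => Real.log ‖v‖) x v) :
    ∃ s : ℝ, 0 < s ∧ s ≤ 1 ∧ ∃ ρ : ℝ, 0 < ρ ∧ ρ < 1 ∧ ∀ x v, v ≠ 0 →
      (av2 R M f)^[n] (fun _ v => ‖v‖ ^ (-s)) x v ≤ ρ * ‖v‖ ^ (-s) := by
  have hL : 0 ≤ Real.log (Qc M Λ) := Real.log_nonneg (one_le_Qc G.ha G.hΛ)
  set K : ℝ := n * Real.log (Qc M Λ) + 1 with hK
  have hK1 : 1 ≤ K := by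
    have : 0 ≤ n * Real.log (Qc M Λ) := by positivity
    linarith
  set s : ℝ := min (1 / K) (min (κ / (2 * K ^ 2)) (1 / κ)) with hs
  have hs0 : 0 < s := by positivity
  have hs1 : s * K ≤ 1 := by
    have : s ≤ 1 / K := min_le_left _ _
    rwa [le_div_iff₀ (by linarith)] at this
  have hs2 : s * K ^ 2 ≤ κ / 2 := by
    have : s ≤ κ / (2 * K ^ 2) := (min_le_right _ _).trans (min_le_left _ _)
    rw [le_div_iff₀ (by positivity)] at this
    linarith
  have hs3 : s * κ ≤ 1 := by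
    have : s ≤ 1 / κ := (min_le_right _ _).trans (min_le_right _ _)
    rwa [le_div_iff₀ hκ] at this
  refine ⟨s, hs0, by nlinarith, 1 - s * κ / 2, by linarith, by nlinarith, ?_⟩
  intro x v hv
  have hv0 : 0 < ‖v‖ := norm_pos_iff.mpr hv
  set l := Real.log ‖v‖ with hl
  set c := ‖v‖ ^ (-s) with hc
  have hc0 : 0 < c := Real.rpow_pos_of_pos hv0 _
  have h1 := av2_iter_mono_depth G (Ψ := fun _ v => ‖v‖ ^ (-s))
    (Φ := fun _ v => (c * (1 + s * l + s ^ 2 * K ^ 2)) + (-(c * s)) * Real.log ‖v‖ +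
      0 * Real.log ‖v‖) l n 0 ?_ x v hv ?_
  · rw [av2_iter_lin G.hR] at h1
    have h2 := hlog x v hv
    have h3 : c * s * (l + κ) ≤ c * s * (av2 R M f)^[n] (fun _ v => Real.log ‖v‖) x v := by
      apply mul_le_mul_of_nonneg_left h2 (by positivity)
    have h4 : c * (s * (s * K ^ 2)) ≤ c * (s * (κ / 2)) := by gcongr
    nlinarith
  · intro x' v' hv' hl'
    have hv0' : 0 < ‖v'‖ := norm_pos_iff.mpr hv'
    rw [Nat.zero_add] at hl'
    have e : ‖v'‖ ^ (-s) = c * Real.exp (-(s * (Real.log ‖v'‖ - l))) := by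
      rw [hc, Real.rpow_def_of_pos hv0', Real.rpow_def_of_pos hv0, ← Real.exp_add, hl]
      congr 1; ring
    have hb : |-(s * (Real.log ‖v'‖ - l))| ≤ s * K := by
      rw [abs_neg, abs_mul, abs_of_pos hs0]
      gcongr
      linarith
    have h5 := Real.abs_exp_sub_one_sub_id_le (hb.trans hs1)
    have h6 : (-(s * (Real.log ‖v'‖ - l))) ^ 2 ≤ (s * K) ^ 2 := by
      rw [← sq_abs]
      exact pow_le_pow_left₀ (abs_nonneg _) hb 2
    have h7 : Real.exp (-(s * (Real.log ‖v'‖ - l))) ≤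
        1 - s * (Real.log ‖v'‖ - l) + s ^ 2 * K ^ 2 := by
      have := (abs_le.mp h5).2
      nlinarith
    rw [e]
    calc c * Real.exp (-(s * (Real.log ‖v'‖ - l)))
        ≤ c * (1 - s * (Real.log ‖v'‖ - l) + s ^ 2 * K ^ 2) := by gcongr
      _ = _ := by ring
  · rw [← hl]; simp

end

end Pool.Agent.NUH
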