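import Mathlib

/-!
# A periodic piecewise linear function with distinct odd slopes

`S θ` is the 1-periodic function which on `[0,1)` is the minimum over the odd integers `n` of
`θ n² + n (t - 1/2)`.
-/

set_option autoImplicit false

namespace Pool.Agent.NUH

/-- the odd integer minimising `θ n² + n (t - 1/2)` -/
noncomputable def n0 (θ t : ℝ) : ℤ := 2 * ⌊(1 / 2 - t) / (4 * θ)⌋ + 1

/-- the minimum of `θ n² + n (t - 1/2)` over odd `n` -/
noncomputable def m0 (θ t : ℝ) : ℝ := θ * (n0 θ t : ℝ) ^ 2 + (n0 θ t : ℝ) * (t - 1 / 2)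

/-- the slope -/
noncomputable def nn (θ y : ℝ) : ℤ := n0 θ (Int.fract y)

/-- the piecewise linear periodic function -/
noncomputable def S (θ y : ℝ) : ℝ := m0 θ (Int.fract y)

/-- bound for the slopes -/
noncomputable def A (θ : ℝ) : ℝ := 1 / (4 * θ) + 1

theorem S_add_int (θ y : ℝ) (k : ℤ) : S θ (y + k) = S θ y := by
  unfold S; rw [Int.fract_add_intCast]

theorem nn_add_int (θ y : ℝ) (k : ℤ) : nn θ (y + k) = nn θ y := by
  unfold nn; rw [Int.fract_add_intCast]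

theorem n0_odd (θ t : ℝ) : Odd (n0 θ t) := ⟨_, rfl⟩

theorem nn_odd (θ y : ℝ) : Odd (nn θ y) := n0_odd _ _

theorem one_le_abs_nn (θ y : ℝ) : 1 ≤ |nn θ y| := by
  have h := nn_odd θ y
  have : nn θ y ≠ 0 := by
    intro h0; rw [h0] at h; exact absurd h (by decide)
  exact Int.one_le_abs this

theorem abs_n0_le {θ : ℝ} (hθ : 0 < θ) {t : ℝ} (h0 : 0 ≤ t) (h1 : t ≤ 1) :
    |(n0 θ t : ℝ)| ≤ A θ := by
  unfold n0 A
  set s := (1 / 2 - t) / (4 * θ) with hs
  have hs1 : s ≤ 1 / 2 / (4 * θ) := by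
    rw [hs]; gcongr; linarith
  have hs2 : -(1 / 2 / (4 * θ)) ≤ s := by
    rw [hs, ← neg_div]; gcongr; linarith
  have h3 := Int.floor_le s
  have h4 := Int.lt_floor_add_one s
  have e : (1 : ℝ) / 2 / (4 * θ) = 1 / (4 * θ) / 2 := by ring
  rw [e] at hs1 hs2
  push_cast
  rw [abs_le]
  constructor <;> linarith

theorem abs_nn_le {θ : ℝ} (hθ : 0 < θ) (y : ℝ) : |(nn θ y : ℝ)| ≤ A θ :=
  abs_n0_le hθ (Int.fract_nonneg y) (Int.fract_lt_one y).le

theorem A_pos {θ : ℝ} (hθ : 0 < θ) : 1 ≤ A θ := by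
  unfold A
  have : 0 < 1 / (4 * θ) := by positivity
  linarith

/-- minimality -/
theorem m0_le {θ : ℝ} (hθ : 0 < θ) (t : ℝ) (k : ℤ) (hk : Odd k) :
    m0 θ t ≤ θ * (k : ℝ) ^ 2 + (k : ℝ) * (t - 1 / 2) := by
  set s := (1 / 2 - t) / (4 * θ) with hs
  have ht : t - 1 / 2 = -(4 * θ * s) := by
    rw [hs]; field_simp; ring
  have hn : n0 θ t = 2 * ⌊s⌋ + 1 := rfl
  have h3 := Int.floor_le s
  have h4 := Int.lt_floor_add_one s
  unfold m0
  rw [ht]
  have key : ((n0 θ t : ℝ) - 2 * s) ^ 2 ≤ ((k : ℝ) - 2 * s) ^ 2 := by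
    by_cases hkn : k = n0 θ t
    · rw [hkn]
    · have h5 : (k - n0 θ t) ≠ 0 := sub_ne_zero.mpr hkn
      have h6 : Even (k - n0 θ t) := hk.sub_odd (n0_odd θ t)
      have h7 : 2 ≤ |k - n0 θ t| := by
        obtain ⟨c, hc⟩ := h6
        rw [hc] at h5 ⊢
        have : c ≠ 0 := by rintro rfl; simp at h5
        have := Int.one_le_abs this
        rw [← two_mul, abs_mul]
        norm_num
        linarith
      have h8 : (2 : ℝ) ≤ |(k : ℝ) - n0 θ t| := by exact_mod_cast h7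
      have h9 : |(n0 θ t : ℝ) - 2 * s| ≤ 1 := by
        rw [hn]; push_cast; rw [abs_le]; constructor <;> linarith
      have h10 : 1 ≤ |(k : ℝ) - 2 * s| := by
        have := abs_sub_abs_le_abs_sub ((k : ℝ) - n0 θ t) (2 * s - n0 θ t)
        have e : (k : ℝ) - n0 θ t - (2 * s - n0 θ t) = k - 2 * s := by ring
        rw [e, abs_sub_comm (2 * s)] at this
        linarith
      rw [sq_le_sq]
      linarith
  nlinarith

theorem m0_symm {θ : ℝ} (hθ : 0 < θ) (t : ℝ) : m0 θ (1 - t) = m0 θ t := by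
  have key : ∀ t, m0 θ (1 - t) ≤ m0 θ t := by
    intro t
    have h := m0_le hθ (1 - t) (-(n0 θ t)) (n0_odd θ t).neg
    refine h.trans (le_of_eq ?_)
    unfold m0
    push_cast
    ring
  apply le_antisymm (key t)
  have := key (1 - t)
  rwa [sub_sub_cancel] at this

theorem m0_lip {θ : ℝ} (hθ : 0 < θ) {t t' : ℝ} (h0 : 0 ≤ t) (h1 : t ≤ 1) (h0' : 0 ≤ t')
    (h1' : t' ≤ 1) : |m0 θ t - m0 θ t'| ≤ A θ * |t - t'| := by
  have key : ∀ t t' : ℝ, 0 ≤ t → t ≤ 1 → m0 θ t' - m0 θ t ≤ A θ * |t - t'| := by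
    intro t t' h0 h1
    have h := m0_le hθ t' (n0 θ t) (n0_odd θ t)
    have h2 : m0 θ t' - m0 θ t ≤ (n0 θ t : ℝ) * (t' - t) := by
      have e : m0 θ t = θ * (n0 θ t : ℝ) ^ 2 + (n0 θ t : ℝ) * (t - 1 / 2) := rfl
      linarith
    refine h2.trans ?_
    calc (n0 θ t : ℝ) * (t' - t) ≤ |(n0 θ t : ℝ) * (t' - t)| := le_abs_self _
      _ = |(n0 θ t : ℝ)| * |t - t'| := by rw [abs_mul, abs_sub_comm]
      _ ≤ A θ * |t - t'| := by gcongr; exact abs_n0_le hθ h0 h1
  rw [abs_le]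
  constructor
  · have := key t t' h0 h1
    linarith
  · have := key t' t h0' h1'
    rw [abs_sub_comm] at this
    linarith

theorem S_lip {θ : ℝ} (hθ : 0 < θ) (y y' : ℝ) : |S θ y - S θ y'| ≤ A θ * |y - y'| := by
  wlog h : y ≤ y' generalizing y y'
  · have := this y' y (le_of_not_ge h)
    rwa [abs_sub_comm, abs_sub_comm y'] at this
  have e : |y - y'| = y' - y := by rw [abs_sub_comm, abs_of_nonneg (by linarith)]
  rw [e]
  have hf := Int.fract_nonneg y
  have hf1 := (Int.fract_lt_one y).le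
  have hf' := Int.fract_nonneg y'
  have hf1' := (Int.fract_lt_one y').le
  have hy := Int.floor_add_fract y
  have hy' := Int.floor_add_fract y'
  have hA := A_pos hθ
  unfold S
  rcases (Int.floor_mono h).eq_or_lt with h1 | h1
  · have h2 := m0_lip hθ hf hf1 hf' hf1'
    have e2 : |Int.fract y - Int.fract y'| = y' - y := by
      rw [← e]; congr 1
      have : (⌊y⌋ : ℝ) = ⌊y'⌋ := by exact_mod_cast h1
      linarith
    rwa [e2] at h2
  · have h2 : (⌊y⌋ : ℝ) + 1 ≤ ⌊y'⌋ := by exact_mod_cast h1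
    have h3 := m0_lip hθ hf hf1 (zero_le_one) le_rfl
    have h4 := m0_lip hθ (le_refl 0) (zero_le_one) hf' hf1'
    have h5 : m0 θ 1 = m0 θ 0 := by
      have := m0_symm hθ 0
      simpa using this
    rw [h5] at h3
    have e3 : |Int.fract y - 1| = 1 - Int.fract y := by
      rw [abs_sub_comm, abs_of_nonneg (by linarith)]
    have e4 : |(0 : ℝ) - Int.fract y'| = Int.fract y' := by
      rw [zero_sub, abs_neg, abs_of_nonneg hf']
    rw [e3] at h3
    rw [e4] at h4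
    have h6 : |m0 θ (Int.fract y) - m0 θ (Int.fract y')| ≤
        |m0 θ (Int.fract y) - m0 θ 0| + |m0 θ 0 - m0 θ (Int.fract y')| := abs_sub_le _ _ _
    have h7 : A θ * (1 - Int.fract y) + A θ * Int.fract y' ≤ A θ * (y' - y) := by
      rw [← mul_add]
      apply mul_le_mul_of_nonneg_left _ (by linarith)
      linarith
    linarith

end Pool.Agent.NUH
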