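import Pool.Agent.NUH.Close

/-!
# From the piecewise linear map to its smooth approximations
-/

set_option autoImplicit false

namespace Pool.Agent.NUH

/-- Lipschitz functions -/
def LipC (K : ℝ) (φ : ℝ × ℝ → ℝ) : Prop := ∀ x y, |φ x - φ y| ≤ K * ‖x - y‖

/-- norm of the matrix -/
noncomputable def c1 (M : Mt) : ℝ := |(M.a : ℝ)| + |(M.b : ℝ)| + |(M.c : ℝ)| + |(M.d : ℝ)|

theorem c1_nonneg (M : Mt) : 0 ≤ c1 M := by unfold c1; positivity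

theorem one_le_abs_det {M : Mt} (hΔ : M.det ≠ 0) : 1 ≤ |(M.det : ℝ)| := by
  exact_mod_cast Int.one_le_abs hΔ

theorem einv_lin (M : Mt) (x y : ℝ × ℝ) : einv M x - einv M y = einv M (x - y) := by
  unfold einv
  ext <;> simp only [Prod.fst_sub, Prod.snd_sub] <;> ring

theorem einv_bound {M : Mt} (hΔ : M.det ≠ 0) (v : ℝ × ℝ) :
    |(einv M v).1| ≤ c1 M * ‖v‖ ∧ |(einv M v).2| ≤ c1 M * ‖v‖ := by
  have h1 := one_le_abs_det hΔ
  have hv1 : |v.1| ≤ ‖v‖ := norm_fst_le v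
  have hv2 : |v.2| ≤ ‖v‖ := norm_snd_le v
  have hv0 := norm_nonneg v
  unfold einv c1
  constructor
  · simp only
    rw [abs_div, div_le_iff₀ (by linarith)]
    have e : |(M.d : ℝ) * v.1 - M.b * v.2| ≤ |(M.d : ℝ)| * ‖v‖ + |(M.b : ℝ)| * ‖v‖ := by
      refine (abs_sub _ _).trans ?_
      rw [abs_mul, abs_mul]
      gcongr
    have : |(M.d : ℝ)| * ‖v‖ + |(M.b : ℝ)| * ‖v‖ ≤
        (|(M.a : ℝ)| + |(M.b : ℝ)| + |(M.c : ℝ)| + |(M.d : ℝ)|) * ‖v‖ := by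
      nlinarith [abs_nonneg (M.a : ℝ), abs_nonneg (M.c : ℝ)]
    have h2 : 0 ≤ (|(M.a : ℝ)| + |(M.b : ℝ)| + |(M.c : ℝ)| + |(M.d : ℝ)|) * ‖v‖ := by positivity
    nlinarith
  · simp only
    rw [abs_div, div_le_iff₀ (by linarith)]
    have e : |-(M.c : ℝ) * v.1 + M.a * v.2| ≤ |(M.c : ℝ)| * ‖v‖ + |(M.a : ℝ)| * ‖v‖ := by
      refine (abs_add_le _ _).trans ?_
      rw [abs_mul, abs_mul, abs_neg]
      gcongr
    have : |(M.c : ℝ)| * ‖v‖ + |(M.a : ℝ)| * ‖v‖ ≤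
        (|(M.a : ℝ)| + |(M.b : ℝ)| + |(M.c : ℝ)| + |(M.d : ℝ)|) * ‖v‖ := by
      nlinarith [abs_nonneg (M.b : ℝ), abs_nonneg (M.d : ℝ)]
    have h2 : 0 ≤ (|(M.a : ℝ)| + |(M.b : ℝ)| + |(M.c : ℝ)| + |(M.d : ℝ)|) * ‖v‖ := by positivity
    nlinarith

section

variable {M : Mt} {Λ : ℝ} {f₀ f₁ : ℝ → ℝ} {η : ℝ}

theorem bW_lip (hΔ : M.det ≠ 0) (hΛ : 0 ≤ Λ) (h0 : ∀ y y', |f₀ y - f₀ y'| ≤ Λ * |y - y'|)
    (x y : ℝ × ℝ) : |bW M f₀ x - bW M f₀ y| ≤ (1 + Λ) * c1 M * ‖x - y‖ := by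
  obtain ⟨e1, e2⟩ := einv_bound hΔ (x - y)
  rw [← einv_lin] at e1 e2
  simp only [Prod.fst_sub, Prod.snd_sub] at e1 e2
  unfold bW
  have e : (einv M x).1 - f₀ (einv M x).2 - ((einv M y).1 - f₀ (einv M y).2) =
      ((einv M x).1 - (einv M y).1) - (f₀ (einv M x).2 - f₀ (einv M y).2) := by ring
  rw [e]
  refine (abs_sub _ _).trans ?_
  have h1 := h0 (einv M x).2 (einv M y).2
  have h2 : Λ * |(einv M x).2 - (einv M y).2| ≤ Λ * (c1 M * ‖x - y‖) := by gcongr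
  linarith

theorem br_lip (hΔ : M.det ≠ 0) (hΛ : 0 ≤ Λ) (h0 : ∀ y y', |f₀ y - f₀ y'| ≤ Λ * |y - y'|)
    (x y : ℝ × ℝ) : ‖br M f₀ x - br M f₀ y‖ ≤ (1 + Λ) ^ 2 * c1 M * ‖x - y‖ := by
  obtain ⟨e1, e2⟩ := einv_bound hΔ (x - y)
  rw [← einv_lin] at e1 e2
  simp only [Prod.fst_sub, Prod.snd_sub] at e1 e2
  have hW := bW_lip hΔ hΛ h0 x y
  have hc := c1_nonneg M
  have hn := norm_nonneg (x - y)
  have hcn : 0 ≤ c1 M * ‖x - y‖ := by positivity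
  rw [Prod.norm_def]
  apply max_le
  · show |bW M f₀ x - bW M f₀ y| ≤ _
    refine hW.trans ?_
    nlinarith [mul_nonneg hΛ hcn, mul_nonneg (mul_nonneg hΛ hΛ) hcn]
  · show |(einv M x).2 - f₀ (bW M f₀ x) - ((einv M y).2 - f₀ (bW M f₀ y))| ≤ _
    have e : (einv M x).2 - f₀ (bW M f₀ x) - ((einv M y).2 - f₀ (bW M f₀ y)) =
        ((einv M x).2 - (einv M y).2) - (f₀ (bW M f₀ x) - f₀ (bW M f₀ y)) := by ring
    rw [e]
    refine (abs_sub _ _).trans ?_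
    have h1 := h0 (bW M f₀ x) (bW M f₀ y)
    have h2 : Λ * |bW M f₀ x - bW M f₀ y| ≤ Λ * ((1 + Λ) * c1 M * ‖x - y‖) := by gcongr
    nlinarith [mul_nonneg hΛ hcn]

theorem bW_close (h1 : ∀ y, |f₁ y - f₀ y| ≤ η) (x : ℝ × ℝ) : |bW M f₁ x - bW M f₀ x| ≤ η := by
  unfold bW
  have e : (einv M x).1 - f₁ (einv M x).2 - ((einv M x).1 - f₀ (einv M x).2) =
      -(f₁ (einv M x).2 - f₀ (einv M x).2) := by ring
  rw [e, abs_neg]; exact h1 _

theorem br_close (hΛ : 0 ≤ Λ) (h0 : ∀ y y', |f₀ y - f₀ y'| ≤ Λ * |y - y'|)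
    (h1 : ∀ y, |f₁ y - f₀ y| ≤ η) (x : ℝ × ℝ) : ‖br M f₁ x - br M f₀ x‖ ≤ (1 + Λ) * η := by
  have hW := bW_close (M := M) h1 x
  have hη : 0 ≤ η := (abs_nonneg _).trans hW
  rw [Prod.norm_def]
  apply max_le
  · show |bW M f₁ x - bW M f₀ x| ≤ _
    nlinarith
  · show |(einv M x).2 - f₁ (bW M f₁ x) - ((einv M x).2 - f₀ (bW M f₀ x))| ≤ _
    have e : (einv M x).2 - f₁ (bW M f₁ x) - ((einv M x).2 - f₀ (bW M f₀ x)) =
        -(f₁ (bW M f₁ x) - f₀ (bW M f₁ x)) - (f₀ (bW M f₁ x) - f₀ (bW M f₀ x)) := by ring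
    rw [e]
    refine (abs_sub _ _).trans ?_
    rw [abs_neg]
    have h2 := h0 (bW M f₁ x) (bW M f₀ x)
    have h3 : Λ * |bW M f₁ x - bW M f₀ x| ≤ Λ * η := by gcongr
    have h4 := h1 (bW M f₁ x)
    linarith

variable {R : Finset (ℤ × ℤ)}

theorem avg_diff_le (hR : 0 < R.card) {φ₁ φ₀ : ℝ × ℝ → ℝ} {B : ℝ} (g₁ g₀ : ℝ → ℝ) (x y : ℝ × ℝ)
    (h : ∀ m ∈ R, |φ₁ (br M g₁ (x + zc m)) - φ₀ (br M g₀ (y + zc m))| ≤ B) :
    |avg R M g₁ φ₁ x - avg R M g₀ φ₀ y| ≤ B := by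
  have hc : (0 : ℝ) < R.card := by exact_mod_cast hR
  unfold avg
  rw [← sub_div, ← Finset.sum_sub_distrib, abs_div, abs_of_pos hc, div_le_iff₀ hc]
  refine (Finset.abs_sum_le_sum_abs _ _).trans ?_
  refine (Finset.sum_le_sum h).trans ?_
  rw [Finset.sum_const, nsmul_eq_mul]; linarith

theorem avg_lipC (hΔ : M.det ≠ 0) (hΛ : 0 ≤ Λ) (h0 : ∀ y y', |f₀ y - f₀ y'| ≤ Λ * |y - y'|)
    (hR : 0 < R.card) {K : ℝ} (hK : 0 ≤ K) {φ : ℝ × ℝ → ℝ} (hφ : LipC K φ) :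
    LipC (K * ((1 + Λ) ^ 2 * c1 M)) (avg R M f₀ φ) := by
  intro x y
  apply avg_diff_le hR
  intro m _
  refine (hφ _ _).trans ?_
  have h1 := br_lip hΔ hΛ h0 (x + zc m) (y + zc m)
  rw [add_sub_add_right_eq_sub] at h1
  calc K * ‖br M f₀ (x + zc m) - br M f₀ (y + zc m)‖
      ≤ K * ((1 + Λ) ^ 2 * c1 M * ‖x - y‖) := by gcongr
    _ = K * ((1 + Λ) ^ 2 * c1 M) * ‖x - y‖ := by ring

/-- constants of the iterated perturbation -/
noncomputable def cg (M : Mt) (Λ : ℝ) : ℕ → ℝ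
  | 0 => 0
  | g + 1 => (1 + Λ) + (1 + Λ) ^ 2 * c1 M * cg M Λ g

theorem cg_nonneg (hΛ : 0 ≤ Λ) (g : ℕ) : 0 ≤ cg M Λ g := by
  induction g with
  | zero => exact le_rfl
  | succ g ih =>
    have := c1_nonneg M
    unfold cg; positivity

theorem avg_iter_sup (hR : 0 < R.card) {φ ψ : ℝ × ℝ → ℝ} {B : ℝ}
    (h : ∀ x, |φ x - ψ x| ≤ B) (f : ℝ → ℝ) (g : ℕ) (x : ℝ × ℝ) :
    |(avg R M f)^[g] φ x - (avg R M f)^[g] ψ x| ≤ B := by
  induction g generalizing x with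
  | zero => exact h x
  | succ g ih =>
    rw [Function.iterate_succ_apply', Function.iterate_succ_apply']
    exact avg_diff_le hR _ _ _ _ fun m _ => ih _

theorem avg_iter_close (hΔ : M.det ≠ 0) (hΛ : 0 ≤ Λ)
    (h0 : ∀ y y', |f₀ y - f₀ y'| ≤ Λ * |y - y'|) (h1 : ∀ y, |f₁ y - f₀ y| ≤ η)
    (hR : 0 < R.card) (g : ℕ) {K : ℝ} (hK : 0 ≤ K) {φ : ℝ × ℝ → ℝ} (hφ : LipC K φ) (x : ℝ × ℝ) :
    |(avg R M f₁)^[g] φ x - (avg R M f₀)^[g] φ x| ≤ cg M Λ g * K * η := by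
  induction g generalizing K φ x with
  | zero => simp [cg]
  | succ g ih =>
    rw [Function.iterate_succ_apply, Function.iterate_succ_apply]
    have hc := c1_nonneg M
    have s1 : ∀ y, |avg R M f₁ φ y - avg R M f₀ φ y| ≤ K * ((1 + Λ) * η) := by
      intro y
      apply avg_diff_le hR
      intro m _
      refine (hφ _ _).trans ?_
      have := br_close (M := M) hΛ h0 h1 (y + zc m)
      gcongr
    have s2 := avg_iter_sup (M := M) hR s1 f₁ g x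
    have s3 := ih (by positivity) (avg_lipC hΔ hΛ h0 hR hK hφ) x
    have e : (avg R M f₁)^[g] (avg R M f₁ φ) x - (avg R M f₀)^[g] (avg R M f₀ φ) x =
        ((avg R M f₁)^[g] (avg R M f₁ φ) x - (avg R M f₁)^[g] (avg R M f₀ φ) x) +
        ((avg R M f₁)^[g] (avg R M f₀ φ) x - (avg R M f₀)^[g] (avg R M f₀ φ) x) := by ring
    rw [e]
    refine (abs_add_le _ _).trans ?_
    have e2 : cg M Λ (g + 1) * K * η = K * ((1 + Λ) * η) +
        cg M Λ g * (K * ((1 + Λ) ^ 2 * c1 M)) * η := by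
      show ((1 + Λ) + (1 + Λ) ^ 2 * c1 M * cg M Λ g) * K * η = _
      ring
    rw [e2]
    linarith

theorem bs_lipC (hΔ : M.det ≠ 0) (hΛ : 0 ≤ Λ) (h0 : ∀ y y', |f₀ y - f₀ y'| ≤ Λ * |y - y'|)
    (θ : ℝ) {δ : ℝ} (hδ : 0 < δ) :
    LipC (R.card * ((c1 M + (1 + Λ) * c1 M) / δ)) (bs R M θ δ f₀) := by
  intro x y
  unfold bs
  rw [← Finset.sum_sub_distrib]
  refine (Finset.abs_sum_le_sum_abs _ _).trans ?_
  have key : ∀ m ∈ R, |psi δ (bd θ (einv M (x + zc m)).2) + psi δ (bd θ (bW M f₀ (x + zc m))) -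
      (psi δ (bd θ (einv M (y + zc m)).2) + psi δ (bd θ (bW M f₀ (y + zc m))))| ≤
      (c1 M + (1 + Λ) * c1 M) / δ * ‖x - y‖ := by
    intro m _
    have hn : (x + zc m) - (y + zc m) = x - y := by abel
    have a1 := psi_lip hδ (bd θ (einv M (x + zc m)).2) (bd θ (einv M (y + zc m)).2)
    have a2 := psi_lip hδ (bd θ (bW M f₀ (x + zc m))) (bd θ (bW M f₀ (y + zc m)))
    have b1 := bd_lip θ (einv M (x + zc m)).2 (einv M (y + zc m)).2
    have b2 := bd_lip θ (bW M f₀ (x + zc m)) (bW M f₀ (y + zc m))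
    have c2 := (einv_bound hΔ ((x + zc m) - (y + zc m))).2
    rw [← einv_lin, hn] at c2
    simp only [Prod.snd_sub] at c2
    have c3 := bW_lip hΔ hΛ h0 (x + zc m) (y + zc m)
    rw [hn] at c3
    have e : psi δ (bd θ (einv M (x + zc m)).2) + psi δ (bd θ (bW M f₀ (x + zc m))) -
      (psi δ (bd θ (einv M (y + zc m)).2) + psi δ (bd θ (bW M f₀ (y + zc m)))) =
      (psi δ (bd θ (einv M (x + zc m)).2) - psi δ (bd θ (einv M (y + zc m)).2)) +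
      (psi δ (bd θ (bW M f₀ (x + zc m))) - psi δ (bd θ (bW M f₀ (y + zc m)))) := by ring
    rw [e]
    refine (abs_add_le _ _).trans ?_
    have d1 : |bd θ (einv M (x + zc m)).2 - bd θ (einv M (y + zc m)).2| / δ ≤
        c1 M * ‖x - y‖ / δ := by gcongr; exact b1.trans c2
    have d2 : |bd θ (bW M f₀ (x + zc m)) - bd θ (bW M f₀ (y + zc m))| / δ ≤
        (1 + Λ) * c1 M * ‖x - y‖ / δ := by gcongr; exact b2.trans c3
    calc _ ≤ c1 M * ‖x - y‖ / δ + (1 + Λ) * c1 M * ‖x - y‖ / δ :=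
          add_le_add (a1.trans d1) (a2.trans d2)
      _ = (c1 M + (1 + Λ) * c1 M) / δ * ‖x - y‖ := by ring
  refine (Finset.sum_le_sum key).trans ?_
  rw [Finset.sum_const, nsmul_eq_mul]
  exact le_of_eq (by ring)

theorem bs_close (h1 : ∀ y, |f₁ y - f₀ y| ≤ η) (θ : ℝ) {δ : ℝ} (hδ : 0 < δ) (x : ℝ × ℝ) :
    |bs R M θ δ f₁ x - bs R M θ δ f₀ x| ≤ R.card * (η / δ) := by
  unfold bs
  rw [← Finset.sum_sub_distrib]
  refine (Finset.abs_sum_le_sum_abs _ _).trans ?_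
  have key : ∀ m ∈ R, |psi δ (bd θ (einv M (x + zc m)).2) + psi δ (bd θ (bW M f₁ (x + zc m))) -
      (psi δ (bd θ (einv M (x + zc m)).2) + psi δ (bd θ (bW M f₀ (x + zc m))))| ≤ η / δ := by
    intro m _
    rw [add_sub_add_left_eq_sub]
    refine (psi_lip hδ _ _).trans ?_
    gcongr
    exact (bd_lip θ _ _).trans (bW_close h1 _)
  refine (Finset.sum_le_sum key).trans ?_
  rw [Finset.sum_const, nsmul_eq_mul]

open Classical in
/-- indicator of the bad nodes: a child is `ε`-close to a break point -/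
noncomputable def bad (R : Finset (ℤ × ℤ)) (M : Mt) (θ ε : ℝ) (f : ℝ → ℝ) (x : ℝ × ℝ) : ℝ :=
  if ∃ m ∈ R, bd θ (einv M (x + zc m)).2 ≤ ε ∨ bd θ (bW M f (x + zc m)) ≤ ε then 1 else 0

theorem bad_nonneg (θ ε : ℝ) (f : ℝ → ℝ) (x : ℝ × ℝ) : 0 ≤ bad R M θ ε f x := by
  unfold bad; split_ifs <;> norm_num

theorem bad_le_bs (θ : ℝ) {δ ε : ℝ} (hδ : 0 < δ) (hε : ε ≤ δ / 2) (f : ℝ → ℝ) (x : ℝ × ℝ) :
    bad R M θ ε f x ≤ 2 * bs R M θ δ f x := by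
  unfold bad
  split_ifs with h
  · obtain ⟨m, hm, h⟩ := h
    have h1 : psi δ (bd θ (einv M (x + zc m)).2) + psi δ (bd θ (bW M f (x + zc m))) ≤
        bs R M θ δ f x := by
      unfold bs
      exact Finset.single_le_sum
        (f := fun m => psi δ (bd θ (einv M (x + zc m)).2) + psi δ (bd θ (bW M f (x + zc m))))
        (fun _ _ => add_nonneg (psi_nonneg _ _) (psi_nonneg _ _)) hm
    have h2 := psi_nonneg δ (bd θ (einv M (x + zc m)).2)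
    have h3 := psi_nonneg δ (bd θ (bW M f (x + zc m)))
    rcases h with h | h
    · have := psi_ge hδ hε h; linarith
    · have := psi_ge hδ hε h; linarith
  · have := bs_nonneg R M θ δ f x; linarith

theorem avg_iter_const_mul (c : ℝ) (f : ℝ → ℝ) (φ : ℝ × ℝ → ℝ) (g : ℕ) (x : ℝ × ℝ) :
    (avg R M f)^[g] (fun y => c * φ y) x = c * (avg R M f)^[g] φ x := by
  induction g generalizing x with
  | zero => rfl
  | succ g ih =>
    rw [Function.iterate_succ_apply', Function.iterate_succ_apply']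
    unfold avg
    rw [← mul_div_assoc, Finset.mul_sum]
    congr 1
    exact Finset.sum_congr rfl fun m _ => ih _

/-- the main estimate of this file -/
theorem exists_bad (hΔ : M.det ≠ 0) (hΛ : 0 ≤ Λ) (h0 : ∀ y y', |f₀ y - f₀ y'| ≤ Λ * |y - y'|)
    (hper : Per f₀) (hcont : Continuous f₀) (hR : Res M R) (θ : ℝ)
    (hcount : ∀ g x, (avg R M f₀)^[g] (bz R M θ f₀) x ≤ 4 * R.card * (1 / 2) ^ g) (n : ℕ) :
    ∃ ε₀ > 0, ∃ η₀ > 0, ∀ f₁ : ℝ → ℝ, (∀ y, |f₁ y - f₀ y| ≤ η₀) → ∀ ε ≤ ε₀, ∀ g < n, ∀ x,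
      (avg R M f₁)^[g] (bad R M θ ε f₁) x ≤ 12 * R.card * (1 / 2) ^ g := by
  have hRc := hR.card_pos
  have hRr : (0 : ℝ) < R.card := by exact_mod_cast hRc
  have hc := c1_nonneg M
  induction n with
  | zero => exact ⟨1, one_pos, 1, one_pos, fun _ _ _ _ g hg => absurd hg (Nat.not_lt_zero g)⟩
  | succ n ih =>
    obtain ⟨ε₁, hε₁, η₁, hη₁, H⟩ := ih
    obtain ⟨δ, hδ, hd⟩ := exists_delta hΔ hR hper hcont θ n
      (c := 5 * R.card * (1 / 2) ^ n) (fun x => (hcount n x).trans_lt (by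
        have : (0 : ℝ) < R.card * (1 / 2) ^ n := by positivity
        linarith))
    set K : ℝ := R.card * ((c1 M + (1 + Λ) * c1 M) / δ) with hK
    have hK0 : 0 ≤ K := by positivity
    set C : ℝ := cg M Λ n * K + R.card / δ with hC
    have hcg := cg_nonneg (M := M) hΛ n
    have hC0 : 0 < C := by positivity
    refine ⟨min ε₁ (δ / 2), by positivity, min η₁ (R.card * (1 / 2) ^ n / C), by positivity, ?_⟩
    intro f₁ hf₁ ε hε g hg x
    rcases Nat.lt_succ_iff_lt_or_eq.mp hg with h | h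
    · exact H f₁ (fun y => (hf₁ y).trans (min_le_left _ _)) ε (hε.trans (min_le_left _ _)) g h x
    · subst h
      set η : ℝ := min η₁ (R.card * (1 / 2) ^ g / C) with hη
      have s1 := avg_iter_close (M := M) (R := R) (η := η) hΔ hΛ h0 hf₁ hRc g hK0
        (bs_lipC (R := R) hΔ hΛ h0 θ hδ) x
      have s2 := avg_iter_sup (M := M) (R := R) hRc (bs_close (M := M) (R := R) hf₁ θ hδ) f₁ g x
      have s3 := hd x
      have s4 : η * C ≤ R.card * (1 / 2) ^ g := by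
        have : η ≤ R.card * (1 / 2) ^ g / C := min_le_right _ _
        rwa [le_div_iff₀ hC0] at this
      have s5 : (avg R M f₁)^[g] (bs R M θ δ f₁) x ≤ 6 * R.card * (1 / 2) ^ g := by
        have a1 := (abs_le.mp s1).2
        have a2 := (abs_le.mp s2).2
        have e : η * C = cg M Λ g * K * η + R.card * (η / δ) := by rw [hC]; ring
        linarith
      calc (avg R M f₁)^[g] (bad R M θ ε f₁) x
          ≤ (avg R M f₁)^[g] (fun y => 2 * bs R M θ δ f₁ y) x :=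
            avg_iter_mono (fun y => bad_le_bs θ hδ (hε.trans (min_le_right _ _)) f₁ y) g x
        _ = 2 * (avg R M f₁)^[g] (bs R M θ δ f₁) x := avg_iter_const_mul 2 f₁ _ g x
        _ ≤ 12 * R.card * (1 / 2) ^ g := by linarith

end

end Pool.Agent.NUH
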