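import Pool.Agent.NUH.PertInv
import Pool.Agent.NUH.Main1

/-!
# A `C¹` open set of lifts with exponential growth
-/

set_option autoImplicit false

namespace Pool.Agent.NUH

open MeasureTheory Filter Topology
open scoped ENNReal ContDiff NNReal

theorem LR_eq_av2 {M : Mt} (hΔ : M.det ≠ 0) {R : Finset (ℤ × ℤ)}
    (hc : (R.card : ℝ) = |(M.det : ℝ)|) (f : ℝ → ℝ) (Ψ : ℝ × ℝ → ℝ × ℝ → ℝ) :
    LR R (br M f) (brD M f) Ψ = av2 R M f Ψ := by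
  funext x v
  unfold LR av2
  rw [hc, Finset.sum_div]
  apply Finset.sum_congr rfl
  intro m _
  rw [brD_det hΔ, brD_apply, abs_div, abs_one]
  ring

theorem lift₀ {M : Mt} (hΔ : M.det ≠ 0) {f : ℝ → ℝ} (hf : ContDiff ℝ ∞ f) (hp : Per f) :
    Lift M (fwd M f) (br M f) (brD M f) where
  right := fwd_br hΔ f
  left := br_fwd hΔ f
  per := fwd_per M hp
  contΦ := (fwd_contDiff M hf).continuous
  deriv := hasFDerivAt_br M (hf.differentiable (by simp))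
  contH' := brD_cont M hf

theorem bnd₀ {M : Mt} (hΔ : M.det ≠ 0) {f : ℝ → ℝ} {Λ : ℝ} (hΛ : 0 ≤ Λ)
    (hb : ∀ y, |deriv f y| ≤ Λ) : Bnd (brD M f) (Qc M Λ) where
  K1 := by
    have n1 : ‖((1, 0) : ℝ × ℝ)‖ = 1 := by rw [Prod.norm_def]; simp
    have h1 := Kd_upper hΔ hΛ hb 0 (1, 0)
    have h2 := Kd_lower hΔ hΛ hb 0 (1, 0)
    rw [n1] at h1 h2
    rw [mul_one] at h1
    have h3 : 0 ≤ Qc M Λ := by
      unfold Qc
      have := c1_nonneg M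
      positivity
    have h4 : 1 ≤ Qc M Λ * Qc M Λ := h2.trans (mul_le_mul_of_nonneg_left h1 h3)
    nlinarith
  up := fun x v => by rw [brD_apply]; exact Kd_upper hΔ hΛ hb x v
  low := fun x v => by rw [brD_apply]; exact Kd_lower hΔ hΛ hb x v

theorem fwd_det {M : Mt} (hΔ : M.det ≠ 0) {f : ℝ → ℝ} (hf : ContDiff ℝ ∞ f) (hp : Per f)
    (z : ℝ × ℝ) : (fderiv ℝ (fwd M f) z).det = M.det := by
  have L := lift₀ hΔ hf hp
  have hd : Differentiable ℝ (fwd M f) := (fwd_contDiff M hf).differentiable (by simp)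
  have h1 : (brD M f (fwd M f z)).comp (fderiv ℝ (fwd M f) z) =
      ContinuousLinearMap.id ℝ (ℝ × ℝ) := by
    apply ContinuousLinearMap.ext
    intro v
    exact L.deriv_left hd z v
  have h2 : ((brD M f (fwd M f z)).comp (fderiv ℝ (fwd M f) z)).det =
      (brD M f (fwd M f z)).det * (fderiv ℝ (fwd M f) z).det := LinearMap.det_comp _ _
  have h3 : (ContinuousLinearMap.id ℝ (ℝ × ℝ)).det = 1 := LinearMap.det_id
  rw [h1, h3, brD_det hΔ] at h2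
  have hΔr : (M.det : ℝ) ≠ 0 := by exact_mod_cast hΔ
  field_simp at h2
  exact h2.symm

/-- the conclusion: exponential contraction and expansion almost everywhere on the square -/
def GrowthOn (Φ : ℝ × ℝ → ℝ × ℝ) (c : ℝ) : Prop :=
  ∀ᵐ z ∂(volume.restrict Q), ∀ᶠ k : ℕ in atTop,
      (∃ v : ℝ × ℝ, ‖v‖ = 1 ∧ ‖fderiv ℝ (Φ^[k]) z v‖ ≤ Real.exp (-(c * k))) ∧
        Real.exp (c * k) ≤ ‖fderiv ℝ (Φ^[k]) z‖

theorem fwd_norm {M : Mt} (hΔ : M.det ≠ 0) {f : ℝ → ℝ} (hf : ContDiff ℝ ∞ f) (hp : Per f) {K : ℝ}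
    (hB : Bnd (brD M f) K) (z : ℝ × ℝ) : ‖fderiv ℝ (fwd M f) z‖ ≤ K := by
  have L := lift₀ hΔ hf hp
  have hd : Differentiable ℝ (fwd M f) := (fwd_contDiff M hf).differentiable (by simp)
  refine ContinuousLinearMap.opNorm_le_bound _ (by linarith [hB.K1]) fun v => ?_
  have := hB.low (fwd M f z) (fderiv ℝ (fwd M f) z v)
  rwa [L.deriv_left hd] at this

/-- the uniform data of a `C¹` neighbourhood -/
theorem ctr_open (M : Mt) (hΔ2 : 2 ≤ |M.det|) (ha : M.a ≠ 0) {t : ℤ × ℤ}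
    (ht : ¬ M.det ∣ nu M t) {R : Finset (ℤ × ℤ)} (hR : Res M R)
    (hc : (R.card : ℝ) = |(M.det : ℝ)|) :
    ∃ f : ℝ → ℝ, ContDiff ℝ ∞ f ∧ Per f ∧ ∃ δ : ℝ, 0 < δ ∧ ∃ (s : ℝ) (n : ℕ) (ρ C K : ℝ),
      s ≤ 1 ∧ 0 < rate s n ρ ∧ 1 ≤ K ∧
      ∀ Φ : ℝ × ℝ → ℝ × ℝ,
      ContDiff ℝ 1 Φ → (∀ z k, Φ (z + zc k) = Φ z + zc (mv M k)) →
      (∀ z, ‖Φ z - fwd M f z‖ ≤ δ) → (∀ z, ‖fderiv ℝ Φ z - fderiv ℝ (fwd M f) z‖ ≤ δ) →
      ∃ (H : ℝ × ℝ → ℝ × ℝ) (H' : ℝ × ℝ → (ℝ × ℝ →L[ℝ] ℝ × ℝ)), Lift M Φ H H' ∧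
        Ctr R H H' s n ρ C ∧ (∀ x v, v ≠ 0 → H' x v ≠ 0) ∧ (∀ z, 3 / 2 ≤ |(fderiv ℝ Φ z).det|) ∧
        (∀ z, ‖fderiv ℝ Φ z‖ ≤ K) ∧ (∀ x, ‖H' x‖ ≤ K) := by
  have hΔ : M.det ≠ 0 := by
    intro h; rw [h] at hΔ2; simp at hΔ2
  obtain ⟨f, hf, hp, Λ, hΛ, hb, n, s, ρ, hs, hs1, hρ0, hρ1, hcon⟩ := exists_contraction M hΔ ha ht hR
  have L₀ := lift₀ hΔ hf hp
  have hB := bnd₀ hΔ hΛ hb
  have hK := hB.K1
  set K := Qc M Λ with hKdef
  have hn : 0 < n := by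
    rcases Nat.eq_zero_or_pos n with h | h
    · exfalso
      have h1 := hcon 0 (1, 0) (by intro h; have := congrArg Prod.fst h; simp at this)
      rw [h] at h1
      have n1 : ‖((1, 0) : ℝ × ℝ)‖ = 1 := by rw [Prod.norm_def]; simp
      simp only [Function.iterate_zero, id, n1, Real.one_rpow, mul_one] at h1
      linarith
    · exact h
  obtain ⟨η₁, hη₁, hclose⟩ := close_iter L₀ hR hs hB n ((1 - ρ) / 2) (by linarith)
  obtain ⟨δ, hδ, hinv⟩ := pert_inv L₀ ((fwd_contDiff M hf).of_le (by simp)) hB (by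
    intro z
    rw [fwd_det hΔ hf hp]
    exact_mod_cast hΔ2) (η := min η₁ (min 1 (1 / (2 * K)))) (by positivity)
  refine ⟨f, hf, hp, min δ 1, by positivity, s, n, (1 + ρ) / 2,
    R.card * (2 * (K + 1) ^ 2 * (2 * K) ^ s) + 1, K + 1, hs1,
    rate_pos hs hn (by linarith) (by linarith), by linarith, ?_⟩
  intro Φ hΦ hper h0 h1
  obtain ⟨H, H', L, hClo, hdet⟩ := hinv Φ hΦ hper (fun z => (h0 z).trans (min_le_left _ _))
    (fun z => (h1 z).trans (min_le_left _ _))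
  have c1 : Clo (br M f) (brD M f) η₁ H H' :=
    ⟨fun x => (hClo.1 x).trans (min_le_left _ _), fun x => (hClo.2 x).trans (min_le_left _ _)⟩
  have e1 : min η₁ (min 1 (1 / (2 * K))) ≤ 1 := (min_le_right _ _).trans (min_le_left _ _)
  have e2 : min η₁ (min 1 (1 / (2 * K))) ≤ 1 / (2 * K) :=
    (min_le_right _ _).trans (min_le_right _ _)
  have hinj := hClo.inj hB e2
  have hpsE : psE s = fun x v => ENNReal.ofReal (psR s x v) := rfl
  refine ⟨H, H', L, ?_, hinj, hdet, ?_, fun x => hClo.norm hB e1 x⟩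
  swap
  · intro z
    have : fderiv ℝ Φ z = fderiv ℝ (fwd M f) z + (fderiv ℝ Φ z - fderiv ℝ (fwd M f) z) := by abel
    rw [this]
    refine (norm_add_le _ _).trans ?_
    have h2 := (h1 z).trans (min_le_right _ _)
    have h3 := fwd_norm hΔ hf hp hB z
    linarith
  refine ⟨hs, hn, by linarith, by linarith, ?_, ?_, ?_⟩
  · have : 0 ≤ (R.card : ℝ) * (2 * (K + 1) ^ 2 * (2 * K) ^ s) := by positivity
    linarith
  · intro x v hv
    rw [hpsE, LE_ofReal (psR_nonneg s)]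
    show ENNReal.ofReal _ ≤ _ * ENNReal.ofReal _
    rw [← ENNReal.ofReal_mul (by positivity)]
    apply ENNReal.ofReal_le_ofReal
    refine (hClo.one (R := R) hs hB e2 e1 x hv).trans ?_
    apply mul_le_mul_of_nonneg_right _ (psR_nonneg s x v)
    linarith
  · intro x v hv
    rw [hpsE, LE_iter_ofReal (psR_nonneg s)]
    show ENNReal.ofReal _ ≤ _ * ENNReal.ofReal _
    rw [← ENNReal.ofReal_mul (by linarith)]
    apply ENNReal.ofReal_le_ofReal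
    refine (hclose H H' c1 x v hv).trans ?_
    have e3 : LR R (br M f) (brD M f) = av2 R M f := by
      funext Ψ; exact LR_eq_av2 hΔ hc f Ψ
    rw [e3]
    have := hcon x v hv
    have e4 : psR s = fun (_ v : ℝ × ℝ) => ‖v‖ ^ (-s) := rfl
    rw [e4]
    simp only
    linarith

theorem nuh_open (M : Mt) (hΔ2 : 2 ≤ |M.det|) (ha : M.a ≠ 0) {t : ℤ × ℤ}
    (ht : ¬ M.det ∣ nu M t) {R : Finset (ℤ × ℤ)} (hR : Res M R) (hE : ResE M R)
    (hc : (R.card : ℝ) = |(M.det : ℝ)|) :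
    ∃ f : ℝ → ℝ, ContDiff ℝ ∞ f ∧ Per f ∧ ∃ δ : ℝ, 0 < δ ∧ ∃ c : ℝ, 0 < c ∧
      ∀ Φ : ℝ × ℝ → ℝ × ℝ,
      ContDiff ℝ 1 Φ → (∀ z k, Φ (z + zc k) = Φ z + zc (mv M k)) →
      (∀ z, ‖Φ z - fwd M f z‖ ≤ δ) → (∀ z, ‖fderiv ℝ Φ z - fderiv ℝ (fwd M f) z‖ ≤ δ) →
      GrowthOn Φ c := by
  obtain ⟨f, hf, hp, δ, hδ, s, n, ρ, C, K, hs1, hrate, hK, h⟩ := ctr_open M hΔ2 ha ht hR hc
  refine ⟨f, hf, hp, δ, hδ, rate s n ρ / 2, half_pos hrate, ?_⟩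
  intro Φ hΦ hper h0 h1
  obtain ⟨H, H', L, hC, hinj, hdet, _, _⟩ := h Φ hΦ hper h0 h1
  exact exponents L hR hE hinj hC (hΦ.differentiable one_ne_zero) fun z => by
    have := hdet z
    linarith

end Pool.Agent.NUH
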