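import Pool.Agent.NUH.Unif

/-!
# Inverse of a perturbation of a lift
-/

set_option autoImplicit false

namespace Pool.Agent.NUH

open MeasureTheory Filter Topology
open scoped ENNReal ContDiff NNReal

theorem uc_per {E : Type*} [NormedAddCommGroup E] {g : ℝ × ℝ → E} (hc : Continuous g)
    (hp : ∀ x k, g (x + zc k) = g x) {κ : ℝ} (hκ : 0 < κ) :
    ∃ η : ℝ, 0 < η ∧ ∀ z z' : ℝ × ℝ, ‖z' - z‖ ≤ η → ‖g z' - g z‖ ≤ κ := by
  have hU := (isCompact_closedBall (0 : ℝ × ℝ) 2).uniformContinuousOn_of_continuous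
    hc.continuousOn
  rw [Metric.uniformContinuousOn_iff] at hU
  obtain ⟨η, hη, hU⟩ := hU κ hκ
  refine ⟨min (η / 2) 1, by positivity, ?_⟩
  intro z z' hz
  have b1 : ‖z' - z‖ ≤ 1 := hz.trans (min_le_right _ _)
  have b3 : ‖z' - z‖ ≤ η / 2 := hz.trans (min_le_left _ _)
  have e := hp (z - zc (fl z)) (fl z)
  rw [sub_add_cancel] at e
  have e' := hp (z' - zc (fl z)) (fl z)
  rw [sub_add_cancel] at e'
  rw [e, e']
  have n0 := norm_sub_fl z
  have n1 : ‖z' - zc (fl z)‖ ≤ 2 := by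
    have : z' - zc (fl z) = (z' - z) + (z - zc (fl z)) := by abel
    rw [this]
    exact (norm_add_le _ _).trans (by linarith)
  have h3 := hU (z' - zc (fl z)) (by
      rw [Metric.mem_closedBall, dist_zero_right]; exact n1)
    (z - zc (fl z)) (by
      rw [Metric.mem_closedBall, dist_zero_right]; linarith) (by
      rw [dist_eq_norm, sub_sub_sub_cancel_right]; linarith)
  rw [dist_eq_norm] at h3
  exact h3.le

section

variable {M : Mt} {F H₀ : ℝ × ℝ → ℝ × ℝ} {H₀' : ℝ × ℝ → (ℝ × ℝ →L[ℝ] ℝ × ℝ)}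

theorem Lift.deriv_left (L : Lift M F H₀ H₀') (hF : Differentiable ℝ F) (z v : ℝ × ℝ) :
    H₀' (F z) (fderiv ℝ F z v) = v := by
  have h1 : HasFDerivAt (fun y => H₀ (F y)) ((H₀' (F z)).comp (fderiv ℝ F z)) z :=
    (L.deriv (F z)).comp z (hF z).hasFDerivAt
  have h2 : HasFDerivAt (fun y => H₀ (F y)) (ContinuousLinearMap.id ℝ (ℝ × ℝ)) z := by
    have : (fun y => H₀ (F y)) = id := by funext y; exact L.left y
    rw [this]; exact hasFDerivAt_id z
  have h3 := h1.unique h2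
  have := congrArg (fun A : ℝ × ℝ →L[ℝ] ℝ × ℝ => A v) h3
  exact this

theorem Lift.deriv_right (L : Lift M F H₀ H₀') (hF : Differentiable ℝ F) (x v : ℝ × ℝ) :
    fderiv ℝ F (H₀ x) (H₀' x v) = v := by
  have h1 : HasFDerivAt (fun y => F (H₀ y)) ((fderiv ℝ F (H₀ x)).comp (H₀' x)) x :=
    (hF (H₀ x)).hasFDerivAt.comp x (L.deriv x)
  have h2 : HasFDerivAt (fun y => F (H₀ y)) (ContinuousLinearMap.id ℝ (ℝ × ℝ)) x := by
    have : (fun y => F (H₀ y)) = id := by funext y; exact L.right y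
    rw [this]; exact hasFDerivAt_id x
  have h3 := h1.unique h2
  have := congrArg (fun A : ℝ × ℝ →L[ℝ] ℝ × ℝ => A v) h3
  exact this

theorem Lift.lipH (L : Lift M F H₀ H₀') {K : ℝ} (hB : Bnd H₀' K) (x y : ℝ × ℝ) :
    ‖H₀ x - H₀ y‖ ≤ K * ‖x - y‖ :=
  Convex.norm_image_sub_le_of_norm_hasFDerivWithin_le (𝕜 := ℝ) (s := Set.univ)
    (fun z _ => (L.deriv z).hasFDerivWithinAt) (fun z _ => hB.norm_le z) convex_univ
    (Set.mem_univ y) (Set.mem_univ x)

theorem fderiv_per {F : ℝ × ℝ → ℝ × ℝ} (hF : Differentiable ℝ F)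
    (hp : ∀ z k, F (z + zc k) = F z + zc (mv M k)) (z : ℝ × ℝ) (k : ℤ × ℤ) :
    fderiv ℝ F (z + zc k) = fderiv ℝ F z := by
  have h1 : HasFDerivAt (fun y => F (y + zc k)) (fderiv ℝ F (z + zc k)) z := by
    have := (hF (z + zc k)).hasFDerivAt.comp z ((hasFDerivAt_id z).add_const (zc k))
    rw [ContinuousLinearMap.comp_id] at this
    exact this
  have h2 : HasFDerivAt (fun y => F (y + zc k)) (fderiv ℝ F z) z := by
    have : (fun y => F (y + zc k)) = fun y => F y + zc (mv M k) := by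
      funext y; exact hp y k
    rw [this]
    exact (hF z).hasFDerivAt.add_const _
  exact h1.unique h2

theorem pert_inv (L : Lift M F H₀ H₀') (hF : ContDiff ℝ 1 F) {K : ℝ} (hB : Bnd H₀' K)
    (hd : ∀ z, 2 ≤ |(fderiv ℝ F z).det|) {η : ℝ} (hη : 0 < η) :
    ∃ δ : ℝ, 0 < δ ∧ ∀ Φ : ℝ × ℝ → ℝ × ℝ, ContDiff ℝ 1 Φ →
      (∀ z k, Φ (z + zc k) = Φ z + zc (mv M k)) → (∀ z, ‖Φ z - F z‖ ≤ δ) →
      (∀ z, ‖fderiv ℝ Φ z - fderiv ℝ F z‖ ≤ δ) →
      ∃ (H : ℝ × ℝ → ℝ × ℝ) (H' : ℝ × ℝ → (ℝ × ℝ →L[ℝ] ℝ × ℝ)),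
        Lift M Φ H H' ∧ Clo H₀ H₀' η H H' ∧ ∀ z, 3 / 2 ≤ |(fderiv ℝ Φ z).det| := by
  have hK := hB.K1
  have hK0 : 0 < K := by linarith
  have hFd : Differentiable ℝ F := hF.differentiable one_ne_zero
  obtain ⟨om, hom, hU⟩ := uc_per (hF.continuous_fderiv one_ne_zero)
    (fderiv_per (M := M) hFd L.per) (κ := η / (4 * K ^ 2)) (by positivity)
  set δ : ℝ := min (min (1 / (2 * K)) (1 / (4 * (2 * K + 1))))
    (min (om / K) (min (η / (4 * K ^ 2)) (η / K))) with hδ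
  have hδ0 : 0 < δ := by positivity
  have δ1 : δ ≤ 1 / (2 * K) := (min_le_left _ _).trans (min_le_left _ _)
  have δ2 : δ ≤ 1 / (4 * (2 * K + 1)) := (min_le_left _ _).trans (min_le_right _ _)
  have δ3 : δ ≤ om / K := (min_le_right _ _).trans (min_le_left _ _)
  have δ4 : δ ≤ η / (4 * K ^ 2) :=
    (min_le_right _ _).trans ((min_le_right _ _).trans (min_le_left _ _))
  have δ5 : δ ≤ η / K :=
    (min_le_right _ _).trans ((min_le_right _ _).trans (min_le_right _ _))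
  have δ1' : K * δ ≤ 1 / 2 := by
    rw [le_div_iff₀ (by positivity)] at δ1; linarith
  have δ2' : 2 * (2 * K + 1) * δ ≤ 1 / 2 := by
    rw [le_div_iff₀ (by positivity)] at δ2; linarith
  have δ3' : K * δ ≤ om := by
    rw [le_div_iff₀ (by positivity)] at δ3; linarith
  have δ5' : K * δ ≤ η := by
    rw [le_div_iff₀ (by positivity)] at δ5; linarith
  refine ⟨δ, hδ0, ?_⟩
  intro Φ hΦ hper h0 h1
  have hΦd : Differentiable ℝ Φ := hΦ.differentiable one_ne_zero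
  -- the difference is Lipschitz
  have hθ : ∀ z w : ℝ × ℝ, ‖(Φ z - F z) - (Φ w - F w)‖ ≤ δ * ‖z - w‖ := by
    intro z w
    exact Convex.norm_image_sub_le_of_norm_hasFDerivWithin_le (𝕜 := ℝ) (s := Set.univ)
      (f := fun z => Φ z - F z) (f' := fun z => fderiv ℝ Φ z - fderiv ℝ F z)
      (fun z _ => ((hΦd z).hasFDerivAt.sub (hFd z).hasFDerivAt).hasFDerivWithinAt)
      (fun z _ => h1 z) convex_univ (Set.mem_univ w) (Set.mem_univ z)
  -- lower bound for the difference of the values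
  have hlow : ∀ z w : ℝ × ℝ, ‖z - w‖ ≤ 2 * K * ‖Φ z - Φ w‖ := by
    intro z w
    have a1 := L.lipH hB (F z) (F w)
    rw [L.left, L.left] at a1
    have a2 : ‖F z - F w‖ ≤ ‖Φ z - Φ w‖ + δ * ‖z - w‖ := by
      calc ‖F z - F w‖ = ‖(Φ z - Φ w) - ((Φ z - F z) - (Φ w - F w))‖ := by congr 1; abel
        _ ≤ ‖Φ z - Φ w‖ + ‖(Φ z - F z) - (Φ w - F w)‖ := norm_sub_le _ _
        _ ≤ _ := by linarith [hθ z w]
    have a3 : ‖z - w‖ ≤ K * (‖Φ z - Φ w‖ + δ * ‖z - w‖) :=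
      a1.trans (mul_le_mul_of_nonneg_left a2 hK0.le)
    have a4 : K * (δ * ‖z - w‖) ≤ 1 / 2 * ‖z - w‖ := by
      rw [← mul_assoc]; exact mul_le_mul_of_nonneg_right δ1' (norm_nonneg _)
    linarith
  have hinj : ∀ z w : ℝ × ℝ, Φ z = Φ w → z = w := by
    intro z w h
    have := hlow z w
    rw [h, sub_self, norm_zero, mul_zero] at this
    exact sub_eq_zero.mp (norm_le_zero_iff.mp this)
  -- surjectivity
  have hsurj : ∀ x : ℝ × ℝ, ∃ z, Φ z = x := by
    intro x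
    have hc : ContractingWith (1 / 2 : ℝ≥0) fun z => H₀ (x - (Φ z - F z)) := by
      refine ⟨?_, ?_⟩
      · rw [← NNReal.coe_lt_coe]; push_cast; norm_num
      · apply LipschitzWith.of_dist_le_mul
        intro z w
        rw [dist_eq_norm, dist_eq_norm]
        have b1 := L.lipH hB (x - (Φ z - F z)) (x - (Φ w - F w))
        have b2 : ‖x - (Φ z - F z) - (x - (Φ w - F w))‖ = ‖(Φ z - F z) - (Φ w - F w)‖ := by
          rw [← norm_neg]; congr 1; abel
        rw [b2] at b1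
        have b3 : K * ‖(Φ z - F z) - (Φ w - F w)‖ ≤ K * (δ * ‖z - w‖) :=
          mul_le_mul_of_nonneg_left (hθ z w) hK0.le
        have b4 : K * (δ * ‖z - w‖) ≤ 1 / 2 * ‖z - w‖ := by
          rw [← mul_assoc]; exact mul_le_mul_of_nonneg_right δ1' (norm_nonneg _)
        push_cast
        linarith
    refine ⟨ContractingWith.fixedPoint _ hc, ?_⟩
    have hfix := hc.fixedPoint_isFixedPt
    set z := ContractingWith.fixedPoint _ hc
    have e1 : H₀ (x - (Φ z - F z)) = z := hfix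
    have e2 := L.right (x - (Φ z - F z))
    rw [e1] at e2
    have : Φ z = F z + (Φ z - F z) := by abel
    rw [this]
    nth_rewrite 1 [e2]
    abel
  choose H hH using hsurj
  have hHl : ∀ z, H (Φ z) = z := fun z => hinj _ _ (hH (Φ z))
  have hHclose : ∀ x, ‖H x - H₀ x‖ ≤ K * δ := by
    intro x
    have a1 := L.lipH hB (F (H x)) x
    rw [L.left] at a1
    refine a1.trans (mul_le_mul_of_nonneg_left ?_ hK0.le)
    have := h0 (H x)
    rw [hH, norm_sub_rev] at this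
    exact this
  have hHlip : ∀ x y, ‖H x - H y‖ ≤ 2 * K * ‖x - y‖ := by
    intro x y
    have := hlow (H x) (H y)
    rwa [hH, hH] at this
  have hHc : Continuous H := by
    have : LipschitzWith (2 * K).toNNReal H := by
      apply LipschitzWith.of_dist_le_mul
      intro x y
      rw [dist_eq_norm, dist_eq_norm, Real.coe_toNNReal _ (by positivity)]
      exact hHlip x y
    exact this.continuous
  -- norm of the derivative
  have hFn : ∀ z, ‖fderiv ℝ F z‖ ≤ K := by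
    intro z
    refine ContinuousLinearMap.opNorm_le_bound _ hK0.le fun v => ?_
    have := hB.low (F z) (fderiv ℝ F z v)
    rwa [L.deriv_left hFd] at this
  have hdet : ∀ z, 3 / 2 ≤ |(fderiv ℝ Φ z).det| := by
    intro z
    have a1 := det_diff (fderiv ℝ Φ z) (fderiv ℝ F z)
    have a2 := hd z
    have a3 := h1 z
    have a4 : ‖fderiv ℝ Φ z‖ ≤ K + 1 := by
      have : fderiv ℝ Φ z = fderiv ℝ F z + (fderiv ℝ Φ z - fderiv ℝ F z) := by abel
      rw [this]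
      refine (norm_add_le _ _).trans ?_
      have : δ ≤ 1 := by
        refine δ1.trans ?_
        rw [div_le_one (by positivity)]; linarith
      linarith [hFn z]
    have a5 : 2 * (‖fderiv ℝ Φ z‖ + ‖fderiv ℝ F z‖) * ‖fderiv ℝ Φ z - fderiv ℝ F z‖ ≤
        2 * (2 * K + 1) * δ :=
      mul_le_mul (by linarith [hFn z]) a3 (norm_nonneg _) (by positivity)
    have a6 : |(fderiv ℝ F z).det| - |(fderiv ℝ Φ z).det| ≤
        |(fderiv ℝ Φ z).det - (fderiv ℝ F z).det| := by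
      rw [abs_sub_comm]; exact abs_sub_abs_le_abs_sub _ _
    linarith
  have hdet0 : ∀ z, (fderiv ℝ Φ z).det ≠ 0 := by
    intro z h
    have := hdet z
    rw [h, abs_zero] at this
    linarith
  let e : ℝ × ℝ → ((ℝ × ℝ) ≃L[ℝ] (ℝ × ℝ)) := fun z =>
    (fderiv ℝ Φ z).toContinuousLinearEquivOfDetNeZero (hdet0 z)
  have he : ∀ z, (e z : ℝ × ℝ →L[ℝ] ℝ × ℝ) = fderiv ℝ Φ z := fun z =>
    ContinuousLinearMap.coe_toContinuousLinearEquivOfDetNeZero _ _
  let H' : ℝ × ℝ → (ℝ × ℝ →L[ℝ] ℝ × ℝ) := fun x => ((e (H x)).symm : ℝ × ℝ →L[ℝ] ℝ × ℝ)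
  have hH'1 : ∀ x, H' x = ContinuousLinearMap.inverse (fderiv ℝ Φ (H x)) := by
    intro x
    rw [← he, ContinuousLinearMap.inverse_equiv]
  have hderiv : ∀ x, HasFDerivAt H (H' x) x := by
    intro x
    apply HasFDerivAt.of_local_left_inverse (f := Φ) hHc.continuousAt
    · rw [he]; exact (hΦd (H x)).hasFDerivAt
    · exact Eventually.of_forall hH
  have hcont : Continuous H' := by
    rw [continuous_iff_continuousAt]
    intro x
    have : H' = fun x => ContinuousLinearMap.inverse (fderiv ℝ Φ (H x)) := funext hH'1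
    rw [this]
    have c1 : ContinuousAt (fun x => fderiv ℝ Φ (H x)) x :=
      ((hΦ.continuous_fderiv one_ne_zero).comp hHc).continuousAt
    have c2 : ContinuousAt (ContinuousLinearMap.inverse : (ℝ × ℝ →L[ℝ] ℝ × ℝ) → _)
        (fderiv ℝ Φ (H x)) := by
      rw [← he]
      exact (contDiffAt_map_inverse (n := 0) (e (H x))).continuousAt
    exact c2.comp (f := fun x => fderiv ℝ Φ (H x)) c1
  have L' : Lift M Φ H H' := ⟨hH, hHl, hper, hΦ.continuous, hderiv, hcont⟩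
  refine ⟨H, H', L', ⟨fun x => (hHclose x).trans δ5', ?_⟩, hdet⟩
  -- closeness of the derivatives
  intro x
  refine ContinuousLinearMap.opNorm_le_bound _ hη.le fun v => ?_
  rw [_root_.sub_apply]
  -- `A = fderiv Φ (H x)`, `B = fderiv F (H₀ x)`
  have i1 : fderiv ℝ Φ (H x) (H' x v) = v := L'.deriv_right hΦd x v
  have i2 : fderiv ℝ F (H₀ x) (H₀' x v) = v := L.deriv_right hFd x v
  set w := H' x v - H₀' x v with hw
  have i3 : fderiv ℝ F (H₀ x) w =
      (fderiv ℝ F (H₀ x) - fderiv ℝ Φ (H x)) (H' x v) := by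
    rw [hw, map_sub, i2, _root_.sub_apply, i1]
  have i4 : w = H₀' x ((fderiv ℝ F (H₀ x) - fderiv ℝ Φ (H x)) (H' x v)) := by
    rw [← i3]
    have := L.deriv_left hFd (H₀ x) w
    rw [L.right] at this
    exact this.symm
  have i5 : ‖fderiv ℝ F (H₀ x) - fderiv ℝ Φ (H x)‖ ≤ η / (2 * K ^ 2) := by
    have j1 := hU (H x) (H₀ x) (by rw [norm_sub_rev]; exact (hHclose x).trans δ3')
    have j2 := h1 (H x)
    rw [norm_sub_rev] at j2
    have : fderiv ℝ F (H₀ x) - fderiv ℝ Φ (H x) =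
        (fderiv ℝ F (H₀ x) - fderiv ℝ F (H x)) + (fderiv ℝ F (H x) - fderiv ℝ Φ (H x)) := by abel
    rw [this]
    refine (norm_add_le _ _).trans ?_
    have e : η / (2 * K ^ 2) = η / (4 * K ^ 2) + η / (4 * K ^ 2) := by field_simp; norm_num
    rw [e]
    linarith
  -- norm of `H' x`
  have i6 : ‖H' x v‖ ≤ 2 * K * ‖v‖ := by
    have j1 : ‖fderiv ℝ F (H x) (H' x v)‖ ≤ ‖v‖ + δ * ‖H' x v‖ := by
      have j2 := (fderiv ℝ Φ (H x) - fderiv ℝ F (H x)).le_opNorm (H' x v)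
      rw [_root_.sub_apply, i1] at j2
      have j3 : ‖fderiv ℝ Φ (H x) - fderiv ℝ F (H x)‖ * ‖H' x v‖ ≤ δ * ‖H' x v‖ :=
        mul_le_mul_of_nonneg_right (h1 _) (norm_nonneg _)
      calc ‖fderiv ℝ F (H x) (H' x v)‖ = ‖v - (v - fderiv ℝ F (H x) (H' x v))‖ := by
            congr 1; abel
        _ ≤ ‖v‖ + ‖v - fderiv ℝ F (H x) (H' x v)‖ := norm_sub_le _ _
        _ ≤ _ := by linarith
    have j4 := hB.up (F (H x)) (fderiv ℝ F (H x) (H' x v))
    rw [L.deriv_left hFd] at j4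
    have j5 : ‖H' x v‖ ≤ K * (‖v‖ + δ * ‖H' x v‖) :=
      j4.trans (mul_le_mul_of_nonneg_left j1 hK0.le)
    have j6 : K * (δ * ‖H' x v‖) ≤ 1 / 2 * ‖H' x v‖ := by
      rw [← mul_assoc]; exact mul_le_mul_of_nonneg_right δ1' (norm_nonneg _)
    linarith
  rw [i4]
  have k1 := hB.up x ((fderiv ℝ F (H₀ x) - fderiv ℝ Φ (H x)) (H' x v))
  have k2 := (fderiv ℝ F (H₀ x) - fderiv ℝ Φ (H x)).le_opNorm (H' x v)
  have k3 : ‖fderiv ℝ F (H₀ x) - fderiv ℝ Φ (H x)‖ * ‖H' x v‖ ≤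
      η / (2 * K ^ 2) * (2 * K * ‖v‖) :=
    mul_le_mul i5 i6 (norm_nonneg _) (by positivity)
  have k4 : K * (η / (2 * K ^ 2) * (2 * K * ‖v‖)) = η * ‖v‖ := by field_simp
  calc ‖H₀' x ((fderiv ℝ F (H₀ x) - fderiv ℝ Φ (H x)) (H' x v))‖
      ≤ K * ‖(fderiv ℝ F (H₀ x) - fderiv ℝ Φ (H x)) (H' x v)‖ := k1
    _ ≤ K * (η / (2 * K ^ 2) * (2 * K * ‖v‖)) :=
        mul_le_mul_of_nonneg_left (k2.trans k3) hK0.le
    _ = η * ‖v‖ := k4

end

end Pool.Agent.NUH
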