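import Pool.Agent.NUH.Brk

/-!
# An `ℓ`-adic shadow of the real numbers
-/

set_option autoImplicit false

namespace Pool.Agent.NUH

/-- a `ℚ`-linear functional `π : ℝ → ℚ_ℓ` with `π 1 = 0`, `π θ = ℓ` -/
structure IsPi (ℓ : ℕ) [Fact ℓ.Prime] (θ : ℝ) (π : ℝ → ℚ_[ℓ]) : Prop where
  add : ∀ x y, π (x + y) = π x + π y
  smul : ∀ (q : ℚ) (x : ℝ), π ((q : ℝ) * x) = (q : ℚ_[ℓ]) * π x
  one : π 1 = 0
  th : π θ = ℓ

theorem exists_pi (ℓ : ℕ) [Fact ℓ.Prime] {θ : ℝ} (hθ : Irrational θ) :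
    ∃ π : ℝ → ℚ_[ℓ], IsPi ℓ θ π := by
  have hmem : θ ∉ Submodule.span ℚ {(1 : ℝ)} := by
    rw [Submodule.mem_span_singleton]
    rintro ⟨q, hq⟩
    apply hθ
    refine ⟨q, ?_⟩
    rw [← hq, Rat.smul_def, mul_one]
  obtain ⟨f, hf, hker⟩ := Submodule.exists_le_ker_of_notMem hmem
  have h1 : f 1 = 0 := by
    have : (1 : ℝ) ∈ LinearMap.ker f := hker (Submodule.mem_span_singleton_self 1)
    simpa using this
  refine ⟨fun x => (((ℓ : ℚ) / f θ * f x : ℚ) : ℚ_[ℓ]), ?_, ?_, ?_, ?_⟩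
  · intro x y
    rw [map_add]; push_cast; ring
  · intro q x
    have : f ((q : ℝ) * x) = q * f x := by
      rw [← Rat.smul_def, map_smul, smul_eq_mul]
    rw [this]; push_cast; ring
  · simp [h1]
  · have : (ℓ : ℚ) / f θ * f θ = ℓ := by field_simp
    simp only [this]
    norm_cast

namespace IsPi

variable {ℓ : ℕ} [Fact ℓ.Prime] {θ : ℝ} {π : ℝ → ℚ_[ℓ]}

theorem rat (h : IsPi ℓ θ π) (q : ℚ) : π (q : ℝ) = 0 := by
  have := h.smul q 1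
  rwa [mul_one, h.one, mul_zero] at this

theorem int (h : IsPi ℓ θ π) (k : ℤ) : π (k : ℝ) = 0 := by
  have := h.rat k
  simpa using this

theorem neg (h : IsPi ℓ θ π) (x : ℝ) : π (-x) = -π x := by
  have := h.smul (-1) x
  simpa using this

theorem sub (h : IsPi ℓ θ π) (x y : ℝ) : π (x - y) = π x - π y := by
  rw [sub_eq_add_neg, h.add, h.neg, sub_eq_add_neg]

theorem add_int (h : IsPi ℓ θ π) (x : ℝ) (k : ℤ) : π (x + k) = π x := by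
  rw [h.add, h.int, add_zero]

theorem int_mul (h : IsPi ℓ θ π) (k : ℤ) (x : ℝ) : π ((k : ℝ) * x) = (k : ℚ_[ℓ]) * π x := by
  have := h.smul k x
  simpa using this

theorem fract (h : IsPi ℓ θ π) (y : ℝ) : π (Int.fract y) = π y := by
  have : Int.fract y = y - (⌊y⌋ : ℝ) := rfl
  rw [this, h.sub, h.int, sub_zero]

theorem half (h : IsPi ℓ θ π) : π (1 / 2) = 0 := by
  have := h.rat (1 / 2)
  simpa using this

theorem S (h : IsPi ℓ θ π) (y : ℝ) :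
    π (S θ y) = (nn θ y : ℚ_[ℓ]) * π y + ℓ * (nn θ y : ℚ_[ℓ]) ^ 2 := by
  have e : NUH.S θ y = ((nn θ y ^ 2 : ℤ) : ℝ) * θ + (nn θ y : ℝ) * (Int.fract y - 1 / 2) := by
    have : NUH.S θ y = θ * (nn θ y : ℝ) ^ 2 + (nn θ y : ℝ) * (Int.fract y - 1 / 2) := rfl
    rw [this]; push_cast; ring
  rw [e, h.add, h.int_mul, h.int_mul, h.sub, h.fract, h.half, h.th]
  push_cast; ring

theorem norm_lt_of_mem (h : IsPi ℓ θ π) {y : ℝ} (hy : y ∈ Z θ) : ‖π y‖ < 1 := by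
  obtain ⟨c, hc, k, rfl⟩ := hy
  rw [h.add, h.int, zero_add]
  unfold C0 at hc
  rw [Finset.mem_insert, Finset.mem_image] at hc
  rcases hc with rfl | ⟨j, _, rfl⟩
  · have := h.int 0
    simp only [Int.cast_zero] at this
    rw [this]; simp
  · have e : (1 : ℝ) / 2 - 4 * θ * j = 1 / 2 - ((4 * j : ℤ) : ℝ) * θ := by push_cast; ring
    rw [e, h.sub, h.half, zero_sub, norm_neg, h.int_mul, h.th, norm_mul]
    have h1 : ‖((4 * j : ℤ) : ℚ_[ℓ])‖ ≤ 1 := Padic.norm_int_le_one _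
    have h2 : ‖(ℓ : ℚ_[ℓ])‖ < 1 := Padic.norm_p_lt_one
    have h3 : 0 ≤ ‖(ℓ : ℚ_[ℓ])‖ := norm_nonneg _
    calc ‖((4 * j : ℤ) : ℚ_[ℓ])‖ * ‖(ℓ : ℚ_[ℓ])‖ ≤ 1 * ‖(ℓ : ℚ_[ℓ])‖ := by gcongr
      _ < 1 := by rw [one_mul]; exact h2

end IsPi

end Pool.Agent.NUH
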