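import Pool.Agent.NUH.Conj

/-!
# The main theorem on the plane
-/

set_option autoImplicit false

namespace Pool.Agent.NUH

open MeasureTheory Filter Topology
open scoped ENNReal ContDiff NNReal

theorem Sim.UVz {E U V M : Mt} (h : Sim E U V M) (z : ℝ × ℝ) : mr U (mr V z) = z := by
  rw [← mr_mul, h.UV, mr_one]

theorem Sim.VUz {E U V M : Mt} (h : Sim E U V M) (z : ℝ × ℝ) : mr V (mr U z) = z := by
  rw [← mr_mul, h.VU, mr_one]

theorem Sim.UVk {E U V M : Mt} (h : Sim E U V M) (z : ℤ × ℤ) : mv U (mv V z) = z := by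
  rw [← mv_mul, h.UV, mv_one]

theorem Sim.VUk {E U V M : Mt} (h : Sim E U V M) (z : ℤ × ℤ) : mv V (mv U z) = z := by
  rw [← mv_mul, h.VU, mv_one]

theorem Sim.symm {E U V M : Mt} (h : Sim E U V M) : Sim M V U E where
  UV := h.VU
  VU := h.UV
  EU := h.VE.symm
  VE := h.EU.symm

/-- conjugation of a map -/
noncomputable def cj (U V : Mt) (Φ : ℝ × ℝ → ℝ × ℝ) (z : ℝ × ℝ) : ℝ × ℝ := mr U (Φ (mr V z))

theorem cj_per {E U V M : Mt} (h : Sim E U V M) {Φ : ℝ × ℝ → ℝ × ℝ}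
    (hp : ∀ z k, Φ (z + zc k) = Φ z + zc (mv M k)) (z : ℝ × ℝ) (k : ℤ × ℤ) :
    cj U V Φ (z + zc k) = cj U V Φ z + zc (mv E k) := by
  unfold cj
  rw [map_add, mr_zc, hp, map_add, mr_zc, ← mv_mul, ← mv_mul]
  have : U.mul M = E.mul U := h.EU.symm
  rw [this, mv_mul, mv_mul, h.UVk]

theorem cj_cj {E U V M : Mt} (h : Sim E U V M) (G : ℝ × ℝ → ℝ × ℝ) :
    cj U V (cj V U G) = G := by
  funext z
  unfold cj
  rw [h.UVz, h.UVz]

theorem cj_iter {E U V M : Mt} (h : Sim E U V M) (Φ : ℝ × ℝ → ℝ × ℝ) (n : ℕ) :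
    (cj U V Φ)^[n] = cj U V (Φ^[n]) := by
  induction n with
  | zero =>
    funext z
    unfold cj
    simp only [Function.iterate_zero, id]
    rw [h.UVz]
  | succ n ih =>
    funext z
    rw [Function.iterate_succ_apply, ih]
    unfold cj
    rw [h.VUz, Function.iterate_succ_apply]

theorem cj_contDiff (U V : Mt) {Φ : ℝ × ℝ → ℝ × ℝ} {n : WithTop ℕ∞} (h : ContDiff ℝ n Φ) :
    ContDiff ℝ n (cj U V Φ) :=
  (mr U).contDiff.comp (h.comp (mr V).contDiff)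

theorem cj_fderiv (U V : Mt) {Φ : ℝ × ℝ → ℝ × ℝ} (h : Differentiable ℝ Φ) (z : ℝ × ℝ) :
    fderiv ℝ (cj U V Φ) z = (mr U).comp ((fderiv ℝ Φ (mr V z)).comp (mr V)) := by
  have h1 : HasFDerivAt (cj U V Φ) ((mr U).comp ((fderiv ℝ Φ (mr V z)).comp (mr V))) z :=
    (mr U).hasFDerivAt.comp z ((h (mr V z)).hasFDerivAt.comp z (mr V).hasFDerivAt)
  exact h1.fderiv

theorem mr_det_ne {E U V M : Mt} (h : Sim E U V M) :
    LinearMap.det (mr V : ℝ × ℝ →ₗ[ℝ] ℝ × ℝ) ≠ 0 := by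
  intro h0
  have h1 : (mr U : ℝ × ℝ →ₗ[ℝ] ℝ × ℝ).comp (mr V : ℝ × ℝ →ₗ[ℝ] ℝ × ℝ) = LinearMap.id := by
    apply LinearMap.ext
    intro z
    exact h.UVz z
  have h2 := LinearMap.det_comp (mr U : ℝ × ℝ →ₗ[ℝ] ℝ × ℝ) (mr V : ℝ × ℝ →ₗ[ℝ] ℝ × ℝ)
  rw [h1, h0, mul_zero, LinearMap.det_id] at h2
  exact one_ne_zero h2

theorem mr_qmp {E U V M : Mt} (h : Sim E U V M) :
    Measure.QuasiMeasurePreserving (mr V) (volume : Measure (ℝ × ℝ)) volume := by
  refine ⟨(mr V).continuous.measurable, ?_⟩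
  have := Measure.map_linearMap_addHaar_eq_smul_addHaar (volume : Measure (ℝ × ℝ)) (mr_det_ne h)
  have h2 : Measure.map (mr V) (volume : Measure (ℝ × ℝ)) =
      ENNReal.ofReal |(LinearMap.det (mr V : ℝ × ℝ →ₗ[ℝ] ℝ × ℝ))⁻¹| • volume := this
  rw [h2]
  exact Measure.smul_absolutelyContinuous

theorem Gz_cj {E U V M : Mt} (h : Sim E U V M) {Φ : ℝ × ℝ → ℝ × ℝ} (hd : Differentiable ℝ Φ)
    {c : ℝ} (hc : 0 < c) {z : ℝ × ℝ} (hz : Gz Φ c (mr V z)) : Gz (cj U V Φ) (c / 2) z := by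
  set κ : ℝ := max 1 (max ‖mr U‖ ‖mr V‖) with hκ
  have κ1 : 1 ≤ κ := le_max_left _ _
  have hU : ∀ x, ‖mr U x‖ ≤ κ * ‖x‖ := fun x => ((mr U).le_opNorm x).trans
    (mul_le_mul_of_nonneg_right ((le_max_left _ _).trans (le_max_right _ _)) (norm_nonneg _))
  have hV : ∀ x, ‖mr V x‖ ≤ κ * ‖x‖ := fun x => ((mr V).le_opNorm x).trans
    (mul_le_mul_of_nonneg_right ((le_max_right _ _).trans (le_max_right _ _)) (norm_nonneg _))
  have hlarge : ∀ᶠ k : ℕ in atTop, κ ^ 2 ≤ Real.exp (c / 2 * k) := by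
    have : Tendsto (fun k : ℕ => Real.exp (c / 2 * k)) atTop atTop :=
      Real.tendsto_exp_atTop.comp
        (tendsto_natCast_atTop_atTop.const_mul_atTop (by positivity))
    exact this.eventually_ge_atTop _
  unfold Gz at hz ⊢
  filter_upwards [hz, hlarge] with k hk hk2
  obtain ⟨⟨v, hv1, hv2⟩, hk3⟩ := hk
  have hkd : Differentiable ℝ (Φ^[k]) := hd.iterate k
  have hD : ∀ w, fderiv ℝ ((cj U V Φ)^[k]) z w = mr U (fderiv ℝ (Φ^[k]) (mr V z) (mr V w)) := by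
    intro w
    rw [cj_iter h, cj_fderiv U V hkd]
    rfl
  have e1 : Real.exp (c * k) = Real.exp (c / 2 * k) * Real.exp (c / 2 * k) := by
    rw [← Real.exp_add]; congr 1; ring
  have hp := Real.exp_pos (c / 2 * k)
  constructor
  · -- the contracted vector
    set w := mr U v with hw
    have hVw : mr V w = v := h.VUz v
    have hwn : 1 ≤ κ * ‖w‖ := by
      have := hV w
      rwa [hVw, hv1] at this
    have hw0 : 0 < ‖w‖ := by
      rcases (norm_nonneg w).lt_or_eq with h' | h'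
      · exact h'
      · rw [← h', mul_zero] at hwn; linarith
    refine ⟨‖w‖⁻¹ • w, ?_, ?_⟩
    · rw [norm_smul, norm_inv, norm_norm]; exact inv_mul_cancel₀ hw0.ne'
    · rw [map_smul, hD, hVw, norm_smul, norm_inv, norm_norm]
      have a1 := hU (fderiv ℝ (Φ^[k]) (mr V z) v)
      have a2 : ‖mr U (fderiv ℝ (Φ^[k]) (mr V z) v)‖ ≤ κ * Real.exp (-(c * k)) :=
        a1.trans (mul_le_mul_of_nonneg_left hv2 (by linarith))
      have a3 : ‖w‖⁻¹ ≤ κ := by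
        rw [inv_le_comm₀ hw0 (by linarith), inv_eq_one_div, div_le_iff₀ (by linarith)]
        linarith
      calc ‖w‖⁻¹ * ‖mr U (fderiv ℝ (Φ^[k]) (mr V z) v)‖
          ≤ κ * (κ * Real.exp (-(c * k))) :=
            mul_le_mul a3 a2 (norm_nonneg _) (by linarith)
        _ = κ ^ 2 * Real.exp (-(c * k)) := by ring
        _ ≤ Real.exp (c / 2 * k) * Real.exp (-(c * k)) :=
            mul_le_mul_of_nonneg_right hk2 (Real.exp_pos _).le
        _ = Real.exp (-(c / 2 * k)) := by rw [← Real.exp_add]; congr 1; ring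
  · have b1 : ‖fderiv ℝ (Φ^[k]) (mr V z)‖ ≤ κ ^ 2 * ‖fderiv ℝ ((cj U V Φ)^[k]) z‖ := by
      refine ContinuousLinearMap.opNorm_le_bound _ (by positivity) fun x => ?_
      have c1 : fderiv ℝ (Φ^[k]) (mr V z) x =
          mr V (fderiv ℝ ((cj U V Φ)^[k]) z (mr U x)) := by
        rw [hD, h.VUz, h.VUz]
      rw [c1]
      calc ‖mr V (fderiv ℝ ((cj U V Φ)^[k]) z (mr U x))‖
          ≤ κ * ‖fderiv ℝ ((cj U V Φ)^[k]) z (mr U x)‖ := hV _
        _ ≤ κ * (‖fderiv ℝ ((cj U V Φ)^[k]) z‖ * ‖mr U x‖) :=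
            mul_le_mul_of_nonneg_left (ContinuousLinearMap.le_opNorm _ _) (by linarith)
        _ ≤ κ * (‖fderiv ℝ ((cj U V Φ)^[k]) z‖ * (κ * ‖x‖)) :=
            mul_le_mul_of_nonneg_left
              (mul_le_mul_of_nonneg_left (hU x) (norm_nonneg _)) (by linarith)
        _ = κ ^ 2 * ‖fderiv ℝ ((cj U V Φ)^[k]) z‖ * ‖x‖ := by ring
    have b2 : Real.exp (c / 2 * k) * Real.exp (c / 2 * k) ≤
        Real.exp (c / 2 * k) * ‖fderiv ℝ ((cj U V Φ)^[k]) z‖ := by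
      rw [← e1]
      refine hk3.trans (b1.trans ?_)
      exact mul_le_mul_of_nonneg_right hk2 (norm_nonneg _)
    exact le_of_mul_le_mul_left b2 hp

theorem plane_main (E : Mt) (hE : 2 ≤ |E.det|) :
    ∃ (U V M : Mt) (f : ℝ → ℝ), Sim E U V M ∧ M.det = E.det ∧ ContDiff ℝ ∞ f ∧ Per f ∧
      ∃ δ : ℝ, 0 < δ ∧ ∃ c : ℝ, 0 < c ∧ ∀ G : ℝ × ℝ → ℝ × ℝ, ContDiff ℝ 1 G →
        (∀ z k, G (z + zc k) = G z + zc (mv E k)) →
        (∀ z, ‖G z - cj U V (fwd M f) z‖ ≤ δ) →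
        (∀ z, ‖fderiv ℝ G z - fderiv ℝ (cj U V (fwd M f)) z‖ ≤ δ) →
        ∀ᵐ z : ℝ × ℝ, Gz G c z := by
  obtain ⟨U, V, M, hS, ha, hdet, t, ht⟩ := exists_sim E hE
  rw [← hdet] at hE
  have hΔ : M.det ≠ 0 := by intro h; rw [h] at hE; simp at hE
  obtain ⟨R, hR, hRE, hcard, _⟩ := exists_res hΔ
  obtain ⟨f, hf, hp, δ, hδ, c, hc, hmain⟩ := nuh_open M hE ha ht hR hRE hcard
  refine ⟨U, V, M, f, hS, hdet, hf, hp, δ / (‖mr V‖ * (‖mr U‖ + 1) + 1), by positivity,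
    c / 2, half_pos hc, ?_⟩
  set D := ‖mr V‖ * (‖mr U‖ + 1) + 1 with hD
  have hD0 : 0 < D := by positivity
  intro G hG hGp h0 h1
  have hGd : Differentiable ℝ G := hG.differentiable one_ne_zero
  have hFd : Differentiable ℝ (fwd M f) := (fwd_contDiff M hf).differentiable (by simp)
  have hcF : cj V U (cj U V (fwd M f)) = fwd M f := cj_cj hS.symm _
  have hcFd : Differentiable ℝ (cj U V (fwd M f)) :=
    (cj_contDiff U V (fwd_contDiff M hf)).differentiable (by simp)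
  have key1 : ‖mr V‖ * (δ / D) ≤ δ := by
    have : ‖mr V‖ ≤ D := by
      rw [hD]; nlinarith [norm_nonneg (mr V), norm_nonneg (mr U)]
    calc ‖mr V‖ * (δ / D) ≤ D * (δ / D) := mul_le_mul_of_nonneg_right this (by positivity)
      _ = δ := by field_simp
  have key2 : ‖mr V‖ * (δ / D * ‖mr U‖) ≤ δ := by
    have : ‖mr V‖ * ‖mr U‖ ≤ D := by
      rw [hD]; nlinarith [norm_nonneg (mr V), norm_nonneg (mr U)]
    calc ‖mr V‖ * (δ / D * ‖mr U‖) = (‖mr V‖ * ‖mr U‖) * (δ / D) := by ring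
      _ ≤ D * (δ / D) := mul_le_mul_of_nonneg_right this (by positivity)
      _ = δ := by field_simp
  have hgrow := hmain (cj V U G) (cj_contDiff V U hG) (cj_per hS.symm hGp) ?_ ?_
  · have hae := ae_plane (cj_per hS.symm hGp)
      ((cj_contDiff V U hG).differentiable one_ne_zero) hgrow
    filter_upwards [(mr_qmp hS).ae hae] with z hz
    have := Gz_cj hS ((cj_contDiff V U hG).differentiable one_ne_zero) hc hz
    rwa [cj_cj hS] at this
  · intro z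
    have e : cj V U G z - fwd M f z = mr V (G (mr U z) - cj U V (fwd M f) (mr U z)) := by
      rw [map_sub]
      have := congrFun hcF z
      unfold cj at this ⊢
      rw [this]
    rw [e]
    calc ‖mr V (G (mr U z) - cj U V (fwd M f) (mr U z))‖
        ≤ ‖mr V‖ * ‖G (mr U z) - cj U V (fwd M f) (mr U z)‖ := (mr V).le_opNorm _
      _ ≤ ‖mr V‖ * (δ / D) := mul_le_mul_of_nonneg_left (h0 _) (norm_nonneg _)
      _ ≤ δ := key1
  · intro z
    have e : fderiv ℝ (cj V U G) z - fderiv ℝ (fwd M f) z =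
        (mr V).comp ((fderiv ℝ G (mr U z) - fderiv ℝ (cj U V (fwd M f)) (mr U z)).comp
          (mr U)) := by
      have e2 := cj_fderiv V U hcFd z
      rw [hcF] at e2
      rw [cj_fderiv V U hGd, e2]
      apply ContinuousLinearMap.ext
      intro x
      simp
    rw [e]
    calc _ ≤ ‖mr V‖ * ‖(fderiv ℝ G (mr U z) - fderiv ℝ (cj U V (fwd M f)) (mr U z)).comp
          (mr U)‖ := ContinuousLinearMap.opNorm_comp_le _ _
      _ ≤ ‖mr V‖ * (‖fderiv ℝ G (mr U z) - fderiv ℝ (cj U V (fwd M f)) (mr U z)‖ * ‖mr U‖) :=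
          mul_le_mul_of_nonneg_left (ContinuousLinearMap.opNorm_comp_le _ _) (norm_nonneg _)
      _ ≤ ‖mr V‖ * (δ / D * ‖mr U‖) :=
          mul_le_mul_of_nonneg_left
            (mul_le_mul_of_nonneg_right (h1 _) (norm_nonneg _)) (norm_nonneg _)
      _ ≤ δ := key2

end Pool.Agent.NUH
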