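import Pool.Agent.NUH.Pi

/-!
# The ultrametric dynamics of the shadows
-/

set_option autoImplicit false

namespace Pool.Agent.NUH

/-- an integer matrix `(a b; c d)` -/
structure Mt where
  a : ℤ
  b : ℤ
  c : ℤ
  d : ℤ

/-- determinant -/
def Mt.det (M : Mt) : ℤ := M.a * M.d - M.b * M.c

section

variable {ℓ : ℕ} [Fact ℓ.Prime]

/-- escaping states -/
def Esc (X Y : ℚ_[ℓ]) : Prop := 1 ≤ ‖Y‖ ∧ ‖X‖ ≤ ‖Y‖

/-- horizontal step -/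
noncomputable def sw (lam X Y : ℚ_[ℓ]) (n : ℤ) : ℚ_[ℓ] := X - lam * (n * Y + ℓ * (n : ℚ_[ℓ]) ^ 2)

/-- first coordinate of the new state -/
noncomputable def sX (M : Mt) (w z : ℚ_[ℓ]) : ℚ_[ℓ] := ((M.d : ℚ_[ℓ]) * w - M.b * z) / (M.det : ℚ_[ℓ])

/-- second coordinate of the new state -/
noncomputable def sY (M : Mt) (w z : ℚ_[ℓ]) : ℚ_[ℓ] := (-(M.c : ℚ_[ℓ]) * w + M.a * z) / (M.det : ℚ_[ℓ])

theorem norm_add_of_lt {x y : ℚ_[ℓ]} (h : ‖y‖ < ‖x‖) : ‖x + y‖ = ‖x‖ := by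
  rw [Padic.add_eq_max_of_ne (ne_of_gt h), max_eq_left h.le]

theorem norm_add_lt {x y : ℚ_[ℓ]} {r : ℝ} (hx : ‖x‖ < r) (hy : ‖y‖ < r) : ‖x + y‖ < r :=
  (Padic.nonarchimedean x y).trans_lt (max_lt hx hy)

theorem norm_add_le' {x y : ℚ_[ℓ]} {r : ℝ} (hx : ‖x‖ ≤ r) (hy : ‖y‖ ≤ r) : ‖x + y‖ ≤ r :=
  (Padic.nonarchimedean x y).trans (max_le hx hy)

theorem norm_sub_lt {x y : ℚ_[ℓ]} {r : ℝ} (hx : ‖x‖ < r) (hy : ‖y‖ < r) : ‖x - y‖ < r := by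
  rw [sub_eq_add_neg]; exact norm_add_lt hx (by rwa [norm_neg])

/-- hypotheses on `ℓ` and `lam` -/
structure Hyp (M : Mt) (θ : ℝ) (ℓ : ℕ) [Fact ℓ.Prime] (lam : ℚ_[ℓ]) : Prop where
  one_lt : (1 : ℝ) < ℓ
  lam_norm : ‖lam‖ = ℓ
  lam_ell : ‖lam * ℓ‖ = 1
  det_norm : ‖(M.det : ℚ_[ℓ])‖ = 1
  a_norm : ‖(M.a : ℚ_[ℓ])‖ = 1
  n_norm : ∀ n : ℤ, Odd n → |(n : ℝ)| ≤ A θ → ‖(n : ℚ_[ℓ])‖ = 1
  nn_norm : ∀ n n' : ℤ, |(n : ℝ)| ≤ A θ → |(n' : ℝ)| ≤ A θ → n ≠ n' → ‖(n : ℚ_[ℓ]) - n'‖ = 1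

variable {M : Mt} {θ : ℝ} {lam : ℚ_[ℓ]}

theorem esc_of_w (H : Hyp M θ ℓ lam) {w Y : ℚ_[ℓ]} {n : ℤ} (hn : Odd n) (hnA : |(n : ℝ)| ≤ A θ)
    (h1 : 1 ≤ ‖w‖) (h2 : ‖Y‖ ≤ ‖w‖) : Esc (sX M w (sw lam Y w n)) (sY M w (sw lam Y w n)) := by
  have hL := H.one_lt
  have hwpos : 0 < ‖w‖ := by linarith
  have hlt : ‖w‖ < ℓ * ‖w‖ := by nlinarith
  have hz : ‖sw lam Y w n‖ = ℓ * ‖w‖ := by
    have e : sw lam Y w n = -(lam * (n * w)) + (Y - (lam * ℓ) * (n : ℚ_[ℓ]) ^ 2) := by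
      unfold sw; ring
    have e1 : ‖-(lam * (n * w))‖ = ℓ * ‖w‖ := by
      rw [norm_neg, norm_mul, norm_mul, H.lam_norm, H.n_norm n hn hnA, one_mul]
    rw [e, norm_add_of_lt, e1]
    rw [e1]
    apply norm_sub_lt
    · linarith
    · rw [norm_mul, H.lam_ell, norm_pow, H.n_norm n hn hnA]
      linarith
  set z := sw lam Y w n with hzdef
  have hc : ‖-(M.c : ℚ_[ℓ]) * w‖ ≤ ‖w‖ := by
    rw [norm_mul, norm_neg]
    have := Padic.norm_int_le_one (p := ℓ) M.c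
    nlinarith [norm_nonneg w]
  have hY' : ‖sY M w z‖ = ℓ * ‖w‖ := by
    unfold sY
    rw [norm_div, H.det_norm, div_one, add_comm, norm_add_of_lt]
    · rw [norm_mul, H.a_norm, one_mul, hz]
    · rw [norm_mul (M.a : ℚ_[ℓ]), H.a_norm, one_mul, hz]
      linarith
  refine ⟨by rw [hY']; linarith, ?_⟩
  rw [hY']
  unfold sX
  rw [norm_div, H.det_norm, div_one, sub_eq_add_neg]
  apply norm_add_le'
  · rw [norm_mul]
    have := Padic.norm_int_le_one (p := ℓ) M.d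
    nlinarith [norm_nonneg w]
  · rw [norm_neg, norm_mul, hz]
    have := Padic.norm_int_le_one (p := ℓ) M.b
    have h0 : 0 ≤ ℓ * ‖w‖ := by positivity
    nlinarith [norm_nonneg (M.b : ℚ_[ℓ])]

theorem norm_sw_of_esc (H : Hyp M θ ℓ lam) {X Y : ℚ_[ℓ]} {n : ℤ} (hn : Odd n)
    (hnA : |(n : ℝ)| ≤ A θ) (h : Esc X Y) : ‖sw lam X Y n‖ = ℓ * ‖Y‖ := by
  have hL := H.one_lt
  obtain ⟨h1, h2⟩ := h
  have hlt : ‖Y‖ < ℓ * ‖Y‖ := by nlinarith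
  have e : sw lam X Y n = -(lam * (n * Y)) + (X - (lam * ℓ) * (n : ℚ_[ℓ]) ^ 2) := by
    unfold sw; ring
  have e1 : ‖-(lam * (n * Y))‖ = ℓ * ‖Y‖ := by
    rw [norm_neg, norm_mul, norm_mul, H.lam_norm, H.n_norm n hn hnA, one_mul]
  rw [e, norm_add_of_lt, e1]
  rw [e1]
  apply norm_sub_lt
  · linarith
  · rw [norm_mul, H.lam_ell, norm_pow, H.n_norm n hn hnA]
    linarith

theorem esc_child (H : Hyp M θ ℓ lam) {X Y : ℚ_[ℓ]} {n n' : ℤ} (hn : Odd n)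
    (hnA : |(n : ℝ)| ≤ A θ) (hn' : Odd n') (hnA' : |(n' : ℝ)| ≤ A θ) (h : Esc X Y) :
    Esc (sX M (sw lam X Y n) (sw lam Y (sw lam X Y n) n'))
      (sY M (sw lam X Y n) (sw lam Y (sw lam X Y n) n')) := by
  have e := norm_sw_of_esc H hn hnA h
  have hL := H.one_lt
  have h1 := h.1
  apply esc_of_w H hn' hnA'
  · rw [e]; nlinarith
  · rw [e]; nlinarith

theorem w_lt_of_not_esc (H : Hyp M θ ℓ lam) {Y w : ℚ_[ℓ]} {n' : ℤ}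
    (hn' : Odd n') (hnA' : |(n' : ℝ)| ≤ A θ) (hY : 1 ≤ ‖Y‖)
    (h : ¬ Esc (sX M w (sw lam Y w n')) (sY M w (sw lam Y w n'))) : ‖w‖ < ‖Y‖ := by
  by_contra hc
  push Not at hc
  exact h (esc_of_w H hn' hnA' (hY.trans hc) hc)

theorem small_of_not_esc (H : Hyp M θ ℓ lam) {Y w : ℚ_[ℓ]} {n' : ℤ}
    (hn' : Odd n') (hnA' : |(n' : ℝ)| ≤ A θ) (hY : ‖Y‖ < 1)
    (h : ¬ Esc (sX M w (sw lam Y w n')) (sY M w (sw lam Y w n'))) :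
    ‖w‖ < 1 ∧ ‖sX M w (sw lam Y w n')‖ < 1 ∧ ‖sY M w (sw lam Y w n')‖ < 1 := by
  have hw : ‖w‖ < 1 := by
    by_contra hc
    push Not at hc
    exact h (esc_of_w H hn' hnA' hc (hY.le.trans hc))
  set z := sw lam Y w n' with hz
  have hc : ‖-(M.c : ℚ_[ℓ]) * w‖ ≤ ‖w‖ := by
    rw [norm_mul, norm_neg]
    have := Padic.norm_int_le_one (p := ℓ) M.c
    nlinarith [norm_nonneg w]
  have hd : ‖(M.d : ℚ_[ℓ]) * w‖ ≤ ‖w‖ := by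
    rw [norm_mul]
    have := Padic.norm_int_le_one (p := ℓ) M.d
    nlinarith [norm_nonneg w]
  have hb : ‖(M.b : ℚ_[ℓ]) * z‖ ≤ ‖z‖ := by
    rw [norm_mul]
    have := Padic.norm_int_le_one (p := ℓ) M.b
    nlinarith [norm_nonneg z]
  have ha : ‖(M.a : ℚ_[ℓ]) * z‖ = ‖z‖ := by rw [norm_mul, H.a_norm, one_mul]
  have hz1 : ‖z‖ < 1 := by
    by_contra hc1
    push Not at hc1
    apply h
    have hY' : ‖sY M w z‖ = ‖z‖ := by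
      unfold sY
      rw [norm_div, H.det_norm, div_one, add_comm, norm_add_of_lt, ha]
      rw [ha]; linarith
    refine ⟨by rw [hY']; exact hc1, ?_⟩
    rw [hY']
    unfold sX
    rw [norm_div, H.det_norm, div_one, sub_eq_add_neg]
    apply norm_add_le'
    · linarith
    · rwa [norm_neg]
  refine ⟨hw, ?_, ?_⟩
  · unfold sX
    rw [norm_div, H.det_norm, div_one]
    exact norm_sub_lt (hd.trans_lt hw) (hb.trans_lt hz1)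
  · unfold sY
    rw [norm_div, H.det_norm, div_one]
    exact norm_add_lt (hc.trans_lt hw) (by rw [ha]; exact hz1)

theorem letter_big (H : Hyp M θ ℓ lam) {X Y : ℚ_[ℓ]} {n n' : ℤ}
    (hnA : |(n : ℝ)| ≤ A θ) (hnA' : |(n' : ℝ)| ≤ A θ) (hY : 1 ≤ ‖Y‖)
    (h1 : ‖sw lam X Y n‖ < ‖Y‖) (h2 : ‖sw lam X Y n'‖ < ‖Y‖) : n = n' := by
  by_contra hne
  have hL := H.one_lt
  have hd := H.nn_norm n n' hnA hnA' hne
  have h3 := norm_sub_lt h1 h2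
  have e : sw lam X Y n - sw lam X Y n' =
      -(lam * (((n : ℚ_[ℓ]) - n') * Y)) + -((lam * ℓ) * (((n : ℚ_[ℓ]) - n') * ((n + n' : ℤ) : ℚ_[ℓ]))) := by
    unfold sw; push_cast; ring
  have e1 : ‖-(lam * (((n : ℚ_[ℓ]) - n') * Y))‖ = ℓ * ‖Y‖ := by
    rw [norm_neg, norm_mul, norm_mul, H.lam_norm, hd, one_mul]
  rw [e, norm_add_of_lt, e1] at h3
  · nlinarith
  · rw [e1, norm_neg, norm_mul, H.lam_ell, norm_mul, hd, one_mul, one_mul]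
    have := Padic.norm_int_le_one (p := ℓ) (n + n')
    nlinarith

theorem letter_small (H : Hyp M θ ℓ lam) {X Y : ℚ_[ℓ]} {n n' : ℤ} (hn : Odd n)
    (hnA : |(n : ℝ)| ≤ A θ) (hn' : Odd n') (hnA' : |(n' : ℝ)| ≤ A θ) (hX : ‖X‖ < 1)
    (h1 : ‖sw lam X Y n‖ < 1) (h2 : ‖sw lam X Y n'‖ < 1) : n = n' := by
  by_contra hne
  have hd := H.nn_norm n n' hnA hnA' hne
  have key : ∀ k : ℤ, Odd k → |(k : ℝ)| ≤ A θ → ‖sw lam X Y k‖ < 1 →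
      ‖lam * Y + (lam * ℓ) * k‖ < 1 := by
    intro k hk hkA h
    have h3 := norm_sub_lt hX h
    have e : X - sw lam X Y k = k * (lam * Y + (lam * ℓ) * k) := by unfold sw; ring
    rwa [e, norm_mul, H.n_norm k hk hkA, one_mul] at h3
  have h3 := norm_sub_lt (key n hn hnA h1) (key n' hn' hnA' h2)
  have e : lam * Y + (lam * ℓ) * (n : ℚ_[ℓ]) - (lam * Y + (lam * ℓ) * (n' : ℚ_[ℓ])) =
      (lam * ℓ) * ((n : ℚ_[ℓ]) - n') := by ring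
  rw [e, norm_mul, H.lam_ell, hd] at h3
  linarith

end

end Pool.Agent.NUH
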