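import Pool.Agent.NUH.Plane

/-!
# The torus
-/

set_option autoImplicit false

namespace Pool.Agent.NUH

open MeasureTheory Filter Topology
open scoped ENNReal ContDiff NNReal

/-- the torus -/
abbrev T2 : Type := UnitAddCircle × UnitAddCircle

/-- the projection of the plane onto the torus -/
def pr (z : ℝ × ℝ) : T2 := ((z.1 : UnitAddCircle), (z.2 : UnitAddCircle))

theorem pr_add_zc (z : ℝ × ℝ) (k : ℤ × ℤ) : pr (z + zc k) = pr z := by
  unfold pr zc
  ext
  · show ((z.1 + (k.1 : ℝ) : ℝ) : UnitAddCircle) = (z.1 : UnitAddCircle)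
    rw [AddCircle.coe_add]
    have : (((k.1 : ℤ) : ℝ) : UnitAddCircle) = 0 := by
      rw [AddCircle.coe_eq_zero_iff]; exact ⟨k.1, by simp⟩
    rw [this, add_zero]
  · show ((z.2 + (k.2 : ℝ) : ℝ) : UnitAddCircle) = (z.2 : UnitAddCircle)
    rw [AddCircle.coe_add]
    have : (((k.2 : ℤ) : ℝ) : UnitAddCircle) = 0 := by
      rw [AddCircle.coe_eq_zero_iff]; exact ⟨k.2, by simp⟩
    rw [this, add_zero]

theorem pr_eq {z w : ℝ × ℝ} (h : pr z = pr w) : ∃ k, z = w + zc k := by
  unfold pr at h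
  have h1 := congrArg Prod.fst h
  have h2 := congrArg Prod.snd h
  simp only at h1 h2
  rw [← sub_eq_zero, ← AddCircle.coe_sub, AddCircle.coe_eq_zero_iff] at h1 h2
  obtain ⟨m, hm⟩ := h1
  obtain ⟨n, hn⟩ := h2
  refine ⟨(m, n), ?_⟩
  unfold zc
  ext
  · simp only [Prod.fst_add]; simp at hm; linarith
  · simp only [Prod.snd_add]; simp at hn; linarith

theorem pr_surj (x : T2) : ∃ z, pr z = x := by
  obtain ⟨a, ha⟩ := QuotientAddGroup.mk_surjective x.1
  obtain ⟨b, hb⟩ := QuotientAddGroup.mk_surjective x.2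
  exact ⟨(a, b), Prod.ext ha hb⟩

/-- a section of the projection -/
noncomputable def sec (x : T2) : ℝ × ℝ :=
  ((AddCircle.equivIoc 1 0 x.1 : ℝ), (AddCircle.equivIoc 1 0 x.2 : ℝ))

theorem sec1_mp : MeasurePreserving (fun x : UnitAddCircle => (AddCircle.equivIoc 1 0 x : ℝ))
    volume (volume.restrict (Set.Ioc (0 : ℝ) (0 + 1))) := by
  have h1 := AddCircle.measurePreserving_equivIoc (1 : ℝ) (a := 0)
  exact (measurePreserving_subtype_coe measurableSet_Ioc).comp h1

theorem sec_qmp : Measure.QuasiMeasurePreserving sec (volume : Measure T2)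
    (volume : Measure (ℝ × ℝ)) := by
  have h := (sec1_mp.prod sec1_mp)
  rw [Measure.prod_restrict] at h
  refine ⟨h.measurable, ?_⟩
  have h2 : Measure.map sec (volume : Measure T2) =
    ((volume : Measure ℝ).prod (volume : Measure ℝ)).restrict
      (Set.Ioc (0 : ℝ) (0 + 1) ×ˢ Set.Ioc (0 : ℝ) (0 + 1)) := h.map_eq
  rw [h2]
  exact Measure.absolutelyContinuous_of_le Measure.restrict_le_self

theorem pr_sec (x : T2) : pr (sec x) = x := by
  unfold pr sec
  ext
  · exact (AddCircle.equivIoc 1 0).symm_apply_apply x.1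
  · exact (AddCircle.equivIoc 1 0).symm_apply_apply x.2

theorem ae_torus {P : ℝ × ℝ → Prop} (hP : ∀ z k, P (z + zc k) ↔ P z)
    (h : ∀ᵐ z : ℝ × ℝ, P z) : ∀ᵐ x : T2, ∀ z, pr z = x → P z := by
  filter_upwards [sec_qmp.ae h] with x hx z hz
  rw [← pr_sec x] at hz
  obtain ⟨k, rfl⟩ := pr_eq hz
  rw [hP]; exact hx

/-- the endomorphism of the torus -/
noncomputable def mT (M : Mt) : T2 →+ T2 where
  toFun x := (M.a • x.1 + M.b • x.2, M.c • x.1 + M.d • x.2)
  map_zero' := by simp
  map_add' := by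
    intro x y
    ext
    · simp only [Prod.fst_add, Prod.snd_add, smul_add]; abel
    · simp only [Prod.fst_add, Prod.snd_add, smul_add]; abel

theorem mT_pr (M : Mt) (z : ℝ × ℝ) : mT M (pr z) = pr (mr M z) := by
  rw [mr_apply]
  show (M.a • (z.1 : UnitAddCircle) + M.b • (z.2 : UnitAddCircle),
    M.c • (z.1 : UnitAddCircle) + M.d • (z.2 : UnitAddCircle)) = _
  unfold pr
  simp only [AddCircle.coe_add]
  ext
  · simp only; rw [← AddCircle.coe_zsmul, ← AddCircle.coe_zsmul]; simp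
  · simp only; rw [← AddCircle.coe_zsmul, ← AddCircle.coe_zsmul]; simp

theorem mT_cont (M : Mt) : Continuous (mT M) := by
  show Continuous fun x : T2 => (M.a • x.1 + M.b • x.2, M.c • x.1 + M.d • x.2)
  fun_prop

theorem mT_surj {M : Mt} (hΔ : M.det ≠ 0) : Function.Surjective (mT M) := by
  intro x
  obtain ⟨z, rfl⟩ := pr_surj x
  refine ⟨pr (einv M z), ?_⟩
  rw [mT_pr, mr_apply]
  obtain ⟨h1, h2⟩ := einv_eq hΔ z
  congr 1
  ext
  · exact h1.symm
  · exact h2.symm

theorem mT_mp {M : Mt} (hΔ : M.det ≠ 0) :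
    MeasurePreserving (mT M) (volume : Measure T2) (volume : Measure T2) := by
  haveI : (volume : Measure T2).IsAddHaarMeasure :=
    inferInstanceAs (((volume : Measure UnitAddCircle).prod
      (volume : Measure UnitAddCircle)).IsAddHaarMeasure)
  exact AddMonoidHom.measurePreserving (mT_cont M) (mT_surj hΔ) rfl

/-- vertical shear -/
noncomputable def sh2 (φ : UnitAddCircle → ℝ) (x : T2) : T2 := (x.1, x.2 + (φ x.1 : UnitAddCircle))

/-- horizontal shear -/
noncomputable def sh1 (φ : UnitAddCircle → ℝ) (x : T2) : T2 := (x.1 + (φ x.2 : UnitAddCircle), x.2)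

theorem sh2_mp {φ : UnitAddCircle → ℝ} (hφ : Continuous φ) :
    MeasurePreserving (sh2 φ) (volume : Measure T2) (volume : Measure T2) := by
  have h := MeasurePreserving.skew_product (μa := (volume : Measure UnitAddCircle))
    (μb := (volume : Measure UnitAddCircle)) (μc := (volume : Measure UnitAddCircle))
    (μd := (volume : Measure UnitAddCircle)) (f := id)
    (g := fun x y => y + (φ x : UnitAddCircle)) (MeasurePreserving.id _) (by
      have : Continuous fun p : T2 => p.2 + (φ p.1 : UnitAddCircle) :=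
        continuous_snd.add ((AddCircle.continuous_mk' 1).comp (hφ.comp continuous_fst))
      exact this.measurable) (by
      apply ae_of_all
      intro x
      exact (measurePreserving_add_right volume _).map_eq)
  exact h

theorem sh1_mp {φ : UnitAddCircle → ℝ} (hφ : Continuous φ) :
    MeasurePreserving (sh1 φ) (volume : Measure T2) (volume : Measure T2) := by
  have h1 : MeasurePreserving (Prod.swap : T2 → T2) (volume : Measure T2) (volume : Measure T2) :=
    Measure.measurePreserving_swap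
  have h2 : sh1 φ = Prod.swap ∘ sh2 φ ∘ Prod.swap := by
    funext x
    rfl
  rw [h2]
  exact h1.comp ((sh2_mp hφ).comp h1)

/-- the descended function -/
noncomputable def dsc {f : ℝ → ℝ} (hf : Per f) : UnitAddCircle → ℝ :=
  Function.Periodic.lift (f := f) (c := 1) (fun y => by have := hf y 1; simpa using this)

theorem dsc_coe {f : ℝ → ℝ} (hf : Per f) (y : ℝ) : dsc hf (y : UnitAddCircle) = f y :=
  Function.Periodic.lift_coe _ _

theorem dsc_cont {f : ℝ → ℝ} (hf : Per f) (hc : Continuous f) : Continuous (dsc hf) := by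
  unfold dsc
  exact continuous_coinduced_dom.mpr hc

/-- the map of the torus with lift `cj U V (fwd M f)` -/
noncomputable def fT (U V M : Mt) {f : ℝ → ℝ} (hf : Per f) (x : T2) : T2 :=
  mT U (mT M (sh1 (dsc hf) (sh2 (dsc hf) (mT V x))))

theorem fT_pr (U V M : Mt) {f : ℝ → ℝ} (hf : Per f) (z : ℝ × ℝ) :
    fT U V M hf (pr z) = pr (cj U V (fwd M f) z) := by
  unfold fT cj
  rw [mT_pr]
  set w := mr V z
  have h2 : sh2 (dsc hf) (pr w) = pr (w.1, w.2 + f w.1) := by
    unfold sh2 pr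
    rw [dsc_coe, AddCircle.coe_add]
  have h1 : ∀ u : ℝ × ℝ, sh1 (dsc hf) (pr u) = pr (u.1 + f u.2, u.2) := by
    intro u
    unfold sh1 pr
    rw [dsc_coe, AddCircle.coe_add]
  rw [h2, h1, mT_pr, mT_pr, mr_apply M]
  rfl

theorem sim_det {E U V M : Mt} (h : Sim E U V M) : U.det ≠ 0 ∧ V.det ≠ 0 := by
  have h1 : U.det * V.det = 1 := by
    have e : (U.mul V).det = U.det * V.det := by unfold Mt.mul Mt.det; ring
    rw [← e, h.UV]; rfl
  constructor
  · intro h0; rw [h0, zero_mul] at h1; exact zero_ne_one h1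
  · intro h0; rw [h0, mul_zero] at h1; exact zero_ne_one h1

theorem fT_mp {E U V M : Mt} (h : Sim E U V M) (hΔ : M.det ≠ 0) {f : ℝ → ℝ} (hf : Per f)
    (hc : Continuous f) :
    MeasurePreserving (fT U V M hf) (volume : Measure T2) (volume : Measure T2) := by
  obtain ⟨hU, hV⟩ := sim_det h
  have hd := dsc_cont hf hc
  exact (mT_mp hU).comp ((mT_mp hΔ).comp ((sh1_mp hd).comp ((sh2_mp hd).comp (mT_mp hV))))

theorem cj_det {E U V M : Mt} (h : Sim E U V M) {Φ : ℝ × ℝ → ℝ × ℝ} (hd : Differentiable ℝ Φ)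
    (z : ℝ × ℝ) : (fderiv ℝ (cj U V Φ) z).det = (fderiv ℝ Φ (mr V z)).det := by
  rw [cj_fderiv U V hd]
  have h1 : ((mr U).comp ((fderiv ℝ Φ (mr V z)).comp (mr V))).det =
      (mr U).det * ((fderiv ℝ Φ (mr V z)).det * (mr V).det) := by
    have a1 : ((mr U).comp ((fderiv ℝ Φ (mr V z)).comp (mr V))).det =
      (mr U).det * ((fderiv ℝ Φ (mr V z)).comp (mr V)).det := LinearMap.det_comp _ _
    have a2 : ((fderiv ℝ Φ (mr V z)).comp (mr V)).det =
      (fderiv ℝ Φ (mr V z)).det * (mr V).det := LinearMap.det_comp _ _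
    rw [a1, a2]
  have h2 : (mr U).det * (mr V).det = 1 := by
    have a1 : (mr U : ℝ × ℝ →ₗ[ℝ] ℝ × ℝ).comp (mr V : ℝ × ℝ →ₗ[ℝ] ℝ × ℝ) = LinearMap.id := by
      apply LinearMap.ext
      intro z
      exact h.UVz z
    have a2 := LinearMap.det_comp (mr U : ℝ × ℝ →ₗ[ℝ] ℝ × ℝ) (mr V : ℝ × ℝ →ₗ[ℝ] ℝ × ℝ)
    rw [a1, LinearMap.det_id] at a2
    exact a2.symm
  rw [h1]
  calc (mr U).det * ((fderiv ℝ Φ (mr V z)).det * (mr V).det) =
      ((mr U).det * (mr V).det) * (fderiv ℝ Φ (mr V z)).det := by ring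
    _ = _ := by rw [h2, one_mul]

end Pool.Agent.NUH
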