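import Pool.Agent.NUH.Close

/-!
# The transfer inequality for lifts of maps of the torus
-/

set_option autoImplicit false

namespace Pool.Agent.NUH

open MeasureTheory Filter Topology
open scoped ENNReal

/-- the fundamental square -/
def Q : Set (ℝ × ℝ) := Set.Ico (0 : ℝ) 1 ×ˢ Set.Ico (0 : ℝ) 1

theorem Q_meas : MeasurableSet Q := measurableSet_Ico.prod measurableSet_Ico

/-- indicator of the square -/
noncomputable def iQ (z : ℝ × ℝ) : ℝ≥0∞ := Q.indicator 1 z

theorem iQ_meas : Measurable iQ := measurable_one.indicator Q_meas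

/-- the integer part -/
noncomputable def fl (z : ℝ × ℝ) : ℤ × ℤ := (⌊z.1⌋, ⌊z.2⌋)

theorem iQ_sub (z : ℝ × ℝ) (k : ℤ × ℤ) : iQ (z - zc k) = if k = fl z then 1 else 0 := by
  unfold iQ
  have h : z - zc k ∈ Q ↔ k = fl z := by
    unfold Q zc fl
    rw [Set.mem_prod]
    simp only [Prod.fst_sub, Prod.snd_sub, Set.mem_Ico]
    constructor
    · rintro ⟨⟨h1, h2⟩, ⟨h3, h4⟩⟩
      ext
      · show k.1 = ⌊z.1⌋
        symm; rw [Int.floor_eq_iff]; constructor <;> linarith
      · show k.2 = ⌊z.2⌋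
        symm; rw [Int.floor_eq_iff]; constructor <;> linarith
    · rintro rfl
      have a1 := Int.floor_le z.1
      have a2 := Int.lt_floor_add_one z.1
      have a3 := Int.floor_le z.2
      have a4 := Int.lt_floor_add_one z.2
      refine ⟨⟨?_, ?_⟩, ⟨?_, ?_⟩⟩ <;> simp only <;> linarith
  split_ifs with hk
  · rw [Set.indicator_of_mem (h.mpr hk)]; rfl
  · rw [Set.indicator_of_notMem (fun h' => hk (h.mp h'))]

theorem tsum_iQ (z : ℝ × ℝ) : ∑' k : ℤ × ℤ, iQ (z - zc k) = 1 := by
  rw [tsum_eq_single (fl z)]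
  · rw [iQ_sub, if_pos rfl]
  · intro k hk
    rw [iQ_sub, if_neg hk]

/-- a lift `Φ` of a map of the torus, its inverse `H` on the plane and the derivative of `H` -/
structure Lift (M : Mt) (Φ H : ℝ × ℝ → ℝ × ℝ) (H' : ℝ × ℝ → (ℝ × ℝ →L[ℝ] ℝ × ℝ)) : Prop where
  right : ∀ x, Φ (H x) = x
  left : ∀ z, H (Φ z) = z
  per : ∀ z k, Φ (z + zc k) = Φ z + zc (mv M k)
  contΦ : Continuous Φ
  deriv : ∀ x, HasFDerivAt H (H' x) x
  contH' : Continuous H'

section

variable {M : Mt} {Φ H : ℝ × ℝ → ℝ × ℝ} {H' : ℝ × ℝ → (ℝ × ℝ →L[ℝ] ℝ × ℝ)}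

theorem Lift.contH (L : Lift M Φ H H') : Continuous H :=
  continuous_iff_continuousAt.mpr fun x => (L.deriv x).continuousAt

theorem Lift.perH (L : Lift M Φ H H') (x : ℝ × ℝ) (k : ℤ × ℤ) :
    H (x + zc (mv M k)) = H x + zc k := by
  have h := L.per (H x) k
  rw [L.right] at h
  rw [← h, L.left]

theorem Lift.perH' (L : Lift M Φ H H') (x : ℝ × ℝ) (k : ℤ × ℤ) :
    H' (x + zc (mv M k)) = H' x := by
  have h1 : HasFDerivAt (fun y => H (y + zc (mv M k))) (H' (x + zc (mv M k))) x := by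
    have := (L.deriv (x + zc (mv M k))).comp x ((hasFDerivAt_id x).add_const (zc (mv M k)))
    rw [ContinuousLinearMap.comp_id] at this
    exact this
  have h2 : HasFDerivAt (fun y => H (y + zc (mv M k))) (H' x) x := by
    have : (fun y => H (y + zc (mv M k))) = fun y => H y + zc k := by
      funext y; exact L.perH y k
    rw [this]
    exact (L.deriv x).add_const _
  exact h1.unique h2

theorem Lift.det_meas (L : Lift M Φ H H') : Continuous fun x => (H' x).det :=
  ContinuousLinearMap.continuous_det.comp L.contH'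

/-- the transfer inequality -/
theorem transfer (L : Lift M Φ H H') {R : Finset (ℤ × ℤ)} (hR : Res M R)
    {φ : ℝ × ℝ → ℝ≥0∞} (hφ : Measurable φ) (hper : ∀ z k, φ (z + zc k) = φ z) :
    ∫⁻ z in Q, φ z ≤ ∫⁻ x in Q, ∑ m ∈ R, ENNReal.ofReal |(H' (x + zc m)).det| *
      φ (H (x + zc m)) := by
  have hiQ := iQ_meas
  have hQ : ∀ g : ℝ × ℝ → ℝ≥0∞, ∫⁻ z in Q, g z = ∫⁻ z, g z * iQ z := by
    intro g
    rw [← lintegral_indicator Q_meas]
    congr 1
    funext z
    unfold iQ
    by_cases hz : z ∈ Q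
    · rw [Set.indicator_of_mem hz, Set.indicator_of_mem hz]; simp
    · rw [Set.indicator_of_notMem hz, Set.indicator_of_notMem hz]; simp
  have hdet := L.det_meas
  have hcH := L.contH
  have hmeasΦ := L.contΦ.measurable
  rw [hQ, hQ]
  -- pointwise inequality
  have h1 : ∀ z, φ z * iQ z ≤ ∑ m ∈ R, ∑' k : ℤ × ℤ, φ z * iQ z * iQ (Φ (z + zc k) - zc m) := by
    intro z
    obtain ⟨m, hm, j, hj⟩ := hR.ex (fl (Φ z))
    have e : Φ (z + zc (-j)) - zc m = Φ z - zc (fl (Φ z)) := by
      rw [L.per, hj, zc_add]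
      have : zc (mv M (-j)) = -zc (mv M j) := by
        unfold zc mv; ext <;> simp <;> ring
      rw [this]; abel
    have h2 : φ z * iQ z ≤ ∑' k : ℤ × ℤ, φ z * iQ z * iQ (Φ (z + zc k) - zc m) := by
      refine le_trans ?_ (ENNReal.le_tsum (-j))
      rw [e, iQ_sub, if_pos rfl, mul_one]
    exact h2.trans (Finset.single_le_sum
      (f := fun m => ∑' k : ℤ × ℤ, φ z * iQ z * iQ (Φ (z + zc k) - zc m))
      (fun _ _ => zero_le) hm)
  refine (lintegral_mono h1).trans ?_
  have hm1 : ∀ (m k : ℤ × ℤ), Measurable fun z => φ z * iQ z * iQ (Φ (z + zc k) - zc m) := by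
    intro m k
    exact (hφ.mul hiQ).mul (hiQ.comp ((hmeasΦ.comp (measurable_add_const _)).sub_const _))
  rw [lintegral_finsetSum _ fun m _ => Measurable.tsum fun k => hm1 m k]
  have h3 : ∀ m ∈ R, ∫⁻ z, ∑' k : ℤ × ℤ, φ z * iQ z * iQ (Φ (z + zc k) - zc m) =
      ∫⁻ x, ENNReal.ofReal |(H' (x + zc m)).det| * φ (H (x + zc m)) * iQ x := by
    intro m _
    rw [lintegral_tsum fun k => (hm1 m k).aemeasurable]
    have h4 : ∀ k : ℤ × ℤ, ∫⁻ z, φ z * iQ z * iQ (Φ (z + zc k) - zc m) =
        ∫⁻ z, φ z * iQ (z - zc k) * iQ (Φ z - zc m) := by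
      intro k
      rw [← lintegral_sub_right_eq_self (fun z => φ z * iQ z * iQ (Φ (z + zc k) - zc m)) (zc k)]
      congr 1
      funext z
      rw [sub_add_cancel]
      have : φ (z - zc k) = φ z := by
        have := hper (z - zc k) k
        rw [sub_add_cancel] at this
        exact this.symm
      rw [this]
    simp_rw [h4]
    have hm2 : ∀ k : ℤ × ℤ, Measurable fun z => φ z * iQ (z - zc k) * iQ (Φ z - zc m) := fun k =>
      (hφ.mul (hiQ.comp (measurable_id.sub_const _))).mul (hiQ.comp (hmeasΦ.sub_const _))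
    rw [← lintegral_tsum fun k => (hm2 k).aemeasurable]
    have h5 : ∀ z, ∑' k : ℤ × ℤ, φ z * iQ (z - zc k) * iQ (Φ z - zc m) =
        φ z * iQ (Φ z - zc m) := by
      intro z
      rw [ENNReal.tsum_mul_right, ENNReal.tsum_mul_left, tsum_iQ, mul_one]
    simp_rw [h5]
    have h6 := lintegral_image_eq_lintegral_abs_det_fderiv_mul (volume : Measure (ℝ × ℝ))
      (s := Set.univ) (f := H) (f' := H') MeasurableSet.univ
      (fun x _ => (L.deriv x).hasFDerivWithinAt)
      (fun x _ y _ h => by rw [← L.right x, ← L.right y, h])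
      (fun z => φ z * iQ (Φ z - zc m))
    have h7 : H '' Set.univ = Set.univ := by
      rw [Set.image_univ]
      exact Set.eq_univ_of_forall fun z => ⟨Φ z, L.left z⟩
    rw [h7, Measure.restrict_univ] at h6
    rw [h6]
    simp_rw [L.right]
    rw [← lintegral_add_right_eq_self _ (zc m)]
    congr 1
    funext x
    rw [add_sub_cancel_right, mul_assoc]
  rw [Finset.sum_congr rfl h3, ← lintegral_finsetSum]
  · apply le_of_eq
    congr 1
    funext x
    rw [Finset.sum_mul]
  · intro m _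
    have hd : Measurable fun x => ENNReal.ofReal |(H' (x + zc m)).det| :=
      ENNReal.measurable_ofReal.comp
        ((hdet.measurable.comp (measurable_add_const _)).abs)
    exact (hd.mul (hφ.comp (hcH.measurable.comp (measurable_add_const _)))).mul hiQ

end

end Pool.Agent.NUH
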