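import Pool.Agent.NUH.Shadow

/-!
# Counting the non escaping nodes of the tree of preimages (piecewise linear map)
-/

set_option autoImplicit false

namespace Pool.Agent.NUH

/-- the inverse of the linear map -/
noncomputable def einv (M : Mt) (x : ℝ × ℝ) : ℝ × ℝ :=
  (((M.d : ℝ) * x.1 - M.b * x.2) / M.det, (-(M.c : ℝ) * x.1 + M.a * x.2) / M.det)

/-- integer vectors -/
def zc (m : ℤ × ℤ) : ℝ × ℝ := ((m.1 : ℝ), (m.2 : ℝ))

/-- the first coordinate after the horizontal shear -/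
noncomputable def bW (M : Mt) (f : ℝ → ℝ) (x : ℝ × ℝ) : ℝ := (einv M x).1 - f (einv M x).2

/-- the inverse branch -/
noncomputable def br (M : Mt) (f : ℝ → ℝ) (x : ℝ × ℝ) : ℝ × ℝ :=
  (bW M f x, (einv M x).2 - f (bW M f x))

/-- `ν (m)`; the second coordinate of `einv m` is `ν m / det` -/
def nu (M : Mt) (m : ℤ × ℤ) : ℤ := -M.c * m.1 + M.a * m.2

/-- average over the inverse branches -/
noncomputable def avg (R : Finset (ℤ × ℤ)) (M : Mt) (f : ℝ → ℝ) (φ : ℝ × ℝ → ℝ) (x : ℝ × ℝ) : ℝ :=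
  (∑ m ∈ R, φ (br M f (x + zc m))) / R.card

theorem avg_nonneg {R : Finset (ℤ × ℤ)} {M : Mt} {f : ℝ → ℝ} {φ : ℝ × ℝ → ℝ}
    (h : ∀ x, 0 ≤ φ x) (x : ℝ × ℝ) : 0 ≤ avg R M f φ x :=
  div_nonneg (Finset.sum_nonneg fun _ _ => h _) (Nat.cast_nonneg _)

theorem avg_mono {R : Finset (ℤ × ℤ)} {M : Mt} {f : ℝ → ℝ} {φ ψ : ℝ × ℝ → ℝ}
    (h : ∀ x, φ x ≤ ψ x) (x : ℝ × ℝ) : avg R M f φ x ≤ avg R M f ψ x :=
  div_le_div_of_nonneg_right (Finset.sum_le_sum fun _ _ => h _) (Nat.cast_nonneg _)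

theorem avg_iter_nonneg {R : Finset (ℤ × ℤ)} {M : Mt} {f : ℝ → ℝ} {φ : ℝ × ℝ → ℝ}
    (h : ∀ x, 0 ≤ φ x) (g : ℕ) (x : ℝ × ℝ) : 0 ≤ (avg R M f)^[g] φ x := by
  induction g generalizing x with
  | zero => exact h x
  | succ g ih => rw [Function.iterate_succ_apply']; exact avg_nonneg ih x

theorem avg_iter_mono {R : Finset (ℤ × ℤ)} {M : Mt} {f : ℝ → ℝ} {φ ψ : ℝ × ℝ → ℝ}
    (h : ∀ x, φ x ≤ ψ x) (g : ℕ) (x : ℝ × ℝ) :
    (avg R M f)^[g] φ x ≤ (avg R M f)^[g] ψ x := by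
  induction g generalizing x with
  | zero => exact h x
  | succ g ih =>
    rw [Function.iterate_succ_apply', Function.iterate_succ_apply']; exact avg_mono ih x

/-- the levels are separated: at most half of `R` has a given level -/
def Half (M : Mt) (R : Finset (ℤ × ℤ)) : Prop :=
  ∀ m₀ ∈ R, 2 * (R.filter fun m => M.det ∣ nu M (m - m₀)).card ≤ R.card

/-- the letter of a branch -/
noncomputable def lt (M : Mt) (θ : ℝ) (x : ℝ × ℝ) (m : ℤ × ℤ) : ℤ := nn θ (einv M (x + zc m)).2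

theorem einv_snd_sub (M : Mt) (x : ℝ × ℝ) (m m' : ℤ × ℤ) :
    (einv M (x + zc m)).2 - (einv M (x + zc m')).2 = (nu M (m - m') : ℝ) / M.det := by
  unfold einv zc nu
  simp only [Prod.fst_add, Prod.snd_add, Prod.fst_sub, Prod.snd_sub]
  push_cast
  ring

theorem dvd_of_lt_eq {M : Mt} {θ : ℝ} (hθ : 0 < θ) (hΔ : M.det ≠ 0)
    (hs : 4 * θ * |(M.det : ℝ)| ≤ 1) {x : ℝ × ℝ} {m m' : ℤ × ℤ} (h : lt M θ x m = lt M θ x m') :
    M.det ∣ nu M (m - m') := by
  have hΔr : (M.det : ℝ) ≠ 0 := by exact_mod_cast hΔ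
  have e := einv_snd_sub M x m m'
  have e2 : (M.det : ℝ) * ((einv M (x + zc m)).2 - (einv M (x + zc m')).2) =
      (nu M (m - m') : ℝ) := by
    rw [e]; field_simp
  obtain ⟨j, hj⟩ := int_of_nn_eq hθ hΔ hs (nu M (m - m')) e2 h
  refine ⟨j, ?_⟩
  rw [hj] at e2
  exact_mod_cast e2.symm

theorem card_letter {M : Mt} {θ : ℝ} (hθ : 0 < θ) (hΔ : M.det ≠ 0)
    (hs : 4 * θ * |(M.det : ℝ)| ≤ 1) {R : Finset (ℤ × ℤ)} (hR : Half M R) (x : ℝ × ℝ)
    {m₀ : ℤ × ℤ} (hm : m₀ ∈ R) :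
    2 * (R.filter fun m => lt M θ x m = lt M θ x m₀).card ≤ R.card := by
  refine le_trans ?_ (hR m₀ hm)
  apply Nat.mul_le_mul_left
  apply Finset.card_le_card
  intro m hm
  rw [Finset.mem_filter] at hm ⊢
  exact ⟨hm.1, dvd_of_lt_eq hθ hΔ hs hm.2⟩

/-- if the branches which contribute all have the same letter -/
theorem avg_le_half {M : Mt} {θ : ℝ} (hθ : 0 < θ) (hΔ : M.det ≠ 0)
    (hs : 4 * θ * |(M.det : ℝ)| ≤ 1) {R : Finset (ℤ × ℤ)} (hR : Half M R) (x : ℝ × ℝ)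
    (f : ℝ → ℝ) (φ : ℝ × ℝ → ℝ) {B : ℝ} (hB : 0 ≤ B) (P : ℤ × ℤ → Prop)
    (h1 : ∀ m ∈ R, ¬ P m → φ (br M f (x + zc m)) = 0)
    (h2 : ∀ m ∈ R, P m → φ (br M f (x + zc m)) ≤ B)
    (h3 : ∀ m ∈ R, ∀ m' ∈ R, P m → P m' → lt M θ x m = lt M θ x m') :
    avg R M f φ x ≤ B / 2 := by
  classical
  unfold avg
  rcases R.eq_empty_or_nonempty with hR0 | hR0
  · rw [hR0]; simp; positivity
  have hc : (0 : ℝ) < R.card := by exact_mod_cast hR0.card_pos
  rw [div_le_div_iff₀ hc (by norm_num)]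
  by_cases hex : ∃ m₀ ∈ R, P m₀
  · obtain ⟨m₀, hm₀, hP₀⟩ := hex
    have hcl := card_letter hθ hΔ hs hR x hm₀
    have hsum : ∑ m ∈ R, φ (br M f (x + zc m)) ≤
        ∑ m ∈ R, if lt M θ x m = lt M θ x m₀ then B else 0 := by
      apply Finset.sum_le_sum
      intro m hm
      by_cases hP : P m
      · rw [if_pos (h3 m hm m₀ hm₀ hP hP₀)]
        exact h2 m hm hP
      · rw [h1 m hm hP]
        split_ifs
        · exact hB
        · exact le_rfl
    rw [← Finset.sum_filter, Finset.sum_const, nsmul_eq_mul] at hsum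
    have hcl' : (2 : ℝ) * (R.filter fun m => lt M θ x m = lt M θ x m₀).card ≤ R.card := by
      exact_mod_cast hcl
    calc (∑ m ∈ R, φ (br M f (x + zc m))) * 2
        ≤ ((R.filter fun m => lt M θ x m = lt M θ x m₀).card * B) * 2 := by gcongr
      _ = (2 * (R.filter fun m => lt M θ x m = lt M θ x m₀).card) * B := by ring
      _ ≤ R.card * B := by gcongr
      _ = B * R.card := by ring
  · push Not at hex
    have : ∑ m ∈ R, φ (br M f (x + zc m)) = 0 :=
      Finset.sum_eq_zero fun m hm => h1 m hm (hex m hm)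
    rw [this]
    simp only [zero_mul]
    positivity

section

variable {ℓ : ℕ} [Fact ℓ.Prime] {θ : ℝ} {π : ℝ → ℚ_[ℓ]}

/-- the two shadows -/
noncomputable def sx (π : ℝ → ℚ_[ℓ]) (M : Mt) (x : ℝ × ℝ) : ℚ_[ℓ] := π (einv M x).1

/-- the two shadows -/
noncomputable def sy (π : ℝ → ℚ_[ℓ]) (M : Mt) (x : ℝ × ℝ) : ℚ_[ℓ] := π (einv M x).2

theorem IsPi.div_int (h : IsPi ℓ θ π) (x : ℝ) (k : ℤ) : π (x / k) = π x / (k : ℚ_[ℓ]) := by
  have := h.smul (1 / k) x
  push_cast at this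
  rw [one_div, one_div, ← div_eq_inv_mul, ← div_eq_inv_mul] at this
  exact this

theorem sx_eq (h : IsPi ℓ θ π) (M : Mt) (x : ℝ × ℝ) : sx π M x = sX M (π x.1) (π x.2) := by
  unfold sx einv sX
  simp only
  rw [h.div_int, h.sub, h.int_mul, h.int_mul]

theorem sy_eq (h : IsPi ℓ θ π) (M : Mt) (x : ℝ × ℝ) : sy π M x = sY M (π x.1) (π x.2) := by
  unfold sy einv sY
  simp only
  rw [h.div_int, h.add, h.int_mul, neg_mul, h.neg, h.int_mul, neg_mul]

theorem sx_add (h : IsPi ℓ θ π) (M : Mt) (x : ℝ × ℝ) (m : ℤ × ℤ) :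
    sx π M (x + zc m) = sx π M x := by
  rw [sx_eq h, sx_eq h]
  unfold zc
  simp only [Prod.fst_add, Prod.snd_add]
  rw [h.add_int, h.add_int]

theorem sy_add (h : IsPi ℓ θ π) (M : Mt) (x : ℝ × ℝ) (m : ℤ × ℤ) :
    sy π M (x + zc m) = sy π M x := by
  rw [sy_eq h, sy_eq h]
  unfold zc
  simp only [Prod.fst_add, Prod.snd_add]
  rw [h.add_int, h.add_int]

theorem pi_shear (h : IsPi ℓ θ π) (q : ℚ) (x y : ℝ) :
    π (x - (q : ℝ) * S θ y) = sw (q : ℚ_[ℓ]) (π x) (π y) (nn θ y) := by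
  rw [h.sub, h.smul, h.S]
  rfl

/-- the letters of the first and of the second shear and the shadows of the child -/
theorem shadow_child (h : IsPi ℓ θ π) (M : Mt) (q : ℚ) (x : ℝ × ℝ) (m : ℤ × ℤ) :
    let f : ℝ → ℝ := fun y => (q : ℝ) * S θ y
    let w := π (bW M f (x + zc m))
    let n' := nn θ (bW M f (x + zc m))
    w = sw (q : ℚ_[ℓ]) (sx π M x) (sy π M x) (lt M θ x m) ∧
      sx π M (br M f (x + zc m)) = sX M w (sw (q : ℚ_[ℓ]) (sy π M x) w n') ∧
      sy π M (br M f (x + zc m)) = sY M w (sw (q : ℚ_[ℓ]) (sy π M x) w n') := by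
  intro f w n'
  have h1 : w = sw (q : ℚ_[ℓ]) (sx π M x) (sy π M x) (lt M θ x m) := by
    have := pi_shear h q (einv M (x + zc m)).1 (einv M (x + zc m)).2
    have e1 : π (einv M (x + zc m)).1 = sx π M x := sx_add h M x m
    have e2 : π (einv M (x + zc m)).2 = sy π M x := sy_add h M x m
    rw [e1, e2] at this
    exact this
  have h2 : π (br M f (x + zc m)).2 = sw (q : ℚ_[ℓ]) (sy π M x) w n' := by
    have := pi_shear h q (einv M (x + zc m)).2 (bW M f (x + zc m))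
    have e2 : π (einv M (x + zc m)).2 = sy π M x := sy_add h M x m
    rw [e2] at this
    exact this
  refine ⟨h1, ?_, ?_⟩
  · rw [sx_eq h, h2]; rfl
  · rw [sy_eq h, h2]; rfl

open Classical in
/-- indicator of the non escaping points -/
noncomputable def en (π : ℝ → ℚ_[ℓ]) (M : Mt) (x : ℝ × ℝ) : ℝ :=
  if Esc (sx π M x) (sy π M x) then 0 else 1

theorem en_nonneg (M : Mt) (x : ℝ × ℝ) : 0 ≤ en π M x := by
  unfold en; split_ifs <;> norm_num

theorem en_le_one (M : Mt) (x : ℝ × ℝ) : en π M x ≤ 1 := by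
  unfold en; split_ifs <;> norm_num

/-- the count of the non escaping nodes -/
theorem count (hπ : IsPi ℓ θ π) {M : Mt} {q : ℚ} (H : Hyp M θ ℓ (q : ℚ_[ℓ])) (hθ : 0 < θ)
    (hΔ : M.det ≠ 0) (hs : 4 * θ * |(M.det : ℝ)| ≤ 1) {R : Finset (ℤ × ℤ)} (hR : Half M R)
    (g : ℕ) (x : ℝ × ℝ) :
    (Esc (sx π M x) (sy π M x) → (avg R M (fun y => (q : ℝ) * S θ y))^[g] (en π M) x = 0) ∧
    (‖sx π M x‖ < 1 ∧ ‖sy π M x‖ < 1 →
      (avg R M (fun y => (q : ℝ) * S θ y))^[g] (en π M) x ≤ (1 / 2) ^ g) ∧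
    (avg R M (fun y => (q : ℝ) * S θ y))^[g] (en π M) x ≤ 2 * (1 / 2) ^ g := by
  classical
  set f : ℝ → ℝ := fun y => (q : ℝ) * S θ y with hf
  induction g generalizing x with
  | zero =>
    simp only [Function.iterate_zero, id, pow_zero, mul_one]
    refine ⟨fun h => by unfold en; rw [if_pos h], fun _ => en_le_one M x, ?_⟩
    exact (en_le_one M x).trans (by norm_num)
  | succ g ih =>
    rw [Function.iterate_succ_apply']
    have hodd : ∀ y, Odd (nn θ y) := nn_odd θ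
    have hA : ∀ y, |(nn θ y : ℝ)| ≤ A θ := abs_nn_le hθ
    have hnn : ∀ x, 0 ≤ (avg R M f)^[g] (en π M) x := avg_iter_nonneg (en_nonneg M) g
    -- the children
    have hch := shadow_child (θ := θ) hπ M q x
    have hesc : Esc (sx π M x) (sy π M x) →
        ∀ m, Esc (sx π M (br M f (x + zc m))) (sy π M (br M f (x + zc m))) := by
      intro h m
      obtain ⟨h1, h2, h3⟩ := hch m
      rw [h2, h3, h1]
      exact esc_child H (hodd _) (hA _) (hodd _) (hA _) h
    refine ⟨?_, ?_, ?_⟩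
    · intro h
      unfold avg
      rw [Finset.sum_eq_zero, zero_div]
      intro m _
      exact (ih _).1 (hesc h m)
    · rintro ⟨hX, hY⟩
      have h3 := avg_le_half hθ hΔ hs hR x f ((avg R M f)^[g] (en π M))
        (B := (1 / 2) ^ g) (by positivity)
        (fun m => ¬ Esc (sx π M (br M f (x + zc m))) (sy π M (br M f (x + zc m))))
        (fun m _ hm => (ih _).1 (not_not.mp hm)) ?_ ?_
      · rw [pow_succ]; linarith
      · intro m _ hm
        apply (ih _).2.1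
        obtain ⟨h1, h2, h3⟩ := hch m
        rw [h2, h3] at hm ⊢
        exact (small_of_not_esc H (hodd _) (hA _) hY hm).2
      · intro m _ m' _ hm hm'
        obtain ⟨h1, h2, h3⟩ := hch m
        obtain ⟨h1', h2', h3'⟩ := hch m'
        rw [h2, h3] at hm
        rw [h2', h3'] at hm'
        have s1 := (small_of_not_esc H (hodd _) (hA _) hY hm).1
        have s2 := (small_of_not_esc H (hodd _) (hA _) hY hm').1
        rw [h1] at s1
        rw [h1'] at s2
        exact letter_small H (hodd _) (hA _) (hodd _) (hA _) hX s1 s2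
    · by_cases hY : ‖sy π M x‖ < 1
      · -- all non escaping children are small
        have hall : ∀ m ∈ R, (avg R M f)^[g] (en π M) (br M f (x + zc m)) ≤ (1 / 2) ^ g := by
          intro m _
          by_cases hm : Esc (sx π M (br M f (x + zc m))) (sy π M (br M f (x + zc m)))
          · rw [(ih _).1 hm]; positivity
          · apply (ih _).2.1
            obtain ⟨h1, h2, h3⟩ := hch m
            rw [h2, h3] at hm ⊢
            exact (small_of_not_esc H (hodd _) (hA _) hY hm).2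
        unfold avg
        rcases R.eq_empty_or_nonempty with hR0 | hR0
        · rw [hR0]; simp
        have hc : (0 : ℝ) < R.card := by exact_mod_cast hR0.card_pos
        rw [div_le_iff₀ hc]
        calc ∑ m ∈ R, (avg R M f)^[g] (en π M) (br M f (x + zc m))
            ≤ ∑ m ∈ R, (1 / 2 : ℝ) ^ g := Finset.sum_le_sum hall
          _ = 2 * (1 / 2) ^ (g + 1) * R.card := by
            rw [Finset.sum_const, nsmul_eq_mul, pow_succ]; ring
      · push Not at hY
        have h3 := avg_le_half hθ hΔ hs hR x f ((avg R M f)^[g] (en π M))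
          (B := 2 * (1 / 2) ^ g) (by positivity)
          (fun m => ¬ Esc (sx π M (br M f (x + zc m))) (sy π M (br M f (x + zc m))))
          (fun m _ hm => (ih _).1 (not_not.mp hm)) (fun m _ _ => (ih _).2.2) ?_
        · rw [pow_succ]; linarith
        · intro m _ m' _ hm hm'
          obtain ⟨h1, h2, h3⟩ := hch m
          obtain ⟨h1', h2', h3'⟩ := hch m'
          rw [h2, h3] at hm
          rw [h2', h3'] at hm'
          have s1 := w_lt_of_not_esc H (hodd _) (hA _) hY hm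
          have s2 := w_lt_of_not_esc H (hodd _) (hA _) hY hm'
          rw [h1] at s1
          rw [h1'] at s2
          exact letter_big H (hA _) (hA _) hY s1 s2

end

end Pool.Agent.NUH
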