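import Pool.Agent.NUH.Fwd

/-!
# Perturbation of the transfer operator
-/

set_option autoImplicit false

namespace Pool.Agent.NUH

open MeasureTheory Filter Topology
open scoped ENNReal

/-- real version of the transfer operator -/
noncomputable def LR (R : Finset (ℤ × ℤ)) (H : ℝ × ℝ → ℝ × ℝ)
    (H' : ℝ × ℝ → (ℝ × ℝ →L[ℝ] ℝ × ℝ)) (Ψ : ℝ × ℝ → ℝ × ℝ → ℝ) (x v : ℝ × ℝ) : ℝ :=
  ∑ m ∈ R, |(H' (x + zc m)).det| * Ψ (H (x + zc m)) (H' (x + zc m) v)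

/-- the negative moment -/
noncomputable def psR (s : ℝ) (_ v : ℝ × ℝ) : ℝ := ‖v‖ ^ (-s)

theorem psR_nonneg (s : ℝ) (x v : ℝ × ℝ) : 0 ≤ psR s x v := Real.rpow_nonneg (norm_nonneg _) _

section

variable {H : ℝ × ℝ → ℝ × ℝ} {H' : ℝ × ℝ → (ℝ × ℝ →L[ℝ] ℝ × ℝ)} {R : Finset (ℤ × ℤ)}

theorem LR_nonneg {Ψ : ℝ × ℝ → ℝ × ℝ → ℝ} (h : ∀ x v, 0 ≤ Ψ x v) (x v : ℝ × ℝ) :
    0 ≤ LR R H H' Ψ x v :=
  Finset.sum_nonneg fun _ _ => mul_nonneg (abs_nonneg _) (h _ _)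

theorem LR_iter_nonneg {Ψ : ℝ × ℝ → ℝ × ℝ → ℝ} (h : ∀ x v, 0 ≤ Ψ x v) (g : ℕ) :
    ∀ x v, 0 ≤ (LR R H H')^[g] Ψ x v := by
  induction g with
  | zero => exact h
  | succ g ih => rw [Function.iterate_succ_apply']; exact LR_nonneg ih

theorem LE_ofReal {Ψ : ℝ × ℝ → ℝ × ℝ → ℝ} (h : ∀ x v, 0 ≤ Ψ x v) :
    LE R H H' (fun x v => ENNReal.ofReal (Ψ x v)) = fun x v => ENNReal.ofReal (LR R H H' Ψ x v) := by
  funext x v
  unfold LE LR
  rw [ENNReal.ofReal_sum_of_nonneg fun m _ => mul_nonneg (abs_nonneg _) (h _ _)]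
  apply Finset.sum_congr rfl
  intro m _
  rw [ENNReal.ofReal_mul (abs_nonneg _)]

theorem LE_iter_ofReal {Ψ : ℝ × ℝ → ℝ × ℝ → ℝ} (h : ∀ x v, 0 ≤ Ψ x v) (g : ℕ) :
    (LE R H H')^[g] (fun x v => ENNReal.ofReal (Ψ x v)) =
      fun x v => ENNReal.ofReal ((LR R H H')^[g] Ψ x v) := by
  induction g with
  | zero => rfl
  | succ g ih =>
    rw [Function.iterate_succ_apply', ih, Function.iterate_succ_apply',
      LE_ofReal (LR_iter_nonneg h g)]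

theorem LR_mono (hinj : ∀ x v, v ≠ 0 → H' x v ≠ 0) {Ψ Ψ' : ℝ × ℝ → ℝ × ℝ → ℝ}
    (h : ∀ x v, v ≠ 0 → Ψ x v ≤ Ψ' x v) (x : ℝ × ℝ) {v : ℝ × ℝ} (hv : v ≠ 0) :
    LR R H H' Ψ x v ≤ LR R H H' Ψ' x v :=
  Finset.sum_le_sum fun _ _ => mul_le_mul_of_nonneg_left (h _ _ (hinj _ _ hv)) (abs_nonneg _)

theorem LR_add_mul (Ψ Ψ' : ℝ × ℝ → ℝ × ℝ → ℝ) (c : ℝ) (x v : ℝ × ℝ) :
    LR R H H' (fun x v => Ψ x v + c * Ψ' x v) x v = LR R H H' Ψ x v + c * LR R H H' Ψ' x v := by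
  unfold LR
  rw [Finset.mul_sum, ← Finset.sum_add_distrib]
  apply Finset.sum_congr rfl
  intro m _
  ring

/-- good functions: continuous, periodic, homogeneous -/
structure Gd (s : ℝ) (q : ℝ × ℝ → ℝ × ℝ → ℝ) : Prop where
  cont : ContinuousOn (Function.uncurry q) {p | p.2 ≠ 0}
  per : ∀ x k v, q (x + zc k) v = q x v
  hom : ∀ x v (t : ℝ), 0 < t → q x (t • v) = t ^ (-s) * q x v
  nn : ∀ x v, 0 ≤ q x v

theorem Gd_ps (s : ℝ) : Gd s (psR s) := by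
  refine ⟨?_, fun _ _ _ => rfl, ?_, psR_nonneg s⟩
  · show ContinuousOn (fun p : (ℝ × ℝ) × (ℝ × ℝ) => ‖p.2‖ ^ (-s)) _
    intro p hp
    have hp2 : p.2 ≠ 0 := hp
    have h1 : ContinuousAt (fun p : (ℝ × ℝ) × (ℝ × ℝ) => ‖p.2‖ ^ (-s)) p := by
      apply ContinuousAt.rpow_const
      · fun_prop
      · left; exact norm_ne_zero_iff.mpr hp2
    exact h1.continuousWithinAt
  · intro x v t ht
    unfold psR
    rw [norm_smul, Real.norm_eq_abs, abs_of_pos ht, Real.mul_rpow ht.le (norm_nonneg _)]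

variable {M : Mt} {Φ : ℝ × ℝ → ℝ × ℝ}

theorem Gd_LR (L : Lift M Φ H H') (hR : Res M R) (hinj : ∀ x v, v ≠ 0 → H' x v ≠ 0) {s : ℝ}
    {q : ℝ × ℝ → ℝ × ℝ → ℝ} (hq : Gd s q) : Gd s (LR R H H' q) := by
  have hcH := L.contH
  have hcH' := L.contH'
  have hdet := L.det_meas
  refine ⟨?_, ?_, ?_, LR_nonneg hq.nn⟩
  · show ContinuousOn (fun p : (ℝ × ℝ) × (ℝ × ℝ) => ∑ m ∈ R,
      |(H' (p.1 + zc m)).det| * q (H (p.1 + zc m)) (H' (p.1 + zc m) p.2)) _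
    apply continuousOn_finsetSum
    intro m _
    have h1 : Continuous fun p : (ℝ × ℝ) × (ℝ × ℝ) => p.1 + zc m := by fun_prop
    apply ContinuousOn.mul
    · exact ((hdet.comp h1).abs).continuousOn
    · have h2 : Continuous fun p : (ℝ × ℝ) × (ℝ × ℝ) =>
          (H (p.1 + zc m), H' (p.1 + zc m) p.2) :=
        (hcH.comp h1).prodMk ((hcH'.comp h1).clm_apply continuous_snd)
      exact hq.cont.comp h2.continuousOn fun p hp => hinj _ _ hp
  · intro x k v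
    unfold LR
    have h := hR.sum (fun m => |(H' (x + zc m)).det| *
      q (H (x + zc m)) (H' (x + zc m) v)) ?_ k
    · rw [← h]
      apply Finset.sum_congr rfl
      intro m _
      have : x + zc k + zc m = x + zc (m + k) := by rw [zc_add]; abel
      rw [this]
    · intro m j
      rw [zc_add, ← add_assoc, L.perH', L.perH, hq.per]
  · intro x v t ht
    unfold LR
    rw [Finset.mul_sum]
    apply Finset.sum_congr rfl
    intro m _
    rw [map_smul, hq.hom _ _ _ ht]; ring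

theorem Gd_iter (L : Lift M Φ H H') (hR : Res M R) (hinj : ∀ x v, v ≠ 0 → H' x v ≠ 0) {s : ℝ}
    {q : ℝ × ℝ → ℝ × ℝ → ℝ} (hq : Gd s q) (g : ℕ) : Gd s ((LR R H H')^[g] q) := by
  induction g with
  | zero => exact hq
  | succ g ih => rw [Function.iterate_succ_apply']; exact Gd_LR L hR hinj ih

theorem norm_sub_fl (x : ℝ × ℝ) : ‖x - zc (fl x)‖ ≤ 1 := by
  rw [Prod.norm_def]
  have h1 := Int.fract_nonneg x.1
  have h2 := (Int.fract_lt_one x.1).le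
  have h3 := Int.fract_nonneg x.2
  have h4 := (Int.fract_lt_one x.2).le
  have e1 : (x - zc (fl x)).1 = Int.fract x.1 := rfl
  have e2 : (x - zc (fl x)).2 = Int.fract x.2 := rfl
  rw [e1, e2, Real.norm_eq_abs, Real.norm_eq_abs, abs_of_nonneg h1, abs_of_nonneg h3]
  exact max_le h2 h4

theorem compact_ann (r r' : ℝ) :
    IsCompact (Metric.closedBall (0 : ℝ × ℝ) 2 ×ˢ {v : ℝ × ℝ | r ≤ ‖v‖ ∧ ‖v‖ ≤ r'}) := by
  apply (isCompact_closedBall _ _).prod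
  have h1 : {v : ℝ × ℝ | r ≤ ‖v‖ ∧ ‖v‖ ≤ r'} = Metric.closedBall 0 r' ∩ {v | r ≤ ‖v‖} := by
    ext v
    simp only [Set.mem_inter_iff, Metric.mem_closedBall, dist_zero_right]
    exact and_comm
  rw [h1]
  exact (isCompact_closedBall _ _).inter_right (isClosed_le continuous_const continuous_norm)

theorem Gd.bound {s : ℝ} {q : ℝ × ℝ → ℝ × ℝ → ℝ} (hq : Gd s q) {r r' : ℝ} (hr : 0 < r) :
    ∃ B : ℝ, 0 ≤ B ∧ ∀ x v, r ≤ ‖v‖ → ‖v‖ ≤ r' → q x v ≤ B := by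
  obtain ⟨B, hB⟩ := (compact_ann r r').exists_bound_of_continuousOn (hq.cont.mono (by
    rintro ⟨x, v⟩ ⟨_, h1, _⟩
    exact norm_pos_iff.mp (lt_of_lt_of_le hr h1)))
  refine ⟨max B 0, le_max_right _ _, ?_⟩
  intro x v h1 h2
  have e := hq.per (x - zc (fl x)) (fl x) v
  rw [sub_add_cancel] at e
  rw [e]
  have := hB (x - zc (fl x), v) ⟨by
    rw [Metric.mem_closedBall, dist_zero_right]; linarith [norm_sub_fl x], h1, h2⟩
  rw [Real.norm_eq_abs] at this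
  exact ((le_abs_self _).trans this).trans (le_max_left _ _)

theorem Gd.uc {s : ℝ} {q : ℝ × ℝ → ℝ × ℝ → ℝ} (hq : Gd s q) {r r' : ℝ} (hr : 0 < r) {κ : ℝ}
    (hκ : 0 < κ) :
    ∃ η : ℝ, 0 < η ∧ ∀ x x' v v' : ℝ × ℝ, ‖x' - x‖ ≤ η → ‖v' - v‖ ≤ η → r ≤ ‖v‖ → ‖v‖ ≤ r' →
      |q x' v' - q x v| ≤ κ := by
  have hU := (compact_ann (r / 2) (r' + r)).uniformContinuousOn_of_continuous (hq.cont.mono (by
    rintro ⟨x, v⟩ ⟨_, h1, _⟩
    exact norm_pos_iff.mp (lt_of_lt_of_le (by positivity : 0 < r / 2) h1)))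
  rw [Metric.uniformContinuousOn_iff] at hU
  obtain ⟨η, hη, hU⟩ := hU κ hκ
  refine ⟨min (η / 2) (min 1 (r / 2)), by positivity, ?_⟩
  intro x x' v v' hx hv h1 h2
  have b1 : ‖x' - x‖ ≤ 1 := hx.trans ((min_le_right _ _).trans (min_le_left _ _))
  have b2 : ‖v' - v‖ ≤ r / 2 := hv.trans ((min_le_right _ _).trans (min_le_right _ _))
  have b3 : ‖x' - x‖ ≤ η / 2 := hx.trans (min_le_left _ _)
  have b4 : ‖v' - v‖ ≤ η / 2 := hv.trans (min_le_left _ _)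
  have e := hq.per (x - zc (fl x)) (fl x) v
  rw [sub_add_cancel] at e
  have e' := hq.per (x' - zc (fl x)) (fl x) v'
  rw [sub_add_cancel] at e'
  rw [e, e']
  have n0 := norm_sub_fl x
  have n1 : ‖x' - zc (fl x)‖ ≤ 2 := by
    have : x' - zc (fl x) = (x' - x) + (x - zc (fl x)) := by abel
    rw [this]
    exact (norm_add_le _ _).trans (by linarith)
  have n2 : ‖v'‖ ≤ ‖v‖ + r / 2 := by
    have : v' = v + (v' - v) := by abel
    rw [this]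
    exact (norm_add_le _ _).trans (by linarith)
  have n3 : ‖v‖ - r / 2 ≤ ‖v'‖ := by
    have h3 : ‖v‖ ≤ ‖v'‖ + ‖v' - v‖ := by
      have : v = v' - (v' - v) := by abel
      calc ‖v‖ = ‖v' - (v' - v)‖ := by rw [← this]
        _ ≤ ‖v'‖ + ‖v' - v‖ := norm_sub_le _ _
    linarith
  have h3 := hU (x' - zc (fl x), v') ⟨by
      rw [Metric.mem_closedBall, dist_zero_right]; exact n1, by
      constructor
      · show r / 2 ≤ ‖v'‖; linarith
      · show ‖v'‖ ≤ r' + r; linarith⟩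
    (x - zc (fl x), v) ⟨by
      rw [Metric.mem_closedBall, dist_zero_right]; linarith, by
      constructor
      · show r / 2 ≤ ‖v‖; linarith
      · show ‖v‖ ≤ r' + r; linarith⟩ (by
      rw [Prod.dist_eq]
      apply max_lt
      · show dist (x' - zc (fl x)) (x - zc (fl x)) < η
        rw [dist_eq_norm, sub_sub_sub_cancel_right]; linarith
      · show dist v' v < η
        rw [dist_eq_norm]; linarith)
  rw [Real.dist_eq] at h3
  exact h3.le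

theorem det_diff (A B : ℝ × ℝ →L[ℝ] ℝ × ℝ) :
    |A.det - B.det| ≤ 2 * (‖A‖ + ‖B‖) * ‖A - B‖ := by
  have n1 : ‖((1, 0) : ℝ × ℝ)‖ = 1 := by rw [Prod.norm_def]; simp
  have n2 : ‖((0, 1) : ℝ × ℝ)‖ = 1 := by rw [Prod.norm_def]; simp
  have key : ∀ C : ℝ × ℝ →L[ℝ] ℝ × ℝ, |(C (1, 0)).1| ≤ ‖C‖ ∧ |(C (1, 0)).2| ≤ ‖C‖ ∧
      |(C (0, 1)).1| ≤ ‖C‖ ∧ |(C (0, 1)).2| ≤ ‖C‖ := by
    intro C
    have b1 : ‖C (1, 0)‖ ≤ ‖C‖ := by have := C.le_opNorm (1, 0); rwa [n1, mul_one] at this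
    have b2 : ‖C (0, 1)‖ ≤ ‖C‖ := by have := C.le_opNorm (0, 1); rwa [n2, mul_one] at this
    exact ⟨(norm_fst_le (C (1, 0))).trans b1, (norm_snd_le (C (1, 0))).trans b1,
      (norm_fst_le (C (0, 1))).trans b2, (norm_snd_le (C (0, 1))).trans b2⟩
  obtain ⟨a1, a2, a3, a4⟩ := key A
  obtain ⟨b1, b2, b3, b4⟩ := key B
  obtain ⟨c1, c2, c3, c4⟩ := key (A - B)
  simp only [_root_.sub_apply, Prod.fst_sub, Prod.snd_sub] at c1 c2 c3 c4
  rw [det_formula, det_formula]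
  have e : (A (1, 0)).1 * (A (0, 1)).2 - (A (0, 1)).1 * (A (1, 0)).2 -
      ((B (1, 0)).1 * (B (0, 1)).2 - (B (0, 1)).1 * (B (1, 0)).2) =
      (((A (1, 0)).1 - (B (1, 0)).1) * (A (0, 1)).2 + (B (1, 0)).1 * ((A (0, 1)).2 - (B (0, 1)).2)) -
      (((A (0, 1)).1 - (B (0, 1)).1) * (A (1, 0)).2 +
        (B (0, 1)).1 * ((A (1, 0)).2 - (B (1, 0)).2)) := by ring
  rw [e]
  have hA := norm_nonneg A
  have hB := norm_nonneg B
  have hAB := norm_nonneg (A - B)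
  refine (abs_sub _ _).trans ?_
  have t1 : |((A (1, 0)).1 - (B (1, 0)).1) * (A (0, 1)).2 +
      (B (1, 0)).1 * ((A (0, 1)).2 - (B (0, 1)).2)| ≤ ‖A - B‖ * ‖A‖ + ‖B‖ * ‖A - B‖ := by
    refine (abs_add_le _ _).trans ?_
    rw [abs_mul, abs_mul]
    exact add_le_add (mul_le_mul c1 a4 (abs_nonneg _) hAB) (mul_le_mul b1 c4 (abs_nonneg _) hB)
  have t2 : |((A (0, 1)).1 - (B (0, 1)).1) * (A (1, 0)).2 +
      (B (0, 1)).1 * ((A (1, 0)).2 - (B (1, 0)).2)| ≤ ‖A - B‖ * ‖A‖ + ‖B‖ * ‖A - B‖ := by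
    refine (abs_add_le _ _).trans ?_
    rw [abs_mul, abs_mul]
    exact add_le_add (mul_le_mul c3 a2 (abs_nonneg _) hAB) (mul_le_mul b3 c2 (abs_nonneg _) hB)
  linarith

theorem det_bound (A : ℝ × ℝ →L[ℝ] ℝ × ℝ) : |A.det| ≤ 2 * ‖A‖ ^ 2 := by
  have := det_diff A 0
  have h0 : (0 : ℝ × ℝ →L[ℝ] ℝ × ℝ).det = 0 := by rw [det_formula]; simp
  rw [h0] at this
  simp only [sub_zero, norm_zero, add_zero] at this
  linarith

/-- bounds for the unperturbed map -/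
structure Bnd (H₀' : ℝ × ℝ → (ℝ × ℝ →L[ℝ] ℝ × ℝ)) (K : ℝ) : Prop where
  K1 : 1 ≤ K
  up : ∀ x v, ‖H₀' x v‖ ≤ K * ‖v‖
  low : ∀ x v, ‖v‖ ≤ K * ‖H₀' x v‖

theorem Bnd.norm_le {H₀' : ℝ × ℝ → (ℝ × ℝ →L[ℝ] ℝ × ℝ)} {K : ℝ} (hB : Bnd H₀' K) (x : ℝ × ℝ) :
    ‖H₀' x‖ ≤ K :=
  ContinuousLinearMap.opNorm_le_bound _ (by linarith [hB.K1]) (hB.up x)

/-- `(H, H')` is `η` close to `(H₀, H₀')` -/
def Clo (H₀ : ℝ × ℝ → ℝ × ℝ) (H₀' : ℝ × ℝ → (ℝ × ℝ →L[ℝ] ℝ × ℝ)) (η : ℝ)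
    (H : ℝ × ℝ → ℝ × ℝ) (H' : ℝ × ℝ → (ℝ × ℝ →L[ℝ] ℝ × ℝ)) : Prop :=
  (∀ x, ‖H x - H₀ x‖ ≤ η) ∧ ∀ x, ‖H' x - H₀' x‖ ≤ η

variable {H₀ : ℝ × ℝ → ℝ × ℝ} {H₀' : ℝ × ℝ → (ℝ × ℝ →L[ℝ] ℝ × ℝ)}

theorem Clo.low {K η : ℝ} (hB : Bnd H₀' K) (hη : η ≤ 1 / (2 * K)) (h : Clo H₀ H₀' η H H')
    (x v : ℝ × ℝ) : ‖v‖ ≤ 2 * K * ‖H' x v‖ := by
  have hK := hB.K1
  have h1 := hB.low x v
  have h2 : ‖H' x v - H₀' x v‖ ≤ η * ‖v‖ := by
    have := (H' x - H₀' x).le_opNorm v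
    rw [_root_.sub_apply] at this
    exact this.trans (mul_le_mul_of_nonneg_right (h.2 x) (norm_nonneg _))
  have h3 : ‖H₀' x v‖ ≤ ‖H' x v‖ + ‖H' x v - H₀' x v‖ := by
    calc ‖H₀' x v‖ = ‖H' x v - (H' x v - H₀' x v)‖ := by congr 1; abel
      _ ≤ _ := norm_sub_le _ _
  have h4 : η * ‖v‖ ≤ 1 / (2 * K) * ‖v‖ := mul_le_mul_of_nonneg_right hη (norm_nonneg _)
  have h5 : K * (1 / (2 * K) * ‖v‖) = ‖v‖ / 2 := by field_simp
  have h6 : ‖v‖ ≤ K * (‖H' x v‖ + 1 / (2 * K) * ‖v‖) := by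
    refine h1.trans (mul_le_mul_of_nonneg_left (by linarith) (by linarith))
  rw [mul_add, h5] at h6
  linarith

theorem Clo.inj {K η : ℝ} (hB : Bnd H₀' K) (hη : η ≤ 1 / (2 * K)) (h : Clo H₀ H₀' η H H') :
    ∀ x v, v ≠ 0 → H' x v ≠ 0 := by
  intro x v hv h0
  have := h.low hB hη x v
  rw [h0, norm_zero, mul_zero] at this
  exact hv (norm_le_zero_iff.mp this)

theorem Clo.norm {K η : ℝ} (hB : Bnd H₀' K) (hη : η ≤ 1) (h : Clo H₀ H₀' η H H') (x : ℝ × ℝ) :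
    ‖H' x‖ ≤ K + 1 := by
  have h1 := hB.norm_le x
  have h2 := h.2 x
  calc ‖H' x‖ = ‖H₀' x + (H' x - H₀' x)‖ := by congr 1; abel
    _ ≤ ‖H₀' x‖ + ‖H' x - H₀' x‖ := norm_add_le _ _
    _ ≤ K + 1 := by linarith

/-- uniform bound of one step -/
theorem Clo.one {K η s : ℝ} (hs : 0 < s) (hB : Bnd H₀' K) (hη : η ≤ 1 / (2 * K)) (hη1 : η ≤ 1)
    (h : Clo H₀ H₀' η H H') (x : ℝ × ℝ) {v : ℝ × ℝ} (hv : v ≠ 0) :
    LR R H H' (psR s) x v ≤ (R.card * (2 * (K + 1) ^ 2 * (2 * K) ^ s)) * psR s x v := by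
  have hK := hB.K1
  have hv0 : 0 < ‖v‖ := norm_pos_iff.mpr hv
  unfold LR
  have key : ∀ m ∈ R, |(H' (x + zc m)).det| * psR s (H (x + zc m)) (H' (x + zc m) v) ≤
      2 * (K + 1) ^ 2 * (2 * K) ^ s * psR s x v := by
    intro m _
    have h1 := det_bound (H' (x + zc m))
    have h2 := h.norm hB hη1 (x + zc m)
    have h3 : |(H' (x + zc m)).det| ≤ 2 * (K + 1) ^ 2 := by
      refine h1.trans ?_
      gcongr
    have h4 := h.low hB hη (x + zc m) v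
    have h5 : psR s (H (x + zc m)) (H' (x + zc m) v) ≤ (2 * K) ^ s * psR s x v := by
      unfold psR
      have p1 : 0 < ‖H' (x + zc m) v‖ := norm_pos_iff.mpr (h.inj hB hη _ _ hv)
      have p2 : ‖v‖ / (2 * K) ≤ ‖H' (x + zc m) v‖ := by
        rw [div_le_iff₀ (by positivity)]; linarith
      have p3 := Real.rpow_le_rpow_of_nonpos (by positivity) p2 (by linarith : -s ≤ 0)
      refine p3.trans (le_of_eq ?_)
      rw [Real.div_rpow hv0.le (by positivity), Real.rpow_neg (by positivity : (0 : ℝ) ≤ 2 * K),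
        div_inv_eq_mul, mul_comm]
    calc |(H' (x + zc m)).det| * psR s (H (x + zc m)) (H' (x + zc m) v)
        ≤ (2 * (K + 1) ^ 2) * ((2 * K) ^ s * psR s x v) :=
          mul_le_mul h3 h5 (psR_nonneg _ _ _) (by positivity)
      _ = _ := by ring
  refine (Finset.sum_le_sum key).trans (le_of_eq ?_)
  rw [Finset.sum_const, nsmul_eq_mul]; ring

/-- closeness of one step on a good function -/
theorem close_one {K s : ℝ} (hB : Bnd H₀' K) {q : ℝ × ℝ → ℝ × ℝ → ℝ} (hq : Gd s q) {κ : ℝ}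
    (hκ : 0 < κ) : ∃ η : ℝ, 0 < η ∧ ∀ (H : ℝ × ℝ → ℝ × ℝ) (H' : ℝ × ℝ → (ℝ × ℝ →L[ℝ] ℝ × ℝ)),
      Clo H₀ H₀' η H H' → ∀ x v, v ≠ 0 → LR R H H' q x v ≤ LR R H₀ H₀' q x v + κ * psR s x v := by
  have hK := hB.K1
  obtain ⟨B, hB0, hBd⟩ := hq.bound (r := 1 / K) (r' := K) (by positivity)
  set κ' : ℝ := κ / ((R.card + 1) * (2 * (K + 1) ^ 2) * 2) with hκ'
  have hκ'0 : 0 < κ' := by positivity
  obtain ⟨η₁, hη₁, hU⟩ := hq.uc (r := 1 / K) (r' := K) (by positivity) hκ'0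
  set η : ℝ := min η₁ (min 1 (κ / ((R.card + 1) * (2 * (2 * K + 1) * (B + 1)) * 2))) with hη
  refine ⟨η, by positivity, ?_⟩
  intro H H' hC
  have hηa : η ≤ η₁ := min_le_left _ _
  have hηb : η ≤ 1 := (min_le_right _ _).trans (min_le_left _ _)
  have hηc : η ≤ κ / ((R.card + 1) * (2 * (2 * K + 1) * (B + 1)) * 2) :=
    (min_le_right _ _).trans (min_le_right _ _)
  have hη0 : 0 < η := by positivity
  -- unit vectors
  have hunit : ∀ x u, ‖u‖ = 1 → LR R H H' q x u ≤ LR R H₀ H₀' q x u + κ := by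
    intro x u hu
    unfold LR
    have key : ∀ m ∈ R, |(H' (x + zc m)).det| * q (H (x + zc m)) (H' (x + zc m) u) ≤
        |(H₀' (x + zc m)).det| * q (H₀ (x + zc m)) (H₀' (x + zc m) u) +
          (2 * (K + 1) ^ 2 * κ' + 2 * (2 * K + 1) * η * B) := by
      intro m _
      have b1 := hB.up (x + zc m) u
      have b2 := hB.low (x + zc m) u
      rw [hu, mul_one] at b1
      rw [hu] at b2
      have b3 : 1 / K ≤ ‖H₀' (x + zc m) u‖ := by
        rw [div_le_iff₀ (by positivity)]; linarith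
      have d1 : ‖H' (x + zc m) u - H₀' (x + zc m) u‖ ≤ η₁ := by
        have := (H' (x + zc m) - H₀' (x + zc m)).le_opNorm u
        rw [_root_.sub_apply, hu, mul_one] at this
        exact this.trans ((hC.2 _).trans hηa)
      have d2 := hU (H₀ (x + zc m)) (H (x + zc m)) (H₀' (x + zc m) u) (H' (x + zc m) u)
        ((hC.1 _).trans hηa) d1 b3 b1
      have d3 := hBd (H₀ (x + zc m)) (H₀' (x + zc m) u) b3 b1
      have d4 := hq.nn (H₀ (x + zc m)) (H₀' (x + zc m) u)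
      have n1 := hC.norm hB hηb (x + zc m)
      have n2 := hB.norm_le (x + zc m)
      have d5 : |(H' (x + zc m)).det| ≤ 2 * (K + 1) ^ 2 := by
        refine (det_bound _).trans ?_
        gcongr
      have d6 : |(H' (x + zc m)).det - (H₀' (x + zc m)).det| ≤ 2 * (2 * K + 1) * η := by
        refine (det_diff _ _).trans ?_
        have := hC.2 (x + zc m)
        have e1 : ‖H' (x + zc m)‖ + ‖H₀' (x + zc m)‖ ≤ 2 * K + 1 := by linarith
        have e2 : 2 * (‖H' (x + zc m)‖ + ‖H₀' (x + zc m)‖) ≤ 2 * (2 * K + 1) := by linarith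
        exact mul_le_mul e2 this (norm_nonneg _) (by positivity)
      have d7 : |(H' (x + zc m)).det| ≤ |(H₀' (x + zc m)).det| + 2 * (2 * K + 1) * η := by
        have := abs_sub_abs_le_abs_sub (H' (x + zc m)).det (H₀' (x + zc m)).det
        linarith
      have d8 := (abs_le.mp d2).2
      have d9 := abs_nonneg (H' (x + zc m)).det
      set D := |(H' (x + zc m)).det|
      set D₀ := |(H₀' (x + zc m)).det|
      set a := q (H (x + zc m)) (H' (x + zc m) u)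
      set a₀ := q (H₀ (x + zc m)) (H₀' (x + zc m) u)
      have s1 : D * a ≤ D * (a₀ + κ') := mul_le_mul_of_nonneg_left (by linarith) d9
      have s2 : D * κ' ≤ 2 * (K + 1) ^ 2 * κ' := mul_le_mul_of_nonneg_right d5 hκ'0.le
      have s3 : D * a₀ ≤ (D₀ + 2 * (2 * K + 1) * η) * a₀ := mul_le_mul_of_nonneg_right d7 d4
      have s4 : 2 * (2 * K + 1) * η * a₀ ≤ 2 * (2 * K + 1) * η * B :=
        mul_le_mul_of_nonneg_left d3 (by positivity)
      linarith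
    refine (Finset.sum_le_sum key).trans ?_
    rw [Finset.sum_add_distrib, Finset.sum_const, nsmul_eq_mul]
    have t1 : (R.card : ℝ) * (2 * (K + 1) ^ 2 * κ') ≤ κ / 2 := by
      have e : (R.card + 1 : ℝ) * (2 * (K + 1) ^ 2 * κ') = κ / 2 := by
        rw [hκ']; field_simp
      have : (R.card : ℝ) * (2 * (K + 1) ^ 2 * κ') ≤ (R.card + 1 : ℝ) * (2 * (K + 1) ^ 2 * κ') := by
        gcongr; linarith
      linarith
    have t2 : (R.card : ℝ) * (2 * (2 * K + 1) * η * B) ≤ κ / 2 := by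
      have e1 : (R.card : ℝ) * (2 * (2 * K + 1) * η * B) ≤
          (R.card + 1 : ℝ) * (2 * (2 * K + 1) * η * (B + 1)) := by
        gcongr <;> linarith
      have e2 : (R.card + 1 : ℝ) * (2 * (2 * K + 1) * η * (B + 1)) =
          η * ((R.card + 1 : ℝ) * (2 * (2 * K + 1) * (B + 1))) := by ring
      have e3 : η * ((R.card + 1 : ℝ) * (2 * (2 * K + 1) * (B + 1))) ≤ κ / 2 := by
        rw [le_div_iff₀ (by positivity)] at hηc
        linarith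
      linarith
    linarith
  intro x v hv
  have hv0 : 0 < ‖v‖ := norm_pos_iff.mpr hv
  have hu : ‖‖v‖⁻¹ • v‖ = 1 := by
    rw [norm_smul, norm_inv, norm_norm]; exact inv_mul_cancel₀ hv0.ne'
  have ev : v = ‖v‖ • (‖v‖⁻¹ • v) := by
    rw [smul_smul, mul_inv_cancel₀ hv0.ne', one_smul]
  have hhom : ∀ (G : ℝ × ℝ → ℝ × ℝ) (G' : ℝ × ℝ → (ℝ × ℝ →L[ℝ] ℝ × ℝ)),
      LR R G G' q x v = ‖v‖ ^ (-s) * LR R G G' q x (‖v‖⁻¹ • v) := by
    intro G G'
    unfold LR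
    rw [Finset.mul_sum]
    apply Finset.sum_congr rfl
    intro m _
    conv_lhs => rw [ev]
    rw [map_smul, hq.hom _ _ _ hv0]
    ring
  rw [hhom H H', hhom H₀ H₀']
  have h1 := hunit x _ hu
  have h2 : 0 ≤ ‖v‖ ^ (-s) := Real.rpow_nonneg hv0.le _
  calc ‖v‖ ^ (-s) * LR R H H' q x (‖v‖⁻¹ • v)
      ≤ ‖v‖ ^ (-s) * (LR R H₀ H₀' q x (‖v‖⁻¹ • v) + κ) := mul_le_mul_of_nonneg_left h1 h2
    _ = _ := by unfold psR; ring

/-- closeness of the iterates -/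
theorem close_iter {Φ₀ : ℝ × ℝ → ℝ × ℝ} (L : Lift M Φ₀ H₀ H₀') (hR : Res M R) {K s : ℝ}
    (hs : 0 < s) (hB : Bnd H₀' K) (j : ℕ) : ∀ κ : ℝ, 0 < κ → ∃ η : ℝ, 0 < η ∧
      ∀ (H : ℝ × ℝ → ℝ × ℝ) (H' : ℝ × ℝ → (ℝ × ℝ →L[ℝ] ℝ × ℝ)), Clo H₀ H₀' η H H' →
      ∀ x v, v ≠ 0 →
        (LR R H H')^[j] (psR s) x v ≤ (LR R H₀ H₀')^[j] (psR s) x v + κ * psR s x v := by
  have hK := hB.K1
  have hinj₀ : ∀ x v, v ≠ 0 → H₀' x v ≠ 0 := by
    intro x v hv h0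
    have := hB.low x v
    rw [h0, norm_zero, mul_zero] at this
    exact hv (norm_le_zero_iff.mp this)
  induction j with
  | zero =>
    intro κ hκ
    refine ⟨1, one_pos, fun H H' _ x v _ => ?_⟩
    have := psR_nonneg s x v
    simp only [Function.iterate_zero, id]
    nlinarith
  | succ j ih =>
    intro κ hκ
    set C : ℝ := R.card * (2 * (K + 1) ^ 2 * (2 * K) ^ s) + 1 with hC
    have hC0 : 0 < C := by positivity
    obtain ⟨η₁, hη₁, h1⟩ := ih (κ / (2 * C)) (by positivity)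
    obtain ⟨η₂, hη₂, h2⟩ := close_one (R := R) (H₀ := H₀) hB
      (Gd_iter L hR hinj₀ (Gd_ps s) j) (κ := κ / 2) (by positivity)
    refine ⟨min (min η₁ η₂) (min 1 (1 / (2 * K))), by positivity, ?_⟩
    intro H H' hClo x v hv
    have c1 : Clo H₀ H₀' η₁ H H' :=
      ⟨fun x => (hClo.1 x).trans ((min_le_left _ _).trans (min_le_left _ _)),
        fun x => (hClo.2 x).trans ((min_le_left _ _).trans (min_le_left _ _))⟩
    have c2 : Clo H₀ H₀' η₂ H H' :=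
      ⟨fun x => (hClo.1 x).trans ((min_le_left _ _).trans (min_le_right _ _)),
        fun x => (hClo.2 x).trans ((min_le_left _ _).trans (min_le_right _ _))⟩
    set η := min (min η₁ η₂) (min 1 (1 / (2 * K)))
    have e1 : η ≤ 1 := (min_le_right _ _).trans (min_le_left _ _)
    have e2 : η ≤ 1 / (2 * K) := (min_le_right _ _).trans (min_le_right _ _)
    have hinj := hClo.inj hB e2
    rw [Function.iterate_succ_apply', Function.iterate_succ_apply']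
    have s1 : LR R H H' ((LR R H H')^[j] (psR s)) x v ≤
        LR R H H' (fun x v => (LR R H₀ H₀')^[j] (psR s) x v + κ / (2 * C) * psR s x v) x v :=
      LR_mono hinj (fun x v hv => h1 H H' c1 x v hv) x hv
    rw [LR_add_mul] at s1
    have s2 := h2 H H' c2 x v hv
    have s3 := hClo.one (R := R) hs hB e2 e1 x hv
    have hp := psR_nonneg s x v
    have s4 : κ / (2 * C) * LR R H H' (psR s) x v ≤ κ / 2 * psR s x v := by
      have : κ / (2 * C) * LR R H H' (psR s) x v ≤ κ / (2 * C) * (C * psR s x v) := by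
        apply mul_le_mul_of_nonneg_left _ (by positivity)
        refine s3.trans ?_
        apply mul_le_mul_of_nonneg_right _ hp
        rw [hC]; linarith
      have e : κ / (2 * C) * (C * psR s x v) = κ / 2 * psR s x v := by field_simp
      linarith
    linarith

end

end Pool.Agent.NUH
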